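import Pool.Agent.Lib.MP_794fdb_gt.U.Defs

set_option autoImplicit false

open scoped ContDiff Matrix.Norms.Elementwise
open Real Set MeasureTheory Matrix

namespace Pool.Agent.Lib.SkewU

theorem S_contDiff : ContDiff ℝ ∞ S := by
  unfold S
  rw [contDiff_pi]
  intro i
  rw [contDiff_pi]
  intro j
  fin_cases i <;> fin_cases j <;> simp <;> fun_prop

/-- The frame only depends on the sines and cosines. -/
theorem euler1_congr {p q : P3} (hc : ∀ i, cos (p i) = cos (q i)) (hs : ∀ i, sin (p i) = sin (q i)) :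
    S p = S q := by
  unfold S
  rw [hc 0, hc 1, hc 2, hs 0, hs 1, hs 2]

theorem S_per (p : P3) (i : Fin 3) : S (p + Pi.single i (2 * π)) = S p := by
  apply euler1_congr
  · intro j
    by_cases h : j = i
    · subst h; simp
    · simp [h]
  · intro j
    by_cases h : j = i
    · subst h; simp
    · simp [h]

theorem euler1_zero {p : P3} (hp : p 1 = 0) :
    S p = ![![cos (p 0 + p 2), sin (p 0 + p 2), 0], ![-sin (p 0 + p 2), cos (p 0 + p 2), 0],
      ![0, 0, 1]] := by
  unfold S
  rw [hp, cos_zero, sin_zero, cos_add, sin_add]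
  funext i j
  fin_cases i <;> fin_cases j <;> simp <;> ring

theorem S_zero {p q : P3} (hp : p 1 = 0) (hq : q 1 = 0) (h : p 0 + p 2 = q 0 + q 2) :
    S p = S q := by
  rw [euler1_zero hp, euler1_zero hq, h]

theorem euler1_pi {p : P3} (hp : p 1 = π) :
    S p = ![![-cos (p 0 - p 2), -sin (p 0 - p 2), 0], ![-sin (p 0 - p 2), cos (p 0 - p 2), 0],
      ![0, 0, -1]] := by
  unfold S
  rw [hp, cos_pi, sin_pi, cos_sub, sin_sub]
  funext i j
  fin_cases i <;> fin_cases j <;> simp <;> ring

theorem S_pi {p q : P3} (hp : p 1 = π) (hq : q 1 = π) (h : p 0 - p 2 = q 0 - q 2) :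
    S p = S q := by
  rw [euler1_pi hp, euler1_pi hq, h]

theorem S_ON (p : P3) : ON (S p) := by
  have h0 := sin_sq_add_cos_sq (p 0)
  have h1 := sin_sq_add_cos_sq (p 1)
  have h2 := sin_sq_add_cos_sq (p 2)
  unfold S
  intro i j
  generalize sin (p 0) = s0 at *
  generalize cos (p 0) = c0 at *
  generalize sin (p 1) = s1 at *
  generalize cos (p 1) = c1 at *
  generalize sin (p 2) = s2 at *
  generalize cos (p 2) = c2 at *
  fin_cases i <;> fin_cases j <;> simp [dotProduct, Fin.sum_univ_three]
  · linear_combination (c2 ^ 2 * c1 ^ 2 + s2 ^ 2) * h0 + c2 ^ 2 * h1 + h2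
  · linear_combination c2 * s2 * (1 - c1 ^ 2) * h0 - c2 * s2 * h1
  · linear_combination c2 * c1 * s1 * h0
  · linear_combination c2 * s2 * (1 - c1 ^ 2) * h0 - c2 * s2 * h1
  · linear_combination (s2 ^ 2 * c1 ^ 2 + c2 ^ 2) * h0 + s2 ^ 2 * h1 + h2
  · linear_combination -(s2 * c1 * s1) * h0
  · linear_combination c2 * c1 * s1 * h0
  · linear_combination -(s2 * c1 * s1) * h0
  · linear_combination s1 ^ 2 * h0 + h1

/-- Every rotation is attained in a compact box. -/
theorem S_box (p : P3) : ∃ q ∈ Icc (0 : P3) (fun _ => 2 * π), S q = S p := by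
  have hpi : (0 : ℝ) < 2 * π := by positivity
  refine ⟨fun i => toIcoMod hpi 0 (p i), ⟨fun i => ?_, fun i => ?_⟩, ?_⟩
  · exact (toIcoMod_mem_Ico hpi 0 (p i)).1
  · have := (toIcoMod_mem_Ico hpi 0 (p i)).2
    rw [zero_add] at this
    exact this.le
  · apply euler1_congr
    · intro i
      have h := toIcoMod_add_toIcoDiv_zsmul hpi 0 (p i)
      conv_rhs => rw [← h]
      rw [zsmul_eq_mul, cos_add_int_mul_two_pi]
    · intro i
      have h := toIcoMod_add_toIcoDiv_zsmul hpi 0 (p i)
      conv_rhs => rw [← h]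
      rw [zsmul_eq_mul, sin_add_int_mul_two_pi]

/-- Derivative of the columns in the third coordinate. -/
theorem dd_S_two (p : P3) : dd S 2 p = ![S p 1, -(S p 0), 0] := by
  have hd : DifferentiableAt ℝ S p := (S_contDiff.differentiable (by simp)).differentiableAt
  have hline : HasDerivAt (fun t : ℝ => S (p + t • Pi.single 2 1)) (![S p 1, -(S p 0), 0]) 0 := by
    have hc : HasDerivAt (fun t : ℝ => cos (p 2 + t)) (-sin (p 2)) 0 := by
      have := ((hasDerivAt_id (0 : ℝ)).const_add (p 2)).cos
      simpa using this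
    have hs : HasDerivAt (fun t : ℝ => sin (p 2 + t)) (cos (p 2)) 0 := by
      have := ((hasDerivAt_id (0 : ℝ)).const_add (p 2)).sin
      simpa using this
    have e0 : ∀ t : ℝ, (p + t • (Pi.single 2 1 : P3)) 0 = p 0 := by intro t; simp
    have e1 : ∀ t : ℝ, (p + t • (Pi.single 2 1 : P3)) 1 = p 1 := by intro t; simp
    have e2 : ∀ t : ℝ, (p + t • (Pi.single 2 1 : P3)) 2 = p 2 + t := by intro t; simp
    unfold S
    simp only [e0, e1, e2]
    rw [hasDerivAt_pi]
    intro i
    rw [hasDerivAt_pi]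
    intro j
    fin_cases i <;> fin_cases j <;> simp
    · exact ((hc.mul_const (cos (p 0) * cos (p 1))).fun_sub (hs.mul_const (sin (p 0)))).congr_deriv
        (by ring)
    · exact ((hc.mul_const (sin (p 0) * cos (p 1))).fun_add (hs.mul_const (cos (p 0)))).congr_deriv
        (by ring)
    · exact ((hc.mul_const (sin (p 1))).fun_neg).congr_deriv (by ring)
    · exact ((hs.mul_const (cos (p 0) * cos (p 1))).fun_neg.fun_sub
        (hc.mul_const (sin (p 0)))).congr_deriv (by ring)
    · exact ((hs.mul_const (sin (p 0) * cos (p 1))).fun_neg.fun_add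
        (hc.mul_const (cos (p 0)))).congr_deriv (by ring)
    · exact hs.mul_const (sin (p 1))
    · exact hasDerivAt_const _ _
    · exact hasDerivAt_const _ _
    · exact hasDerivAt_const _ _
  have h2 : HasDerivAt (fun t : ℝ => S (p + t • Pi.single 2 1)) (dd S 2 p) 0 := by
    have := hd.hasFDerivAt.hasLineDerivAt (Pi.single 2 1)
    exact this
  exact h2.unique hline

end Pool.Agent.Lib.SkewU
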