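import Pool.Agent.Lib.MP_794fdb_gt.U.Mani2

set_option autoImplicit false

open scoped ContDiff Matrix.Norms.Elementwise Manifold
open Real Set MeasureTheory Matrix

namespace Pool.Agent.Lib.SkewU

open Pool.Agent.TotallySkew

theorem mani3_unit_mem {x : V3} (hx : x ⬝ᵥ x = 1) :
    (WithLp.toLp 2 x : E3) ∈ Metric.sphere (0 : E3) 1 := by
  have h : (inner ℝ (WithLp.toLp 2 x : E3) (WithLp.toLp 2 x : E3) : ℝ) = 1 := by
    rw [← mani2_dot]
    exact hx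
  rw [real_inner_self_eq_norm_sq] at h
  have h2 : ‖(WithLp.toLp 2 x : E3)‖ = 1 := by
    have h3 := norm_nonneg (WithLp.toLp 2 x : E3)
    nlinarith
  simpa using h2

theorem mani3_ne_zero {x : V3} (hx : x ⬝ᵥ x = 1) : x ≠ 0 := by
  rintro rfl
  simp at hx

/-- The affine tangent spaces of a totally skew embedding at two points. -/
theorem mani3_skew {φ : S2 → E6} (hφ : IsTotallySkewEmbedding (𝓡 2) φ) {x y : S2} (hxy : x ≠ y)
    {t : ℝ} {u : TangentSpace (𝓡 2) x} {v : TangentSpace (𝓡 2) y}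
    (h : t • (φ x - φ y) + mvfderiv (𝓡 2) φ x u + mvfderiv (𝓡 2) φ y v = 0) :
    t = 0 ∧ u = 0 ∧ v = 0 := by
  obtain ⟨-, -, hinj, hsk⟩ := hφ
  obtain ⟨h1, h2⟩ := hsk x y hxy
  have ht : t = 0 := by
    by_contra ht
    rw [disjoint_iff, ← AffineSubspace.coe_eq_bot_iff, Set.eq_empty_iff_forall_notMem] at h1
    apply h1 (φ x + t⁻¹ • mvfderiv (𝓡 2) φ x u)
    rw [SetLike.mem_coe, AffineSubspace.mem_inf_iff]
    unfold affineTangent
    refine ⟨?_, ?_⟩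
    · rw [AffineSubspace.mem_mk']
      refine ⟨t⁻¹ • u, ?_⟩
      simp
    · rw [AffineSubspace.mem_mk']
      refine ⟨-(t⁻¹ • v), ?_⟩
      have h3 : mvfderiv (𝓡 2) φ x u = -(t • (φ x - φ y)) - mvfderiv (𝓡 2) φ y v := by
        have := eq_neg_of_add_eq_zero_left h
        rw [← sub_eq_zero] at this ⊢
        rw [← this]
        abel
      rw [h3]
      simp only [map_neg, map_smul, smul_sub, smul_neg, smul_smul, inv_mul_cancel₀ ht, one_smul,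
        vsub_eq_sub]
      abel
  subst ht
  rw [zero_smul, zero_add] at h
  unfold affineTangent at h2
  rw [AffineSubspace.direction_mk', AffineSubspace.direction_mk', Submodule.disjoint_def] at h2
  have h3 : mvfderiv (𝓡 2) φ x u = 0 := by
    apply h2 _ ⟨u, rfl⟩
    refine ⟨-v, ?_⟩
    change mvfderiv (𝓡 2) φ y (-v) = mvfderiv (𝓡 2) φ x u
    rw [map_neg]
    exact (eq_neg_of_add_eq_zero_left h).symm
  have h4 : mvfderiv (𝓡 2) φ y v = 0 := by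
    rw [h3, zero_add] at h
    exact h
  exact ⟨rfl, (injective_iff_map_eq_zero _).1 (hinj x) u h3,
    (injective_iff_map_eq_zero _).1 (hinj y) v h4⟩

theorem skewData_ext {φ : S2 → E6} (hφ : IsTotallySkewEmbedding (𝓡 2) φ) :
    SkewData (ext φ) := by
  refine ⟨fun x hx => ext_smooth hφ.1 hx, fun x hx r hr => ext_homog φ hx hr, ?_⟩
  intro x y hx hy hxy t v w hv hw h
  have hX := mani3_unit_mem hx
  have hY := mani3_unit_mem hy
  set X : S2 := ⟨WithLp.toLp 2 x, hX⟩ with hXd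
  set Y : S2 := ⟨WithLp.toLp 2 y, hY⟩ with hYd
  have hXY : X ≠ Y := by
    intro e
    apply hxy
    have := congrArg (fun z : S2 => (z : E3).ofLp) e
    exact this
  have hdx : DifferentiableAt ℝ (ext φ) (X : E3).ofLp :=
    (ext_smooth hφ.1 (mani3_ne_zero hx)).differentiableAt (by simp)
  have hdy : DifferentiableAt ℝ (ext φ) (Y : E3).ofLp :=
    (ext_smooth hφ.1 (mani3_ne_zero hy)).differentiableAt (by simp)
  obtain ⟨u1, h1, h1'⟩ := mvfderiv_of_extension (x := X) hdx (ext_unit φ) (v := v) hv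
  obtain ⟨u2, h2, h2'⟩ := mvfderiv_of_extension (x := Y) hdy (ext_unit φ) (v := w) hw
  have e1 : ext φ x = (φ X).ofLp := ext_unit φ X
  have e2 : ext φ y = (φ Y).ofLp := ext_unit φ Y
  have h3 : t • (φ X - φ Y) + mvfderiv (𝓡 2) φ X u1 + mvfderiv (𝓡 2) φ Y u2 = 0 := by
    apply (WithLp.ofLp_injective 2)
    change t • ((φ X).ofLp - (φ Y).ofLp) + (mvfderiv (𝓡 2) φ X u1 : E6).ofLp +
      (mvfderiv (𝓡 2) φ Y u2 : E6).ofLp = 0
    rw [h1, h2, ← e1, ← e2]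
    exact h
  obtain ⟨ht, hu1, hu2⟩ := mani3_skew hφ hXY h3
  exact ⟨ht, h1' hu1, h2' hu2⟩

/-- The quadratic map with matrices `Q`. -/
noncomputable def quad (Q : Fin 6 → Matrix (Fin 3) (Fin 3) ℝ) (x : S2) : E6 :=
  WithLp.toLp 2 fun i => (x : E3).ofLp ⬝ᵥ (Q i *ᵥ (x : E3).ofLp)

theorem mani3_quad_diff (A : Matrix (Fin 3) (Fin 3) ℝ) :
    Differentiable ℝ (fun p : V3 => p ⬝ᵥ (A *ᵥ p)) := by
  simp only [dotProduct, mulVec]
  fun_prop

theorem mani3_quad_fderiv {A : Matrix (Fin 3) (Fin 3) ℝ} (hA : Aᵀ = A) (x v : V3) :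
    fderiv ℝ (fun p : V3 => p ⬝ᵥ (A *ᵥ p)) x v = 2 * (x ⬝ᵥ (A *ᵥ v)) := by
  have h1 := (mani3_quad_diff A x).hasFDerivAt.hasLineDerivAt v
  have h0 : v ⬝ᵥ (A *ᵥ x) = x ⬝ᵥ (A *ᵥ v) := by
    rw [dotProduct_mulVec, ← mulVec_transpose, hA, dotProduct_comm]
  have h2 : HasDerivAt (fun t : ℝ => (x + t • v) ⬝ᵥ (A *ᵥ (x + t • v)))
      (2 * (x ⬝ᵥ (A *ᵥ v))) 0 := by
    have e : (fun t : ℝ => (x + t • v) ⬝ᵥ (A *ᵥ (x + t • v))) =
        fun t => x ⬝ᵥ (A *ᵥ x) + t * (2 * (x ⬝ᵥ (A *ᵥ v))) + t ^ 2 * (v ⬝ᵥ (A *ᵥ v)) := by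
      funext t
      rw [mulVec_add, mulVec_smul, add_dotProduct, dotProduct_add, dotProduct_add,
        smul_dotProduct, smul_dotProduct, dotProduct_smul, dotProduct_smul, h0]
      simp only [smul_eq_mul]
      ring
    rw [e]
    have h3 : HasDerivAt (fun t : ℝ => x ⬝ᵥ (A *ᵥ x) + t * (2 * (x ⬝ᵥ (A *ᵥ v))) +
        t ^ 2 * (v ⬝ᵥ (A *ᵥ v))) (1 * (2 * (x ⬝ᵥ (A *ᵥ v))) +
        (2 * (0 : ℝ)) * (v ⬝ᵥ (A *ᵥ v))) 0 := by
      refine (((hasDerivAt_id' (0 : ℝ)).mul_const _).const_add _).add ?_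
      simpa using (hasDerivAt_pow 2 (0 : ℝ)).mul_const (v ⬝ᵥ (A *ᵥ v))
    convert h3 using 1
    ring
  exact h1.unique h2

/-- Two tangent planes of the perturbed map that meet. -/
theorem not_skew_of_meet {φ : S2 → E6} (hφ : ContMDiff (𝓡 2) 𝓘(ℝ, E6) ∞ φ)
    {Q : Fin 6 → Matrix (Fin 3) (Fin 3) ℝ} (hQ : ∀ i, (Q i)ᵀ = Q i) {x y v w : V3}
    (hx : x ⬝ᵥ x = 1) (hy : y ⬝ᵥ y = 1) (hxy : x ≠ y) (hv : x ⬝ᵥ v = 0) (hw : y ⬝ᵥ w = 0)
    (hv0 : v ≠ 0)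
    (h : (fderiv ℝ (ext φ) x v + fun i => 2 * (x ⬝ᵥ (Q i *ᵥ v))) =
        fderiv ℝ (ext φ) y w + fun i => 2 * (y ⬝ᵥ (Q i *ᵥ w))) :
    ¬ IsTotallySkewEmbedding (𝓡 2) (fun z => φ z + quad Q z) := by
  intro hsk
  have hX := mani3_unit_mem hx
  have hY := mani3_unit_mem hy
  set X : S2 := ⟨WithLp.toLp 2 x, hX⟩ with hXd
  set Y : S2 := ⟨WithLp.toLp 2 y, hY⟩ with hYd
  have hXY : X ≠ Y := by
    intro e
    apply hxy
    have := congrArg (fun z : S2 => (z : E3).ofLp) e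
    exact this
  let G : V3 → V6 := fun p i => p ⬝ᵥ (Q i *ᵥ p)
  have hG : Differentiable ℝ G := by
    rw [differentiable_pi]
    exact fun i => mani3_quad_diff (Q i)
  have hGd : ∀ p q : V3, fderiv ℝ G p q = fun i => 2 * (p ⬝ᵥ (Q i *ᵥ q)) := by
    intro p q
    funext i
    have h1 : fderiv ℝ (fun z => G z i) p q = fderiv ℝ G p q i := by
      rw [fderiv_apply (hG p)]
      rfl
    rw [← h1]
    exact mani3_quad_fderiv (hQ i) p q
  let Ψ : V3 → V6 := fun p => ext φ p + G p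
  have hΨ : ∀ z : S2, Ψ (z : E3).ofLp = (φ z + quad Q z).ofLp := by
    intro z
    change ext φ (z : E3).ofLp + G (z : E3).ofLp = (φ z).ofLp + (quad Q z).ofLp
    rw [ext_unit]
    rfl
  have hdx : DifferentiableAt ℝ (ext φ) x :=
    (ext_smooth hφ (mani3_ne_zero hx)).differentiableAt (by simp)
  have hdy : DifferentiableAt ℝ (ext φ) y :=
    (ext_smooth hφ (mani3_ne_zero hy)).differentiableAt (by simp)
  have hΨx : DifferentiableAt ℝ Ψ (X : E3).ofLp := hdx.add (hG x)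
  have hΨy : DifferentiableAt ℝ Ψ (Y : E3).ofLp := hdy.add (hG y)
  obtain ⟨u1, h1, h1'⟩ := mvfderiv_of_extension (x := X) hΨx hΨ (v := v) hv
  obtain ⟨u2, h2, -⟩ := mvfderiv_of_extension (x := Y) hΨy hΨ (v := w) hw
  have e1 : fderiv ℝ Ψ (X : E3).ofLp v =
      fderiv ℝ (ext φ) x v + fun i => 2 * (x ⬝ᵥ (Q i *ᵥ v)) := by
    rw [← hGd x v]
    change fderiv ℝ (fun p => ext φ p + G p) x v = _
    rw [fderiv_fun_add hdx (hG x)]
    rfl
  have e2 : fderiv ℝ Ψ (Y : E3).ofLp w =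
      fderiv ℝ (ext φ) y w + fun i => 2 * (y ⬝ᵥ (Q i *ᵥ w)) := by
    rw [← hGd y w]
    change fderiv ℝ (fun p => ext φ p + G p) y w = _
    rw [fderiv_fun_add hdy (hG y)]
    rfl
  have h3 : (0 : ℝ) • ((φ X + quad Q X) - (φ Y + quad Q Y)) +
      mvfderiv (𝓡 2) (fun z => φ z + quad Q z) X u1 +
      mvfderiv (𝓡 2) (fun z => φ z + quad Q z) Y (-u2) = 0 := by
    rw [zero_smul, zero_add, map_neg, ← sub_eq_add_neg, sub_eq_zero]
    apply (WithLp.ofLp_injective 2)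
    rw [h1, h2, e1, e2]
    exact h
  obtain ⟨-, hu1, -⟩ := mani3_skew hsk hXY h3
  exact hv0 (h1' hu1)

end Pool.Agent.Lib.SkewU
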