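import Pool.Agent.Lib.MP_794fdb_gt.U.Defs

set_option autoImplicit false

open scoped ContDiff Matrix.Norms.Elementwise Manifold
open Real Set MeasureTheory Matrix

namespace Pool.Agent.Lib.SkewU

theorem pert_slope {X : Type} [NormedAddCommGroup X] [NormedSpace ℝ X] {f : ℝ → X} {f' : X}
    (hf : HasDerivAt f f' 0) (h0 : f 0 = 0) :
    Filter.Tendsto (fun t : ℝ => t⁻¹ • f t) (nhdsWithin 0 {0}ᶜ) (nhds f') := by
  have h := hasDerivAt_iff_tendsto_slope.1 hf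
  refine h.congr' ?_
  filter_upwards [self_mem_nhdsWithin] with t _
  simp [slope_def_module, h0]

theorem pert_unit {Φ : V3 → V6} (hsm : ∀ x, x ≠ 0 → ContDiffAt ℝ ∞ Φ x)
    (hself : ∀ x : V3, x ⬝ᵥ x = 1 → fderiv ℝ Φ x x = 0) {x v w u : V3} (hx : x ⬝ᵥ x = 1)
    (hxv : x ⬝ᵥ v = 0) (hxw : x ⬝ᵥ w = 0) (hxu : x ⬝ᵥ u = 0) (hv : v ⬝ᵥ v = 1) (hw : w ≠ 0)
    (h : D2 Φ x v w + fderiv ℝ Φ x u = 0) {ε : ℝ} (hε : 0 < ε) :
    ∃ (Q : Fin 6 → Matrix (Fin 3) (Fin 3) ℝ) (x' y' v' w' : V3),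
      (∀ i, (Q i)ᵀ = Q i) ∧ (∀ i a b, |Q i a b| < ε) ∧ x' ⬝ᵥ x' = 1 ∧ y' ⬝ᵥ y' = 1 ∧ x' ≠ y' ∧
      x' ⬝ᵥ v' = 0 ∧ y' ⬝ᵥ w' = 0 ∧ v' ≠ 0 ∧
      (fderiv ℝ Φ x' v' + fun i => 2 * (x' ⬝ᵥ (Q i *ᵥ v'))) =
        fderiv ℝ Φ y' w' + fun i => 2 * (y' ⬝ᵥ (Q i *ᵥ w')) := by
  have hx0 : x ≠ 0 := by
    rintro rfl
    simp at hx
  have hvx : v ⬝ᵥ x = 0 := by rw [dotProduct_comm]; exact hxv
  have hwx : w ⬝ᵥ x = 0 := by rw [dotProduct_comm]; exact hxw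
  have hux : u ⬝ᵥ x = 0 := by rw [dotProduct_comm]; exact hxu
  set α : ℝ := v ⬝ᵥ w with hα
  set γ : ℝ := v ⬝ᵥ u with hγ
  have hwv : w ⬝ᵥ v = α := by rw [dotProduct_comm]
  have huv : u ⬝ᵥ v = γ := by rw [dotProduct_comm]
  set xs : ℝ → V3 := fun s => cos s • x + sin s • v with hxs
  set as : ℝ → V3 := fun s => -(sin s) • x + cos s • v with has
  set W : ℝ → V3 := fun s => (w + α • (as s - v)) + s • (u + γ • (as s - v)) with hW
  -- algebra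
  have hsc : ∀ s : ℝ, sin s ^ 2 + cos s ^ 2 = 1 := sin_sq_add_cos_sq
  have hxx : ∀ s, xs s ⬝ᵥ xs s = 1 := by
    intro s
    simp only [hxs, add_dotProduct, dotProduct_add, smul_dotProduct, dotProduct_smul,
      smul_eq_mul, hx, hxv, hvx, hv]
    linear_combination hsc s
  have hxvs : ∀ s, xs s ⬝ᵥ v = sin s := by
    intro s
    simp only [hxs, add_dotProduct, smul_dotProduct, smul_eq_mul, hxv, hv]
    ring
  have hxas : ∀ s, xs s ⬝ᵥ as s = 0 := by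
    intro s
    simp only [hxs, has, add_dotProduct, dotProduct_add, smul_dotProduct, dotProduct_smul,
      smul_eq_mul, hx, hxv, hvx, hv]
    ring
  have hxw' : ∀ s, xs s ⬝ᵥ w = sin s * α := by
    intro s
    simp only [hxs, add_dotProduct, smul_dotProduct, smul_eq_mul, hxw, ← hα]
    ring
  have hxu' : ∀ s, xs s ⬝ᵥ u = sin s * γ := by
    intro s
    simp only [hxs, add_dotProduct, smul_dotProduct, smul_eq_mul, hxu, ← hγ]
    ring
  have hxW : ∀ s, xs s ⬝ᵥ W s = 0 := by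
    intro s
    simp only [hW, dotProduct_add, dotProduct_sub, dotProduct_smul, smul_eq_mul, hxw', hxu',
      hxas, hxvs]
    ring
  -- derivatives at zero
  have hxs0 : xs 0 = x := by simp [hxs]
  have has0 : as 0 = v := by simp [has]
  have hW0 : W 0 = w := by simp [hW, has0]
  have hdxs : HasDerivAt xs v 0 := by
    have h1 : HasDerivAt xs ((-sin 0) • x + cos 0 • v) 0 :=
      ((hasDerivAt_cos 0).smul_const x).add ((hasDerivAt_sin 0).smul_const v)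
    simpa using h1
  have hdas : HasDerivAt as (-x) 0 := by
    have h1 : HasDerivAt as ((-cos 0) • x + (-sin 0) • v) 0 :=
      ((hasDerivAt_sin 0).neg.smul_const x).add ((hasDerivAt_cos 0).smul_const v)
    simpa using h1
  have hdW : HasDerivAt W (u - α • x) 0 := by
    have h1 : HasDerivAt (fun s => w + α • (as s - v)) (α • (-x)) 0 :=
      ((hdas.sub_const v).const_smul α).const_add w
    have h2 : HasDerivAt (fun s => u + γ • (as s - v)) (γ • (-x)) 0 :=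
      ((hdas.sub_const v).const_smul γ).const_add u
    have h3 := h1.add ((hasDerivAt_id (0 : ℝ)).smul h2)
    have h4 : α • (-x) + ((id (0:ℝ)) • (γ • (-x)) + (1:ℝ) • (u + γ • (as 0 - v))) =
        u - α • x := by
      simp [has0]
      abel
    rw [h4] at h3
    exact h3
  have hcd : ContDiffAt ℝ ∞ Φ x := hsm x hx0
  have hfd : DifferentiableAt ℝ (fderiv ℝ Φ) x := by
    have h1 : ContDiffAt ℝ 1 (fderiv ℝ Φ) x := hcd.fderiv_right (m := 1) (by norm_cast)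
    exact h1.differentiableAt (by norm_num)
  have hD2 : D2 Φ x v w = fderiv ℝ (fderiv ℝ Φ) x v w := by
    have h1 := (hfd.hasFDerivAt.clm_apply (hasFDerivAt_const w x)).fderiv
    unfold D2
    rw [h1]
    simp
  have hdG : HasDerivAt (fun s => fderiv ℝ Φ (xs s) (W s)) 0 0 := by
    have h1 : HasDerivAt (fun s => fderiv ℝ Φ (xs s)) (fderiv ℝ (fderiv ℝ Φ) x v) 0 := by
      have h2 : HasFDerivAt (fderiv ℝ Φ) (fderiv ℝ (fderiv ℝ Φ) x) (xs 0) := by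
        rw [hxs0]
        exact hfd.hasFDerivAt
      exact h2.comp_hasDerivAt (0 : ℝ) hdxs
    have h3 := h1.clm_apply hdW
    have h4 : fderiv ℝ (fderiv ℝ Φ) x v (W 0) + fderiv ℝ Φ (xs 0) (u - α • x) = 0 := by
      rw [hW0, hxs0, ← hD2, map_sub, map_smul, hself x hx, smul_zero, sub_zero, h]
    rw [h4] at h3
    exact h3
  set Δ : ℝ → V6 := fun t => fderiv ℝ Φ (xs t) (W t) - fderiv ℝ Φ (xs (-t)) (W (-t)) with hΔ
  have hdΔ : HasDerivAt Δ 0 0 := by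
    have h1 : HasDerivAt (fun t : ℝ => fderiv ℝ Φ (xs (-t)) (W (-t))) (-(0 : V6)) 0 := by
      have h2 : HasDerivAt (fun s => fderiv ℝ Φ (xs s) (W s)) 0 (-(0:ℝ)) := by
        rw [neg_zero]; exact hdG
      have h3 := HasDerivAt.scomp (0 : ℝ) h2 (hasDerivAt_neg (0 : ℝ))
      simpa [Function.comp_def] using h3
    have h4 : HasDerivAt Δ (0 - -(0 : V6)) 0 := hdG.sub h1
    simpa using h4
  have hΔ0 : Δ 0 = 0 := by simp [hΔ]
  -- the quadratic form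
  set B : Matrix (Fin 3) (Fin 3) ℝ := vecMulVec v w + vecMulVec w v with hB
  have hBt : Bᵀ = B := by
    rw [hB, transpose_add, transpose_vecMulVec, transpose_vecMulVec, add_comm]
  have hBy : ∀ y : V3, B *ᵥ y = (w ⬝ᵥ y) • v + (v ⬝ᵥ y) • w := by
    intro y
    rw [hB, add_mulVec, vecMulVec_mulVec, vecMulVec_mulVec]
    simp
  set c : ℝ → ℝ := fun t => (w ⬝ᵥ (W t + W (-t))) + (v ⬝ᵥ (W t + W (-t))) * α with hc
  set β : ℝ → ℝ := fun t => 2 * (sin t * c t) with hβ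
  have hxB : ∀ t y, xs t ⬝ᵥ (B *ᵥ y) = sin t * ((w ⬝ᵥ y) + (v ⬝ᵥ y) * α) := by
    intro t y
    rw [hBy, dotProduct_add, dotProduct_smul, dotProduct_smul, hxvs, hxw']
    simp only [smul_eq_mul]
    ring
  have hdc : ContinuousAt c 0 := by
    have h1 : ContinuousAt W 0 := hdW.continuousAt
    have h2 : ContinuousAt (fun t : ℝ => W (-t)) 0 := by
      have h3 : ContinuousAt W (-(0:ℝ)) := by rw [neg_zero]; exact h1
      exact ContinuousAt.comp (f := fun t : ℝ => -t) h3 continuous_neg.continuousAt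
    have h4 : ContinuousAt (fun t => W t + W (-t)) 0 := h1.add h2
    have h5 : ∀ y : V3, Continuous fun z : V3 => y ⬝ᵥ z := by
      intro y
      exact Continuous.dotProduct continuous_const continuous_id
    exact (ContinuousAt.comp (f := fun t => W t + W (-t)) (h5 w).continuousAt h4).add
      ((ContinuousAt.comp (f := fun t => W t + W (-t)) (h5 v).continuousAt h4).mul
        continuousAt_const)
  have hww : 0 < w ⬝ᵥ w := by
    have h1 : w ⬝ᵥ w ≠ 0 := fun h2 => hw (dotProduct_self_eq_zero.1 h2)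
    have h2 : 0 ≤ w ⬝ᵥ w := Finset.sum_nonneg fun i _ => mul_self_nonneg _
    exact lt_of_le_of_ne h2 (Ne.symm h1)
  have hc0 : c 0 = 2 * (w ⬝ᵥ w) + 2 * (α * α) := by
    simp only [hc, neg_zero, hW0, dotProduct_add, ← hα]
    ring
  have hc0pos : 0 < c 0 := by
    rw [hc0]
    nlinarith [mul_self_nonneg α]
  have hβlim : Filter.Tendsto (fun t : ℝ => t⁻¹ * β t) (nhdsWithin 0 {0}ᶜ) (nhds (2 * c 0)) := by
    have h1 : Filter.Tendsto (fun t : ℝ => t⁻¹ • sin t) (nhdsWithin 0 {0}ᶜ) (nhds (cos 0)) :=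
      pert_slope (hasDerivAt_sin 0) sin_zero
    rw [cos_zero] at h1
    have h2 : Filter.Tendsto c (nhdsWithin 0 {0}ᶜ) (nhds (c 0)) :=
      hdc.tendsto.mono_left nhdsWithin_le_nhds
    have h3 := (h1.mul h2).const_mul 2
    rw [one_mul] at h3
    refine h3.congr fun t => ?_
    simp only [hβ, smul_eq_mul]
    ring
  have hΔlim : Filter.Tendsto (fun t : ℝ => t⁻¹ • Δ t) (nhdsWithin 0 {0}ᶜ) (nhds 0) :=
    pert_slope hdΔ hΔ0
  have hξlim : Filter.Tendsto (fun t : ℝ => (-(t⁻¹ * β t)⁻¹) • (t⁻¹ • Δ t))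
      (nhdsWithin 0 {0}ᶜ) (nhds 0) := by
    have h1 := ((hβlim.inv₀ (by positivity)).neg).smul hΔlim
    rwa [smul_zero] at h1
  -- choice of a small parameter
  set K : ℝ := ‖B‖ + 1 with hK
  have hKpos : 0 < K := by positivity
  have e1 : ∀ᶠ t in nhdsWithin (0:ℝ) {0}ᶜ, ‖(-(t⁻¹ * β t)⁻¹) • (t⁻¹ • Δ t)‖ < ε / K := by
    have h1 := hξlim.norm
    rw [norm_zero] at h1
    exact h1.eventually (gt_mem_nhds (by positivity))
  have e2 : ∀ᶠ t in nhdsWithin (0:ℝ) {0}ᶜ, 0 < t⁻¹ * β t :=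
    hβlim.eventually (lt_mem_nhds (by positivity))
  have e3 : ∀ᶠ t in nhdsWithin (0:ℝ) {0}ᶜ, W t ≠ 0 := by
    have h1 : Filter.Tendsto W (nhdsWithin 0 {0}ᶜ) (nhds w) := by
      have := hdW.continuousAt.tendsto
      rw [hW0] at this
      exact this.mono_left nhdsWithin_le_nhds
    exact h1.eventually_ne hw
  have e4 : ∀ᶠ t in nhdsWithin (0:ℝ) {0}ᶜ, t ∈ ({0}ᶜ : Set ℝ) := self_mem_nhdsWithin
  obtain ⟨t, ht1, ht2, ht3, ht4⟩ := (e1.and (e2.and (e3.and e4))).exists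
  have ht0 : t ≠ 0 := ht4
  have hβt : β t ≠ 0 := by
    intro h0
    rw [h0, mul_zero] at ht2
    exact lt_irrefl _ ht2
  have hst : sin t ≠ 0 := by
    intro h0
    apply hβt
    simp [hβ, h0]
  set ξ : V6 := (-(β t)⁻¹) • Δ t with hξ
  have hξeq : (-(t⁻¹ * β t)⁻¹) • (t⁻¹ • Δ t) = ξ := by
    rw [hξ, smul_smul]
    congr 1
    field_simp
  rw [hξeq] at ht1
  refine ⟨fun i => ξ i • B, xs t, xs (-t), W t, W (-t), ?_, ?_, hxx t, hxx (-t), ?_, hxW t,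
    hxW (-t), ht3, ?_⟩
  · intro i
    rw [transpose_smul, hBt]
  · intro i a b
    have h1 : |ξ i| ≤ ‖ξ‖ := by
      rw [← Real.norm_eq_abs]
      exact norm_le_pi_norm ξ i
    have h2 : |B a b| ≤ ‖B‖ := by
      rw [← Real.norm_eq_abs]
      exact norm_entry_le_entrywise_sup_norm B
    have h3 : |(ξ i • B) a b| = |ξ i| * |B a b| := by
      rw [Matrix.smul_apply, smul_eq_mul, abs_mul]
    rw [h3]
    have h4 : |ξ i| * |B a b| ≤ ‖ξ‖ * K := by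
      apply mul_le_mul h1 (by linarith) (abs_nonneg _) (norm_nonneg _)
    have h5 : ‖ξ‖ * K < ε := by
      rw [lt_div_iff₀ hKpos] at ht1
      exact ht1
    linarith
  · intro h0
    have h1 : xs t ⬝ᵥ v = xs (-t) ⬝ᵥ v := by rw [h0]
    rw [hxvs, hxvs, sin_neg] at h1
    apply hst
    linarith
  · funext i
    have h1 : ∀ s y, xs s ⬝ᵥ ((ξ i • B) *ᵥ y) = ξ i * (sin s * ((w ⬝ᵥ y) + (v ⬝ᵥ y) * α)) := by
      intro s y
      rw [smul_mulVec, dotProduct_smul, hxB, smul_eq_mul]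
    have h2 : ξ i * β t = -(Δ t i) := by
      rw [hξ, Pi.smul_apply, smul_eq_mul]
      field_simp
    have h3 : Δ t i = fderiv ℝ Φ (xs t) (W t) i - fderiv ℝ Φ (xs (-t)) (W (-t)) i := rfl
    rw [h3] at h2
    simp only [Pi.add_apply]
    rw [h1, h1, sin_neg]
    have h4 : β t = 2 * (sin t * (((w ⬝ᵥ W t) + (w ⬝ᵥ W (-t))) +
        ((v ⬝ᵥ W t) + (v ⬝ᵥ W (-t))) * α)) := by
      simp only [hβ, hc, dotProduct_add]
    rw [h4] at h2
    linarith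

/-- If the second fundamental form is singular at some point, an arbitrarily small quadratic
perturbation makes two tangent planes meet. -/
theorem pert {Φ : V3 → V6} (hsm : ∀ x, x ≠ 0 → ContDiffAt ℝ ∞ Φ x)
    (hself : ∀ x : V3, x ⬝ᵥ x = 1 → fderiv ℝ Φ x x = 0) {x v w u : V3} (hx : x ⬝ᵥ x = 1)
    (hxv : x ⬝ᵥ v = 0) (hxw : x ⬝ᵥ w = 0) (hxu : x ⬝ᵥ u = 0) (hv : v ≠ 0) (hw : w ≠ 0)
    (h : D2 Φ x v w + fderiv ℝ Φ x u = 0) {ε : ℝ} (hε : 0 < ε) :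
    ∃ (Q : Fin 6 → Matrix (Fin 3) (Fin 3) ℝ) (x' y' v' w' : V3),
      (∀ i, (Q i)ᵀ = Q i) ∧ (∀ i a b, |Q i a b| < ε) ∧ x' ⬝ᵥ x' = 1 ∧ y' ⬝ᵥ y' = 1 ∧ x' ≠ y' ∧
      x' ⬝ᵥ v' = 0 ∧ y' ⬝ᵥ w' = 0 ∧ v' ≠ 0 ∧
      (fderiv ℝ Φ x' v' + fun i => 2 * (x' ⬝ᵥ (Q i *ᵥ v'))) =
        fderiv ℝ Φ y' w' + fun i => 2 * (y' ⬝ᵥ (Q i *ᵥ w')) := by
  have hvv : 0 < v ⬝ᵥ v := by
    have h1 : v ⬝ᵥ v ≠ 0 := fun h2 => hv (dotProduct_self_eq_zero.1 h2)
    have h2 : 0 ≤ v ⬝ᵥ v := Finset.sum_nonneg fun i _ => mul_self_nonneg _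
    exact lt_of_le_of_ne h2 (Ne.symm h1)
  set r : ℝ := (√(v ⬝ᵥ v))⁻¹ with hr
  have hr2 : r * r * (v ⬝ᵥ v) = 1 := by
    have h1 : √(v ⬝ᵥ v) ≠ 0 := (Real.sqrt_pos.2 hvv).ne'
    have h2 : √(v ⬝ᵥ v) * √(v ⬝ᵥ v) = v ⬝ᵥ v := Real.mul_self_sqrt hvv.le
    rw [hr]
    field_simp
    nlinarith
  refine pert_unit hsm hself (x := x) (v := r • v) (w := w) (u := r • u) hx ?_ hxw ?_ ?_ hw ?_ hε
  · rw [dotProduct_smul, hxv, smul_zero]
  · rw [dotProduct_smul, hxu, smul_zero]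
  · rw [dotProduct_smul, smul_dotProduct, smul_eq_mul, smul_eq_mul, ← hr2]
    ring
  · have h1 : D2 Φ x (r • v) w = r • D2 Φ x v w := by
      unfold D2
      rw [map_smul]
    rw [h1, map_smul, ← smul_add, h, smul_zero]

end Pool.Agent.Lib.SkewU
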