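import Pool.Agent.Lib.MP_794fdb_gt.U.Core
import Pool.Agent.Lib.MP_794fdb_gt.U.Pert
import Pool.Agent.Lib.MP_794fdb_gt.U.Mani3

set_option autoImplicit false

open scoped ContDiff Matrix.Norms.Elementwise Manifold
open Real Set MeasureTheory Matrix

namespace Pool.Agent.Lib.SkewU

open Pool.Agent.TotallySkew

/-- A totally skew embedding of the sphere in six-space has a singular point of the second
fundamental form. -/
theorem exists_singular {φ : S2 → E6} (hφ : IsTotallySkewEmbedding (𝓡 2) φ) :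
    ∃ x v w u : V3, x ⬝ᵥ x = 1 ∧ x ⬝ᵥ v = 0 ∧ x ⬝ᵥ w = 0 ∧ x ⬝ᵥ u = 0 ∧ v ≠ 0 ∧ w ≠ 0 ∧
      D2 (ext φ) x v w + fderiv ℝ (ext φ) x u = 0 := by
  by_contra hcon
  refine core (skewData_ext hφ) fun x v w u hx hxv hxw hxu hv hw h => hcon ?_
  exact ⟨x, v, w, u, hx, hxv, hxw, hxu, hv, hw, h⟩

theorem unstable (φ : S2 → E6) {ε : ℝ} (hε : 0 < ε) :
    ∃ Q : Fin 6 → Matrix (Fin 3) (Fin 3) ℝ, (∀ i, (Q i)ᵀ = Q i) ∧ (∀ i a b, |Q i a b| < ε) ∧
      ¬ IsTotallySkewEmbedding (𝓡 2) (fun z => φ z + quad Q z) := by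
  by_cases hφ : IsTotallySkewEmbedding (𝓡 2) φ
  · obtain ⟨x, v, w, u, hx, hxv, hxw, hxu, hv, hw, h⟩ := exists_singular hφ
    have hΦ := skewData_ext hφ
    obtain ⟨Q, x', y', v', w', h1, h2, h3, h4, h5, h6, h7, h8, h9⟩ :=
      pert hΦ.smooth (fun x hx => hΦ.fderiv_self hx) hx hxv hxw hxu hv hw h hε
    exact ⟨Q, h1, h2, not_skew_of_meet hφ.1 h1 h3 h4 h5 h6 h7 h8 h9⟩
  · refine ⟨0, fun i => by simp, fun i a b => by simpa using hε, ?_⟩
    have : (fun z => φ z + quad 0 z) = φ := by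
      funext z
      ext i
      simp [quad]
    rwa [this]

end Pool.Agent.Lib.SkewU
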