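import Pool.Agent.Lib.MP_794fdb_gt.U.Defs

set_option autoImplicit false

open scoped ContDiff Matrix.Norms.Elementwise
open Real Set MeasureTheory Matrix

namespace Pool.Agent.Lib.SkewU

/-- The point with given coordinates. -/
def Abel_pt (q : ℝ × ℝ × ℝ) : P3 := ![q.1, q.2.1, q.2.2]

theorem Abel_cont3 : Continuous Abel_pt := by
  apply continuous_pi
  intro i
  fin_cases i
  · exact continuous_fst
  · exact continuous_fst.comp continuous_snd
  · exact continuous_snd.comp continuous_snd

theorem Abel_mp : MeasurePreserving Abel_pt volume volume ∧ MeasurableEmbedding Abel_pt := by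
  let e : P3 ≃ᵐ ℝ × (Fin 2 → ℝ) := MeasurableEquiv.piFinSuccAbove (fun _ => ℝ) 0
  have he : MeasurePreserving e volume volume := volume_preserving_piFinSuccAbove (fun _ => ℝ) 0
  let e2 : (Fin 2 → ℝ) ≃ᵐ ℝ × ℝ := MeasurableEquiv.finTwoArrow
  have he2 : MeasurePreserving e2 volume volume := volume_preserving_finTwoArrow ℝ
  let φ : P3 ≃ᵐ ℝ × ℝ × ℝ := e.trans (MeasurableEquiv.prodCongr (MeasurableEquiv.refl ℝ) e2)
  have hφ : MeasurePreserving φ volume volume :=
    ((MeasurePreserving.id volume).prod he2).comp he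
  have hs : ∀ q : ℝ × ℝ × ℝ, φ.symm q = Abel_pt q := by
    intro q
    rw [MeasurableEquiv.symm_apply_eq]
    rfl
  have hs' : Abel_pt = φ.symm := funext fun q => (hs q).symm
  rw [hs']
  exact ⟨hφ.symm φ, φ.symm.measurableEmbedding⟩

theorem Abel_pre : Abel_pt ⁻¹' (Icc (0 : P3) top3) =
    Icc (0 : ℝ) (2 * π) ×ˢ (Icc (0 : ℝ) π ×ˢ Icc (0 : ℝ) (2 * π)) := by
  ext q
  simp only [mem_preimage, mem_Icc, mem_prod, Pi.le_def, Fin.forall_fin_succ, Abel_pt, top3]
  simp
  tauto

/-- Fubini on the Euler box. -/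
theorem Abel_fubini (g : P3 → ℝ) (hg : Continuous g) :
    ∫ p in Icc (0 : P3) top3, g p =
      ∫ x in (0 : ℝ)..(2 * π), ∫ y in (0 : ℝ)..π, ∫ z in (0 : ℝ)..(2 * π), g ![x, y, z] := by
  have hpi := Real.pi_pos
  have h2pi : (0 : ℝ) ≤ 2 * π := by linarith
  have hgc : Continuous (fun q : ℝ × ℝ × ℝ => g (Abel_pt q)) := hg.comp Abel_cont3
  rw [← Abel_mp.1.setIntegral_preimage_emb Abel_mp.2 g, Abel_pre, Measure.volume_eq_prod,
    setIntegral_prod]
  · rw [intervalIntegral.integral_of_le h2pi, integral_Icc_eq_integral_Ioc]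
    apply setIntegral_congr_fun measurableSet_Ioc
    intro x _
    have hgx : Continuous (fun q : ℝ × ℝ => g (Abel_pt (x, q))) :=
      hgc.comp (Continuous.prodMk continuous_const continuous_id)
    simp only
    rw [Measure.volume_eq_prod, setIntegral_prod]
    · rw [intervalIntegral.integral_of_le hpi.le, integral_Icc_eq_integral_Ioc]
      apply setIntegral_congr_fun measurableSet_Ioc
      intro y _
      simp only
      rw [intervalIntegral.integral_of_le h2pi, integral_Icc_eq_integral_Ioc]
      rfl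
    · rw [← Measure.volume_eq_prod]
      exact hgx.continuousOn.integrableOn_compact (isCompact_Icc.prod isCompact_Icc)
  · rw [← Measure.volume_eq_prod]
    exact hgc.continuousOn.integrableOn_compact
      (isCompact_Icc.prod (isCompact_Icc.prod isCompact_Icc))

/-- swap of two interval integrals of a continuous function -/
theorem Abel_swap (F : ℝ → ℝ → ℝ) (hF : Continuous F.uncurry) (a b c d : ℝ) :
    ∫ x in a..b, ∫ y in c..d, F x y = ∫ y in c..d, ∫ x in a..b, F x y := by
  apply intervalIntegral_intervalIntegral_swap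
  apply (hF.continuousOn.integrableOn_compact (isCompact_uIcc.prod isCompact_uIcc)).mono_set
  exact Set.prod_mono uIoc_subset_uIcc uIoc_subset_uIcc

theorem Abel_d0 {f : P3 → ℝ} (hf : ContDiff ℝ ∞ f) (x y z : ℝ) :
    HasDerivAt (fun t => f ![t, y, z]) (dd f 0 ![x, y, z]) x := by
  have h1 : HasDerivAt (fun t : ℝ => (![t, y, z] : P3)) (Pi.single 0 1) x := by
    rw [hasDerivAt_pi]
    intro i
    fin_cases i
    · simpa using hasDerivAt_id' x
    · simpa using hasDerivAt_const x y
    · simpa using hasDerivAt_const x z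
  exact ((hf.differentiable (by simp)) ![x, y, z]).hasFDerivAt.comp_hasDerivAt x h1

theorem Abel_d1 {f : P3 → ℝ} (hf : ContDiff ℝ ∞ f) (x y z : ℝ) :
    HasDerivAt (fun t => f ![x, t, z]) (dd f 1 ![x, y, z]) y := by
  have h1 : HasDerivAt (fun t : ℝ => (![x, t, z] : P3)) (Pi.single 1 1) y := by
    rw [hasDerivAt_pi]
    intro i
    fin_cases i
    · simpa using hasDerivAt_const y x
    · simpa using hasDerivAt_id' y
    · simpa using hasDerivAt_const y z
  exact ((hf.differentiable (by simp)) ![x, y, z]).hasFDerivAt.comp_hasDerivAt y h1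

theorem Abel_d2 {f : P3 → ℝ} (hf : ContDiff ℝ ∞ f) (x y z : ℝ) :
    HasDerivAt (fun t => f ![x, y, t]) (dd f 2 ![x, y, z]) z := by
  have h1 : HasDerivAt (fun t : ℝ => (![x, y, t] : P3)) (Pi.single 2 1) z := by
    rw [hasDerivAt_pi]
    intro i
    fin_cases i
    · simpa using hasDerivAt_const z x
    · simpa using hasDerivAt_const z y
    · simpa using hasDerivAt_id' z
  exact ((hf.differentiable (by simp)) ![x, y, z]).hasFDerivAt.comp_hasDerivAt z h1

theorem Abel_dd_contDiff {f : P3 → ℝ} (hf : ContDiff ℝ ∞ f) (i : Fin 3) :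
    ContDiff ℝ ∞ (dd f i) := by
  have h1 : ContDiff ℝ ∞ (fderiv ℝ f) := hf.fderiv_right (by simp)
  exact h1.clm_apply contDiff_const

theorem Abel_symm {f : P3 → ℝ} (hf : ContDiff ℝ ∞ f) (i j : Fin 3) (p : P3) :
    dd (dd f i) j p = dd (dd f j) i p := by
  have h1 : ContDiff ℝ ∞ (fderiv ℝ f) := hf.fderiv_right (by simp)
  have h2 : ∀ (v w : P3), fderiv ℝ (fun q => fderiv ℝ f q v) p w = fderiv ℝ (fderiv ℝ f) p w v := by
    intro v w
    rw [fderiv_clm_apply (h1.differentiable (by simp) p) (by fun_prop)]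
    simp
  unfold dd
  rw [h2, h2]
  exact ((contDiff_infty.1 hf 2).contDiffAt.isSymmSndFDerivAt (by simp)) _ _

theorem Abel_add0 (x y z c : ℝ) : (![x, y, z] : P3) + Pi.single 0 c = ![x + c, y, z] := by
  ext i
  fin_cases i <;> simp

theorem Abel_add2 (x y z c : ℝ) : (![x, y, z] : P3) + Pi.single 2 c = ![x, y, z + c] := by
  ext i
  fin_cases i <;> simp

/-- The abelian term. -/
theorem abel (a : Fin 3 → P3 → ℝ) (ha : ∀ i, ContDiff ℝ ∞ (a i))
    (per : ∀ i p, a i (p + Pi.single 0 (2 * π)) = a i p ∧ a i (p + Pi.single 2 (2 * π)) = a i p)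
    (h0 : ∀ p, dd (a 0) 2 p = dd (a 2) 0 p) (h1 : ∀ p, dd (a 1) 2 p = dd (a 2) 1 p)
    (z0 : ∀ p, p 1 = 0 → a 0 p = a 2 p) (zp : ∀ p, p 1 = π → a 0 p = -a 2 p)
    (c0 : ∀ p q : P3, p 1 = 0 → q 1 = 0 → p 0 + p 2 = q 0 + q 2 → a 2 p = a 2 q)
    (cp : ∀ p q : P3, p 1 = π → q 1 = π → p 0 - p 2 = q 0 - q 2 → a 2 p = a 2 q) :
    0 ≤ ∫ p in Icc (0 : P3) top3, a 2 p * (dd (a 1) 0 p - dd (a 0) 1 p) := by
  have hpi := Real.pi_pos
  have hpt : ∀ (f : P3 → ℝ), Continuous f → ∀ (u v w : ℝ × ℝ → ℝ), Continuous u → Continuous v →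
      Continuous w → Continuous (fun q : ℝ × ℝ => f ![u q, v q, w q]) := by
    intro f hf u v w hu hv hw
    exact hf.comp (Abel_cont3.comp (hu.prodMk (hv.prodMk hw)))
  have hpt1 : ∀ (f : P3 → ℝ), Continuous f → ∀ (u v w : ℝ → ℝ), Continuous u → Continuous v →
      Continuous w → Continuous (fun q : ℝ => f ![u q, v q, w q]) := by
    intro f hf u v w hu hv hw
    exact hf.comp (Abel_cont3.comp (hu.prodMk (hv.prodMk hw)))
  have hc : ∀ i, Continuous (a i) := fun i => (ha i).continuous
  have hdd : ∀ i j, ContDiff ℝ ∞ (dd (a i) j) := fun i j => Abel_dd_contDiff (ha i) j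
  have hddc : ∀ i j, Continuous (dd (a i) j) := fun i j => (hdd i j).continuous
  set W : P3 → ℝ := fun p => dd (a 1) 0 p - dd (a 0) 1 p with hW
  have hWd : ContDiff ℝ ∞ W := (hdd 1 0).sub (hdd 0 1)
  -- W does not depend on the third coordinate
  have hWz : ∀ x y z, W ![x, y, z] = W ![x, y, 0] := by
    intro x y z
    have key : ∀ t, HasDerivAt (fun t => W ![x, y, t]) 0 t := by
      intro t
      have e1 := (Abel_d2 (hdd 1 0) x y t).sub (Abel_d2 (hdd 0 1) x y t)
      have e2 : dd (dd (a 1) 0) 2 ![x, y, t] - dd (dd (a 0) 1) 2 ![x, y, t] = 0 := by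
        rw [Abel_symm (ha 1) 0 2, Abel_symm (ha 0) 1 2]
        have f1 : dd (a 1) 2 = dd (a 2) 1 := funext h1
        have f2 : dd (a 0) 2 = dd (a 2) 0 := funext h0
        rw [f1, f2, Abel_symm (ha 2) 1 0, sub_self]
      rw [e2] at e1
      exact e1
    exact is_const_of_deriv_eq_zero (fun t => (key t).differentiableAt)
      (fun t => (key t).deriv) z 0
  -- the mean value over the third coordinate
  set Q : ℝ → ℝ → ℝ := fun x y => ∫ z in (0 : ℝ)..(2 * π), a 2 ![x, y, z] with hQ
  have hper0 : ∀ i x y z, a i ![x + 2 * π, y, z] = a i ![x, y, z] := by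
    intro i x y z
    rw [← Abel_add0]
    exact (per i _).1
  have hper2 : ∀ i x y z, a i ![x, y, z + 2 * π] = a i ![x, y, z] := by
    intro i x y z
    rw [← Abel_add2]
    exact (per i _).2
  have hQx : ∀ x y, Q x y = Q 0 y := by
    intro x y
    have e1 : Q x y - Q 0 y = ∫ z in (0 : ℝ)..(2 * π), (a 2 ![x, y, z] - a 2 ![0, y, z]) := by
      rw [intervalIntegral.integral_sub]
      · exact (hpt1 _ (hc 2) _ _ _ continuous_const continuous_const
          continuous_id).intervalIntegrable _ _
      · exact (hpt1 _ (hc 2) _ _ _ continuous_const continuous_const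
          continuous_id).intervalIntegrable _ _
    have e2 : ∀ z, a 2 ![x, y, z] - a 2 ![0, y, z] =
        ∫ t in (0 : ℝ)..x, dd (a 0) 2 ![t, y, z] := by
      intro z
      have f2 : dd (a 0) 2 = dd (a 2) 0 := funext h0
      rw [f2]
      refine (intervalIntegral.integral_eq_sub_of_hasDerivAt
        (f := fun t => a 2 ![t, y, z]) (fun t _ => Abel_d0 (ha 2) t y z) ?_).symm
      exact (hpt1 _ (hddc 2 0) _ _ _ continuous_id continuous_const
          continuous_const).intervalIntegrable _ _
    have e3 : Q x y - Q 0 y = 0 := by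
      rw [e1]
      simp_rw [e2]
      rw [Abel_swap (fun z t => dd (a 0) 2 ![t, y, z])
        (hpt _ (hddc 0 2) _ _ _ continuous_snd continuous_const continuous_fst)]
      have e4 : ∀ t, ∫ z in (0 : ℝ)..(2 * π), dd (a 0) 2 ![t, y, z] = 0 := by
        intro t
        rw [intervalIntegral.integral_eq_sub_of_hasDerivAt
          (f := fun z => a 0 ![t, y, z]) (fun z _ => Abel_d2 (ha 0) t y z)]
        · have := hper2 0 t y 0
          rw [zero_add] at this
          rw [this, sub_self]
        · exact (hpt1 _ (hddc 0 2) _ _ _ continuous_const continuous_const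
            continuous_id).intervalIntegrable _ _
      simp_rw [e4]
      simp
    linarith
  have hQy : ∀ x y, Q x y = Q x 0 := by
    intro x y
    have e1 : Q x y - Q x 0 = ∫ z in (0 : ℝ)..(2 * π), (a 2 ![x, y, z] - a 2 ![x, 0, z]) := by
      rw [intervalIntegral.integral_sub]
      · exact (hpt1 _ (hc 2) _ _ _ continuous_const continuous_const
          continuous_id).intervalIntegrable _ _
      · exact (hpt1 _ (hc 2) _ _ _ continuous_const continuous_const
          continuous_id).intervalIntegrable _ _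
    have e2 : ∀ z, a 2 ![x, y, z] - a 2 ![x, 0, z] =
        ∫ t in (0 : ℝ)..y, dd (a 1) 2 ![x, t, z] := by
      intro z
      have f2 : dd (a 1) 2 = dd (a 2) 1 := funext h1
      rw [f2]
      refine (intervalIntegral.integral_eq_sub_of_hasDerivAt
        (f := fun t => a 2 ![x, t, z]) (fun t _ => Abel_d1 (ha 2) x t z) ?_).symm
      exact (hpt1 _ (hddc 2 1) _ _ _ continuous_const continuous_id
          continuous_const).intervalIntegrable _ _
    have e3 : Q x y - Q x 0 = 0 := by
      rw [e1]
      simp_rw [e2]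
      rw [Abel_swap (fun z t => dd (a 1) 2 ![x, t, z])
        (hpt _ (hddc 1 2) _ _ _ continuous_const continuous_snd continuous_fst)]
      have e4 : ∀ t, ∫ z in (0 : ℝ)..(2 * π), dd (a 1) 2 ![x, t, z] = 0 := by
        intro t
        rw [intervalIntegral.integral_eq_sub_of_hasDerivAt
          (f := fun z => a 1 ![x, t, z]) (fun z _ => Abel_d2 (ha 1) x t z)]
        · have := hper2 1 x t 0
          rw [zero_add] at this
          rw [this, sub_self]
        · exact (hpt1 _ (hddc 1 2) _ _ _ continuous_const continuous_const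
            continuous_id).intervalIntegrable _ _
      simp_rw [e4]
      simp
    linarith
  have hQc : ∀ x y, Q x y = Q 0 0 := fun x y => by rw [hQx, hQy]
  -- the integral
  have hI : ∫ p in Icc (0 : P3) top3, a 2 p * W p =
      Q 0 0 * ∫ x in (0 : ℝ)..(2 * π), ∫ y in (0 : ℝ)..π, W ![x, y, 0] := by
    rw [Abel_fubini (fun p => a 2 p * W p) ((hc 2).mul hWd.continuous)]
    have e1 : ∀ x y, ∫ z in (0 : ℝ)..(2 * π), a 2 ![x, y, z] * W ![x, y, z] =
        Q 0 0 * W ![x, y, 0] := by
      intro x y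
      simp_rw [hWz x y]
      rw [intervalIntegral.integral_mul_const]
      rw [← hQc x y]
    simp_rw [e1, intervalIntegral.integral_const_mul]
  have hJ : ∫ x in (0 : ℝ)..(2 * π), ∫ y in (0 : ℝ)..π, W ![x, y, 0] = Q 0 0 + Q 0 0 := by
    have e1 : ∫ x in (0 : ℝ)..(2 * π), ∫ y in (0 : ℝ)..π, W ![x, y, 0] =
        (∫ x in (0 : ℝ)..(2 * π), ∫ y in (0 : ℝ)..π, dd (a 1) 0 ![x, y, 0]) -
        ∫ x in (0 : ℝ)..(2 * π), ∫ y in (0 : ℝ)..π, dd (a 0) 1 ![x, y, 0] := by
      rw [← intervalIntegral.integral_sub]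
      · apply intervalIntegral.integral_congr
        intro x _
        simp only
        rw [← intervalIntegral.integral_sub]
        · exact (hpt1 _ (hddc 1 0) _ _ _ continuous_const continuous_id
            continuous_const).intervalIntegrable _ _
        · exact (hpt1 _ (hddc 0 1) _ _ _ continuous_const continuous_id
            continuous_const).intervalIntegrable _ _
      · apply Continuous.intervalIntegrable
        exact intervalIntegral.continuous_parametric_intervalIntegral_of_continuous'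
          (hpt _ (hddc 1 0) _ _ _ continuous_fst continuous_snd continuous_const) _ _
      · apply Continuous.intervalIntegrable
        exact intervalIntegral.continuous_parametric_intervalIntegral_of_continuous'
          (hpt _ (hddc 0 1) _ _ _ continuous_fst continuous_snd continuous_const) _ _
    have e2 : ∫ x in (0 : ℝ)..(2 * π), ∫ y in (0 : ℝ)..π, dd (a 1) 0 ![x, y, 0] = 0 := by
      rw [Abel_swap (fun x y => dd (a 1) 0 ![x, y, 0])
        (hpt _ (hddc 1 0) _ _ _ continuous_fst continuous_snd continuous_const)]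
      have e4 : ∀ y, ∫ x in (0 : ℝ)..(2 * π), dd (a 1) 0 ![x, y, 0] = 0 := by
        intro y
        rw [intervalIntegral.integral_eq_sub_of_hasDerivAt
          (f := fun x => a 1 ![x, y, 0]) (fun x _ => Abel_d0 (ha 1) x y 0)]
        · have := hper0 1 0 y 0
          rw [zero_add] at this
          rw [this, sub_self]
        · exact (hpt1 _ (hddc 1 0) _ _ _ continuous_id continuous_const
            continuous_const).intervalIntegrable _ _
      simp_rw [e4]
      simp
    have e3 : ∀ x, ∫ y in (0 : ℝ)..π, dd (a 0) 1 ![x, y, 0] =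
        -(a 2 ![x, π, 0] + a 2 ![x, 0, 0]) := by
      intro x
      rw [intervalIntegral.integral_eq_sub_of_hasDerivAt
        (f := fun y => a 0 ![x, y, 0]) (fun y _ => Abel_d1 (ha 0) x y 0)]
      · rw [zp ![x, π, 0] (by simp), z0 ![x, 0, 0] (by simp)]
        ring
      · exact (hpt1 _ (hddc 0 1) _ _ _ continuous_const continuous_id
          continuous_const).intervalIntegrable _ _
    have e5 : ∫ x in (0 : ℝ)..(2 * π), a 2 ![x, 0, 0] = Q 0 0 := by
      rw [hQ]
      apply intervalIntegral.integral_congr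
      intro x _
      exact c0 _ _ (by simp) (by simp) (by simp)
    have e6 : ∫ x in (0 : ℝ)..(2 * π), a 2 ![x, π, 0] = Q 0 0 := by
      have g1 : ∫ x in (0 : ℝ)..(2 * π), a 2 ![x, π, 0] =
          ∫ x in (0 : ℝ)..(2 * π), a 2 ![0, π, -x] := by
        apply intervalIntegral.integral_congr
        intro x _
        exact cp _ _ (by simp) (by simp) (by simp)
      rw [g1, intervalIntegral.integral_comp_neg (fun z => a 2 ![0, π, z]), ← hQc 0 π, hQ]
      have g2 : Function.Periodic (fun z => a 2 ![0, π, z]) (2 * π) := fun z => hper2 2 0 π z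
      have g3 := g2.intervalIntegral_add_eq (-(2 * π)) 0
      simpa using g3
    rw [e1, e2]
    simp_rw [e3]
    rw [intervalIntegral.integral_neg, intervalIntegral.integral_add, e5, e6]
    · ring
    · exact (hpt1 _ (hc 2) _ _ _ continuous_id continuous_const
          continuous_const).intervalIntegrable _ _
    · exact (hpt1 _ (hc 2) _ _ _ continuous_id continuous_const
          continuous_const).intervalIntegrable _ _
  show 0 ≤ ∫ p in Icc (0 : P3) top3, a 2 p * W p
  rw [hI, hJ]
  nlinarith [sq_nonneg (Q 0 0)]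

end Pool.Agent.Lib.SkewU
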