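import Pool.Agent.Lib.MP_794fdb_gt.U.Euler1

set_option autoImplicit false

open scoped ContDiff Matrix.Norms.Elementwise
open Real Set MeasureTheory Matrix

namespace Pool.Agent.Lib.SkewU

theorem euler2_line {X : Type} [NormedAddCommGroup X] [NormedSpace ℝ X] {g : P3 → X}
    (hg : Nice g) {p v : P3} (h : ∀ t : ℝ, S (p + t • v) = S p) : fderiv ℝ g p v = 0 := by
  have hd : DifferentiableAt ℝ g p := (hg.1.differentiable (by simp)).differentiableAt
  have h1 : HasDerivAt (fun t : ℝ => g (p + t • v)) (fderiv ℝ g p v) 0 :=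
    hd.hasFDerivAt.hasLineDerivAt v
  have h2 : (fun t : ℝ => g (p + t • v)) = fun _ => g p := by
    funext t
    exact hg.2 _ _ (h t)
  rw [h2] at h1
  exact h1.unique (hasDerivAt_const _ _)

theorem Nice.dd_zero {X : Type} [NormedAddCommGroup X] [NormedSpace ℝ X] {g : P3 → X}
    (hg : Nice g) {p : P3} (hp : p 1 = 0) : dd g 0 p = dd g 2 p := by
  have h := euler2_line hg (p := p) (v := Pi.single 0 1 - Pi.single 2 1) (fun t => by
    apply S_zero
    · simp [hp]
    · exact hp
    · simp
      ring)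
  rw [map_sub] at h
  exact sub_eq_zero.mp h

theorem Nice.dd_pi {X : Type} [NormedAddCommGroup X] [NormedSpace ℝ X] {g : P3 → X}
    (hg : Nice g) {p : P3} (hp : p 1 = π) : dd g 0 p = -dd g 2 p := by
  have h := euler2_line hg (p := p) (v := Pi.single 0 1 + Pi.single 2 1) (fun t => by
    apply S_pi
    · simp [hp]
    · exact hp
    · simp)
  rw [map_add] at h
  exact eq_neg_of_add_eq_zero_left h

theorem Nice.per {X : Type} [NormedAddCommGroup X] [NormedSpace ℝ X] {g : P3 → X}
    (hg : Nice g) (p : P3) (i j : Fin 3) :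
    g (p + Pi.single i (2 * π)) = g p ∧ dd g j (p + Pi.single i (2 * π)) = dd g j p := by
  refine ⟨hg.2 _ _ (S_per p i), ?_⟩
  have h : (fun q => g (q + Pi.single i (2 * π))) = g := by
    funext q
    exact hg.2 _ _ (S_per q i)
  unfold dd
  have h1 := fderiv_comp_add_right (𝕜 := ℝ) (f := g) (x := p) (Pi.single i (2 * π))
  rw [← h1, h]

end Pool.Agent.Lib.SkewU
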