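import Pool.Agent.Lib.MP_794fdb_gt.U.Calc2
import Pool.Agent.Lib.MP_794fdb_gt.U.Euler2

set_option autoImplicit false

open scoped ContDiff Matrix.Norms.Elementwise
open Real Set MeasureTheory Matrix

namespace Pool.Agent.Lib.SkewU

theorem bdry_dd_const {k : ℕ} {X : Type} [NormedAddCommGroup X] [NormedSpace ℝ X] (c : X)
    (i : Fin k) (p : Fin k → ℝ) : dd (fun _ => c) i p = 0 := by
  unfold dd
  rw [fderiv_fun_const]
  rfl

theorem bdry_dd_trace {k n : ℕ} {A : (Fin k → ℝ) → Mat n} {x : Fin k → ℝ}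
    (hA : DifferentiableAt ℝ A x) (D : Mat n) (i : Fin k) :
    dd (fun y => trace (D * A y)) i x = trace (D * dd A i x) := by
  have h1 : DifferentiableAt ℝ (fun _ : Fin k → ℝ => D) x := differentiableAt_const D
  have h2 : ContDiffAt ℝ ∞ (fun _ : Fin k → ℝ => D) x := contDiffAt_const
  have h3 : DifferentiableAt ℝ (fun y => D * A y) x := by
    have hl : (fun y => D * A y) = fun y =>
        (LinearMap.toContinuousLinearMap (LinearMap.mulLeft ℝ D : Mat n →ₗ[ℝ] Mat n)) (A y) := rfl
    rw [hl]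
    exact (ContinuousLinearMap.differentiableAt _).comp x hA
  rw [dd_trace h3, dd_mul h1 hA, bdry_dd_const, Matrix.zero_mul, zero_add]

theorem bdry {n : ℕ} (M : P3 → Mat n) (hM : Nice M) (hd : ∀ p, (M p).det ≠ 0) (D : Mat n) (τ : ℝ)
    (hτ : ∀ p, trace (D * om M 2 p) = τ) :
    ∫ p in Icc (0 : P3) top3, trace (D * (om M 0 p * om M 1 p - om M 1 p * om M 0 p)) =
      -(8 * π ^ 2 * τ) := by
  have hMc : ∀ p, ContDiffAt ℝ ∞ M p := fun p => hM.1.contDiffAt
  have hom : ∀ i p, ContDiffAt ℝ ∞ (om M i) p := fun i p => contDiffAt_om (hMc p) (hd p) i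
  have homd : ∀ i p, DifferentiableAt ℝ (om M i) p := fun i p =>
    (hom i p).differentiableAt (by simp)
  have hDom : ∀ i p, ContDiffAt ℝ ∞ (fun y => trace (D * om M i y)) p :=
    fun i p => contDiffAt_trace (contDiffAt_mul contDiffAt_const (hom i p))
  let f : Fin 3 → P3 → ℝ :=
    ![fun y => -trace (D * om M 1 y), fun y => trace (D * om M 0 y), fun _ => 0]
  have hf : ∀ i p, ContDiffAt ℝ ∞ (f i) p := by
    intro i p
    fin_cases i
    · exact (hDom 1 p).neg
    · exact hDom 0 p
    · exact contDiffAt_const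
  have hfd : ∀ i p, DifferentiableAt ℝ (f i) p := fun i p => (hf i p).differentiableAt (by simp)
  have hdiv : ∀ p, ∑ i, fderiv ℝ (f i) p (Pi.single i 1) =
      trace (D * (om M 0 p * om M 1 p - om M 1 p * om M 0 p)) := by
    intro p
    rw [Fin.sum_univ_three]
    have e0 : fderiv ℝ (f 0) p (Pi.single 0 1) = -trace (D * dd (om M 1) 0 p) := by
      have h1 : f 0 = fun y => -(trace (D * om M 1 y)) := rfl
      rw [h1, fderiv_fun_neg, _root_.neg_apply]
      congr 1
      exact bdry_dd_trace (homd 1 p) D 0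
    have e1 : fderiv ℝ (f 1) p (Pi.single 1 1) = trace (D * dd (om M 0) 1 p) :=
      bdry_dd_trace (homd 0 p) D 1
    have e2 : fderiv ℝ (f 2) p (Pi.single 2 1) = 0 := bdry_dd_const (0 : ℝ) 2 p
    rw [e0, e1, e2, ← flat (hMc p) (hd p) 1 0, Matrix.mul_sub, trace_sub]
    ring
  have hper : ∀ (i j : Fin 3) p, om M j (p + Pi.single i (2 * π)) = om M j p := by
    intro i j p
    obtain ⟨h1, h2⟩ := hM.per p i j
    unfold om
    rw [h1, h2]
  have hle : (0 : P3) ≤ top3 := by
    intro i
    have := Real.pi_pos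
    fin_cases i <;> simp [top3] <;> positivity
  have hcont : ∀ i, Continuous (f i) := fun i => continuous_iff_continuousAt.mpr
    fun p => (hf i p).continuousAt
  have hint : IntegrableOn (fun p => ∑ i, fderiv ℝ (f i) p (Pi.single i 1)) (Icc 0 top3) := by
    refine Continuous.integrableOn_Icc ?_
    refine continuous_finsetSum _ fun i _ => ?_
    have h1 : ContDiff ℝ ∞ (f i) := contDiff_iff_contDiffAt.mpr (hf i)
    exact (h1.continuous_fderiv (by simp)).clm_apply continuous_const
  have key := integral_divergence_of_hasFDerivAt_off_countable' (0 : P3) top3 hle f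
    (fun i p => fderiv ℝ (f i) p) ∅ countable_empty (fun i => (hcont i).continuousOn)
    (fun p _ i => (hfd i p).hasFDerivAt) hint
  simp only [hdiv] at key
  rw [key, Fin.sum_univ_three]
  have hins : ∀ (i : Fin 3) (c : ℝ) (x : Fin 2 → ℝ),
      (i.insertNth c x : P3) = i.insertNth 0 x + Pi.single i c := by
    intro i c x
    funext j
    rcases Fin.eq_self_or_eq_succAbove i j with rfl | ⟨k, rfl⟩
    · simp
    · simp
  have f0 : ∀ x : Fin 2 → ℝ, f 0 ((0 : Fin 3).insertNth (top3 0) x) =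
      f 0 ((0 : Fin 3).insertNth ((0 : P3) 0) x) := by
    intro x
    have h1 : (top3 0) = 2 * π := rfl
    rw [hins 0 (top3 0) x, h1]
    change -trace (D * om M 1 _) = -trace (D * om M 1 _)
    rw [hper]
    rfl
  have f1 : ∀ x : Fin 2 → ℝ, f 1 ((1 : Fin 3).insertNth (top3 1) x) = -τ := by
    intro x
    have h1 : ((1 : Fin 3).insertNth (top3 1) x : P3) 1 = π := by
      rw [Fin.insertNth_apply_same]; rfl
    change trace (D * om M 0 _) = -τ
    have h2 : om M 0 ((1 : Fin 3).insertNth (top3 1) x) =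
        -om M 2 ((1 : Fin 3).insertNth (top3 1) x) := by
      unfold om
      rw [hM.dd_pi h1, Matrix.mul_neg]
    rw [h2, Matrix.mul_neg, trace_neg, hτ]
  have f1' : ∀ x : Fin 2 → ℝ, f 1 ((1 : Fin 3).insertNth ((0 : P3) 1) x) = τ := by
    intro x
    have h1 : ((1 : Fin 3).insertNth ((0 : P3) 1) x : P3) 1 = 0 := by
      rw [Fin.insertNth_apply_same]; rfl
    change trace (D * om M 0 _) = τ
    have h2 : om M 0 ((1 : Fin 3).insertNth ((0 : P3) 1) x) =
        om M 2 ((1 : Fin 3).insertNth ((0 : P3) 1) x) := by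
      unfold om
      rw [hM.dd_zero h1]
    rw [h2, hτ]
  have hvol : (volume.real (Icc ((0 : P3) ∘ (1 : Fin 3).succAbove)
      (top3 ∘ (1 : Fin 3).succAbove))) = (2 * π) * (2 * π) := by
    have hle2 : ((0 : P3) ∘ (1 : Fin 3).succAbove) ≤ (top3 ∘ (1 : Fin 3).succAbove) :=
      fun i => hle _
    unfold Measure.real
    rw [Real.volume_Icc_pi_toReal hle2, Fin.prod_univ_two]
    simp [top3, Fin.succAbove]
  simp only [f0, f1, f1', sub_self, setIntegral_const, hvol]
  simp only [f, Matrix.cons_val, smul_eq_mul]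
  simp
  ring

/-- Evaluation for equivariant matrices. -/
theorem CS_equi {n : ℕ} (M : P3 → Mat n) (hM : Nice M) (hd : ∀ p, (M p).det ≠ 0) (D : Mat n)
    (hD : ∀ p, dd M 2 p = M p * D) : CS M = -(8 * π ^ 2 * trace (D * D)) := by
  have h2 : ∀ p, om M 2 p = D := by
    intro p
    unfold om
    rw [hD, ← Matrix.mul_assoc, Matrix.nonsing_inv_mul _ (isUnit_iff_ne_zero.mpr (hd p)),
      Matrix.one_mul]
  rw [← bdry M hM hd D (trace (D * D)) (fun p => by rw [h2])]
  unfold CS
  congr 1
  funext p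
  unfold psi
  rw [h2, Matrix.mul_sub, Matrix.mul_sub, trace_sub, trace_sub, ← Matrix.mul_assoc,
    trace_mul_comm _ D, Matrix.trace_mul_comm (om M 0 p) (D * om M 1 p), Matrix.mul_assoc D]

/-- Multiplication by a constant matrix. -/
theorem CS_mul_const {n : ℕ} (M : P3 → Mat n) (hM : ContDiff ℝ ∞ M) (C : Mat n) (hC : C.det ≠ 0) :
    CS (fun p => M p * C) = CS M := by
  have hM' : ∀ p, DifferentiableAt ℝ M p := fun p => (hM.differentiable (by simp)) p
  have h1 : ∀ i p, om (fun p => M p * C) i p = C⁻¹ * om M i p * C := by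
    intro i p
    unfold om
    rw [dd_mul (hM' p) (differentiableAt_const C), bdry_dd_const, Matrix.mul_zero, add_zero,
      Matrix.mul_inv_rev]
    simp only [Matrix.mul_assoc]
  have hCC : C * C⁻¹ = 1 := Matrix.mul_nonsing_inv _ (isUnit_iff_ne_zero.mpr hC)
  have h3 : ∀ A B : Mat n, C⁻¹ * A * C * (C⁻¹ * B * C) = C⁻¹ * (A * B) * C := by
    intro A B
    calc C⁻¹ * A * C * (C⁻¹ * B * C) = C⁻¹ * A * (C * C⁻¹) * B * C := by
          simp only [Matrix.mul_assoc]
      _ = _ := by rw [hCC, Matrix.mul_one]; simp only [Matrix.mul_assoc]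
  unfold CS
  congr 1
  funext p
  unfold psi
  simp only [h1, h3]
  rw [← Matrix.sub_mul, ← Matrix.mul_sub, h3, Matrix.mul_assoc, trace_mul_comm, Matrix.mul_assoc,
    hCC, Matrix.mul_one]

end Pool.Agent.Lib.SkewU
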