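import Pool.Agent.Lib.MP_794fdb_gt.U.Calc1
import Pool.Agent.Lib.MP_794fdb_gt.U.Euler1

set_option autoImplicit false

open scoped ContDiff Matrix.Norms.Elementwise
open Real Set MeasureTheory Matrix

namespace Pool.Agent.Lib.SkewU

section FrSmAux

variable {E : Type} [NormedAddCommGroup E] [NormedSpace ℝ E]

theorem frSm_d1 {Φ : V3 → V6} (hΦ : SkewData Φ) {y : V3} (hy : y ≠ 0) :
    ContDiffAt ℝ ∞ (fderiv ℝ Φ) y :=
  (hΦ.smooth y hy).fderiv_right (by exact_mod_cast le_rfl)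

theorem frSm_d2 {Φ : V3 → V6} (hΦ : SkewData Φ) {y : V3} (hy : y ≠ 0) :
    ContDiffAt ℝ ∞ (fderiv ℝ (fderiv ℝ Φ)) y :=
  (frSm_d1 hΦ hy).fderiv_right (by exact_mod_cast le_rfl)

theorem frSm_1 {Φ : V3 → V6} (hΦ : SkewData Φ) {g h : E → V3} {x : E}
    (hg : ContDiffAt ℝ ∞ g x) (hh : ContDiffAt ℝ ∞ h x) (h0 : g x ≠ 0) :
    ContDiffAt ℝ ∞ (fun y => fderiv ℝ Φ (g y) (h y)) x :=
  ((frSm_d1 hΦ h0).comp x hg).clm_apply hh

theorem frSm_D2_eq {Φ : V3 → V6} (hΦ : SkewData Φ) {y : V3} (hy : y ≠ 0) (v w : V3) :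
    D2 Φ y v w = fderiv ℝ (fderiv ℝ Φ) y v w := by
  unfold D2
  have h1 : DifferentiableAt ℝ (fderiv ℝ Φ) y :=
    (frSm_d1 hΦ hy).differentiableAt (by simp)
  rw [fderiv_clm_apply h1 (differentiableAt_const w)]
  simp

theorem frSm_2 {Φ : V3 → V6} (hΦ : SkewData Φ) {g h k : E → V3} {x : E}
    (hg : ContDiffAt ℝ ∞ g x) (hh : ContDiffAt ℝ ∞ h x) (hk : ContDiffAt ℝ ∞ k x)
    (h0 : g x ≠ 0) :
    ContDiffAt ℝ ∞ (fun y => D2 Φ (g y) (h y) (k y)) x := by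
  have h1 : ContDiffAt ℝ ∞ (fun y => fderiv ℝ (fderiv ℝ Φ) (g y) (h y) (k y)) x :=
    (((frSm_d2 hΦ h0).comp x hg).clm_apply hh).clm_apply hk
  apply h1.congr_of_eventuallyEq
  have h2 : ∀ᶠ y in nhds x, g y ≠ 0 := hg.continuousAt.eventually_ne h0
  filter_upwards [h2] with y hy
  exact frSm_D2_eq hΦ hy _ _

theorem frSm_unit {F : Fin 3 → V3} (hF : ON F) (t : ℝ) : pt t F ⬝ᵥ pt t F = 1 := by
  unfold pt
  simp only [add_dotProduct, dotProduct_add, smul_dotProduct, dotProduct_smul, smul_eq_mul]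
  rw [hF 2 2, hF 2 0, hF 0 2, hF 0 0]
  simp only [if_true]
  rw [if_neg (by decide), if_neg (by decide)]
  have := Real.sin_sq_add_cos_sq t
  nlinarith

theorem frSm_ne {x : V3} (hx : x ⬝ᵥ x = 1) : x ≠ 0 := by
  rintro rfl
  simp at hx

theorem frSm_fr {Φ : V3 → V6} (hΦ : SkewData Φ) {τ : E → ℝ} {F : E → Fin 3 → V3} {x : E}
    (hτ : ContDiffAt ℝ ∞ τ x) (hF : ContDiffAt ℝ ∞ F x)
    (h1 : pt (τ x) (F x) ≠ 0) (h2 : pt (-(τ x)) (F x) ≠ 0) :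
    ContDiffAt ℝ ∞ (fun y => fr Φ (τ y) (F y)) x := by
  have hFi : ∀ i, ContDiffAt ℝ ∞ (fun y => F y i) x := fun i => contDiffAt_pi.mp hF i
  have hcos : ContDiffAt ℝ ∞ (fun y => cos (τ y)) x := hτ.cos
  have hsin : ContDiffAt ℝ ∞ (fun y => sin (τ y)) x := hτ.sin
  have hcosn : ContDiffAt ℝ ∞ (fun y => cos (-(τ y))) x := hτ.neg.cos
  have hsinn : ContDiffAt ℝ ∞ (fun y => sin (-(τ y))) x := hτ.neg.sin
  have hp : ContDiffAt ℝ ∞ (fun y => pt (τ y) (F y)) x :=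
    (hcos.smul (hFi 2)).add (hsin.smul (hFi 0))
  have hpn : ContDiffAt ℝ ∞ (fun y => pt (-(τ y)) (F y)) x :=
    (hcosn.smul (hFi 2)).add (hsinn.smul (hFi 0))
  have hv : ContDiffAt ℝ ∞ (fun y => vt (τ y) (F y)) x :=
    (hsin.neg.smul (hFi 2)).add (hcos.smul (hFi 0))
  have hvn : ContDiffAt ℝ ∞ (fun y => vt (-(τ y)) (F y)) x :=
    (hsinn.neg.smul (hFi 2)).add (hcosn.smul (hFi 0))
  rw [contDiffAt_pi]
  intro j
  fin_cases j
  · exact frSm_1 hΦ hp hv h1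
  · exact frSm_1 hΦ hp (hFi 1) h1
  · exact frSm_1 hΦ hpn hvn h2
  · exact frSm_1 hΦ hpn (hFi 1) h2

theorem frSm_S (s : ℝ) (p : P3) : ContDiffAt ℝ ∞ (fun x : ℝ × P3 => S x.2) (s, p) :=
  (S_contDiff.comp contDiff_snd).contDiffAt

theorem frSm_rot (s : ℝ) (p : P3) : ContDiffAt ℝ ∞ (fun x : ℝ × P3 => rot x.1 (S x.2)) (s, p) := by
  have hS := frSm_S s p
  have hi : ∀ i, ContDiffAt ℝ ∞ (fun x : ℝ × P3 => S x.2 i) (s, p) :=
    fun i => contDiffAt_pi.mp hS i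
  have hs : ContDiffAt ℝ ∞ (fun x : ℝ × P3 => x.1) (s, p) := contDiffAt_fst
  have hcos : ContDiffAt ℝ ∞ (fun x : ℝ × P3 => cos x.1) (s, p) := hs.cos
  have hsin : ContDiffAt ℝ ∞ (fun x : ℝ × P3 => sin x.1) (s, p) := hs.sin
  rw [contDiffAt_pi]
  intro j
  fin_cases j
  · exact (hcos.smul (hi 0)).add (hsin.smul (hi 2))
  · exact (((hsin.mul hsin).smul (hi 0)).add (hcos.smul (hi 1))).sub
      ((hcos.mul hsin).smul (hi 2))
  · exact ((((hcos.mul hsin).smul (hi 0)).neg).add (hsin.smul (hi 1))).add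
      ((hcos.mul hcos).smul (hi 2))

theorem frSm_rot_unit (s : ℝ) (p : P3) : rot s (S p) 0 ⬝ᵥ rot s (S p) 0 = 1 := by
  have hF := S_ON p
  show (cos s • S p 0 + sin s • S p 2) ⬝ᵥ (cos s • S p 0 + sin s • S p 2) = 1
  simp only [add_dotProduct, dotProduct_add, smul_dotProduct, dotProduct_smul, smul_eq_mul]
  rw [hF 2 2, hF 2 0, hF 0 2, hF 0 0]
  simp only [if_true]
  rw [if_neg (by decide), if_neg (by decide)]
  have := Real.sin_sq_add_cos_sq s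
  nlinarith

theorem frSm_pt_pi (F : Fin 3 → V3) : pt (π / 2) F = F 0 := by
  simp [pt]

theorem frSm_pt_pi_neg (F : Fin 3 → V3) : pt (-(π / 2)) F = -(F 0) := by
  simp [pt]

/-- The generalised cross product. -/
noncomputable def frSm_nv (a : Fin 4 → V6) (c : V6) : V6 :=
  fun i => (toM (app a ![c, Pi.single i 1])).det

theorem frSm_cpl {a : E → Fin 4 → V6} {c : E → V6} {x : E}
    (ha : ∀ i, ContDiffAt ℝ ∞ (fun y => a y i) x) (hc : ContDiffAt ℝ ∞ c x) :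
    ContDiffAt ℝ ∞ (fun y => frSm_nv (a y) (c y)) x := by
  rw [contDiffAt_pi]
  intro i
  unfold frSm_nv
  apply contDiffAt_det
  apply contDiffAt_toM
  rw [contDiffAt_pi]
  intro l
  fin_cases l
  · exact ha 0
  · exact ha 1
  · exact ha 2
  · exact ha 3
  · exact hc
  · exact contDiffAt_const

end FrSmAux

theorem fr_fam {Φ : V3 → V6} (hΦ : SkewData Φ) (s0 s1 : ℝ) (τ : ℝ → ℝ) (hτ : ContDiff ℝ ∞ τ) :
    NiceFam s0 s1 (fun s p => fr Φ (τ s) (S p)) := by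
  refine ⟨fun s _ p => ?_, fun s _ p q h => by simp only [h]⟩
  exact frSm_fr hΦ (τ := fun x : ℝ × P3 => τ x.1) (F := fun x : ℝ × P3 => S x.2)
    (hτ.comp contDiff_fst).contDiffAt (frSm_S s p)
    (frSm_ne (frSm_unit (S_ON p) _)) (frSm_ne (frSm_unit (S_ON p) _))

theorem frSm_fr_rot {Φ : V3 → V6} (hΦ : SkewData Φ) (s : ℝ) (p : P3) :
    ContDiffAt ℝ ∞ (fun x : ℝ × P3 => fr Φ (π / 2) (rot x.1 (S x.2))) (s, p) := by
  have h0 : rot s (S p) 0 ≠ 0 := frSm_ne (frSm_rot_unit s p)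
  refine frSm_fr hΦ (τ := fun _ : ℝ × P3 => π / 2) (F := fun x : ℝ × P3 => rot x.1 (S x.2))
    contDiffAt_const (frSm_rot s p) ?_ ?_
  · rw [frSm_pt_pi]; exact h0
  · rw [frSm_pt_pi_neg]; exact neg_ne_zero.mpr h0

theorem fr_rot_fam {Φ : V3 → V6} (hΦ : SkewData Φ) (s0 s1 : ℝ) :
    NiceFam s0 s1 (fun s p => fr Φ (π / 2) (rot s (S p))) :=
  ⟨fun s _ p => frSm_fr_rot hΦ s p, fun s _ p q h => by simp only [h]⟩

theorem cpl_rot_fam {Φ : V3 → V6} (hΦ : SkewData Φ) (s0 s1 : ℝ) :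
    NiceFam s0 s1 (fun s p => cpl Φ (rot s (S p))) := by
  refine ⟨fun s _ p => ?_, fun s _ p q h => by simp only [h]⟩
  have h0 : rot s (S p) 0 ≠ 0 := frSm_ne (frSm_rot_unit s p)
  have hr := frSm_rot s p
  have hr0 : ContDiffAt ℝ ∞ (fun x : ℝ × P3 => rot x.1 (S x.2) 0) (s, p) :=
    contDiffAt_pi.mp hr 0
  have hchord : ContDiffAt ℝ ∞
      (fun x : ℝ × P3 => Φ (rot x.1 (S x.2) 0) - Φ (-(rot x.1 (S x.2) 0))) (s, p) := by
    apply ContDiffAt.sub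
    · exact (hΦ.smooth _ h0).comp (s, p) hr0
    · exact ContDiffAt.comp (s, p) (g := Φ) (f := fun x : ℝ × P3 => -(rot x.1 (S x.2) 0))
        (hΦ.smooth _ (neg_ne_zero.mpr h0)) hr0.neg
  have hfr := frSm_fr_rot hΦ s p
  have hfri : ∀ i, ContDiffAt ℝ ∞ (fun x : ℝ × P3 => fr Φ (π / 2) (rot x.1 (S x.2)) i) (s, p) :=
    fun i => contDiffAt_pi.mp hfr i
  have e : (fun x : ℝ × P3 => cpl Φ (rot x.1 (S x.2))) = fun x : ℝ × P3 =>
      ![Φ (rot x.1 (S x.2) 0) - Φ (-(rot x.1 (S x.2) 0)),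
        frSm_nv (fr Φ (π / 2) (rot x.1 (S x.2)))
          (Φ (rot x.1 (S x.2) 0) - Φ (-(rot x.1 (S x.2) 0)))] := rfl
  show ContDiffAt ℝ ∞ (fun x : ℝ × P3 => cpl Φ (rot x.1 (S x.2))) (s, p)
  rw [e, contDiffAt_pi]
  intro j
  fin_cases j
  · exact hchord
  · exact frSm_cpl hfri hchord

theorem vfr_fam {Φ : V3 → V6} (hΦ : SkewData Φ) (s0 s1 : ℝ) :
    NiceFam s0 s1 (fun s p => vfr Φ s (S p)) := by
  refine ⟨fun s _ p => ?_, fun s _ p q h => by simp only [h]⟩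
  have hS := frSm_S s p
  have hi : ∀ i, ContDiffAt ℝ ∞ (fun x : ℝ × P3 => S x.2 i) (s, p) :=
    fun i => contDiffAt_pi.mp hS i
  have h0 : S p 2 ≠ 0 := frSm_ne (by rw [S_ON p 2 2]; simp)
  have hs : ContDiffAt ℝ ∞ (fun x : ℝ × P3 => x.1 / 2) (s, p) :=
    contDiffAt_fst.div_const 2
  show ContDiffAt ℝ ∞ (fun x : ℝ × P3 => vfr Φ x.1 (S x.2)) (s, p)
  rw [contDiffAt_pi]
  intro j
  fin_cases j
  · exact frSm_1 hΦ (hi 2) (hi 0) h0
  · exact frSm_1 hΦ (hi 2) (hi 1) h0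
  · exact (frSm_2 hΦ (hi 2) (hi 0) (hi 0) h0).sub
      (hs.smul ((frSm_2 hΦ (hi 2) (hi 0) (hi 0) h0).add (frSm_2 hΦ (hi 2) (hi 1) (hi 1) h0)))
  · exact frSm_2 hΦ (hi 2) (hi 0) (hi 1) h0

theorem ufr_nice {Φ : V3 → V6} (hΦ : SkewData Φ) {t : ℝ} (_ht : t ≠ 0) :
    Nice (fun p => ufr Φ t (S p)) := by
  refine ⟨?_, fun p q h => by simp only [h]⟩
  have h1 : ContDiff ℝ ∞ (fun p => fr Φ t (S p)) := by
    rw [contDiff_iff_contDiffAt]
    intro p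
    exact frSm_fr hΦ (τ := fun _ : P3 => t) (F := fun x : P3 => S x) contDiffAt_const
      S_contDiff.contDiffAt (frSm_ne (frSm_unit (S_ON p) _)) (frSm_ne (frSm_unit (S_ON p) _))
  have hi : ∀ i, ContDiff ℝ ∞ (fun p => fr Φ t (S p) i) := fun i => contDiff_pi.mp h1 i
  show ContDiff ℝ ∞ (fun p => ufr Φ t (S p))
  rw [contDiff_pi]
  intro j
  fin_cases j
  · exact ((hi 0).add (hi 2)).const_smul _
  · exact ((hi 1).add (hi 3)).const_smul _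
  · exact ((hi 0).sub (hi 2)).const_smul _
  · exact ((hi 1).sub (hi 3)).const_smul _

end Pool.Agent.Lib.SkewU
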