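import Pool.Agent.Lib.MP_794fdb_gt.U.Defs

set_option autoImplicit false

open scoped ContDiff Matrix.Norms.Elementwise
open Real Set MeasureTheory Matrix

namespace Pool.Agent.Lib.SkewU

theorem indep1_ne_zero {x : V3} (hx : x ⬝ᵥ x = 1) : x ≠ 0 := by
  rintro rfl
  simp at hx

theorem indep1_neg_ne {x : V3} (hx : x ⬝ᵥ x = 1) : x ≠ -x := by
  intro h
  exact indep1_ne_zero hx (self_eq_neg.1 h)

theorem SkewData.fderiv_ne {Φ : V3 → V6} (hΦ : SkewData Φ) {x v : V3} (hx : x ⬝ᵥ x = 1)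
    (hv : x ⬝ᵥ v = 0) (h : fderiv ℝ Φ x v = 0) : v = 0 := by
  have hx' : (-x) ⬝ᵥ (-x) = 1 := by simpa using hx
  have := hΦ.skew x (-x) hx hx' (indep1_neg_ne hx) 0 v 0 hv (by simp) (by simp [h])
  exact this.2.1

theorem SkewData.fderiv_self {Φ : V3 → V6} (hΦ : SkewData Φ) {x : V3} (hx : x ⬝ᵥ x = 1) :
    fderiv ℝ Φ x x = 0 := by
  have hx0 := indep1_ne_zero hx
  have hd : DifferentiableAt ℝ Φ x := (hΦ.smooth x hx0).differentiableAt (by simp)
  have h1 : HasDerivAt (fun s : ℝ => Φ ((1 + s) • x)) (fderiv ℝ Φ x x) 0 := by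
    have h2 : HasDerivAt (fun s : ℝ => (1 + s) • x) x 0 := by
      have := ((hasDerivAt_id (0 : ℝ)).const_add 1).smul_const x
      simpa using this
    have h3 : HasFDerivAt Φ (fderiv ℝ Φ x) ((1 + (0 : ℝ)) • x) := by
      simpa using hd.hasFDerivAt
    exact h3.comp_hasDerivAt (0 : ℝ) h2
  have h4 : HasDerivAt (fun s : ℝ => Φ ((1 + s) • x)) 0 0 := by
    have h5 : (fun s : ℝ => Φ ((1 + s) • x)) =ᶠ[nhds 0] fun _ => Φ x := by
      have : ∀ᶠ s : ℝ in nhds 0, -1 < s := lt_mem_nhds (by norm_num)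
      filter_upwards [this] with s hs
      exact hΦ.homog x hx0 (1 + s) (by linarith)
    exact (hasDerivAt_const (0 : ℝ) (Φ x)).congr_of_eventuallyEq h5
  exact h1.unique h4

theorem indep1_vals {F : Fin 3 → V3} (hF : ON F) :
    (F 0 ⬝ᵥ F 0 = 1 ∧ F 1 ⬝ᵥ F 1 = 1 ∧ F 2 ⬝ᵥ F 2 = 1) ∧
    (F 0 ⬝ᵥ F 1 = 0 ∧ F 1 ⬝ᵥ F 0 = 0 ∧ F 0 ⬝ᵥ F 2 = 0 ∧ F 2 ⬝ᵥ F 0 = 0 ∧
      F 1 ⬝ᵥ F 2 = 0 ∧ F 2 ⬝ᵥ F 1 = 0) := by
  refine ⟨⟨?_, ?_, ?_⟩, ?_, ?_, ?_, ?_, ?_, ?_⟩ <;> (rw [hF]; simp)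

theorem fr_indep {Φ : V3 → V6} (hΦ : SkewData Φ) {F : Fin 3 → V3} (hF : ON F) {t : ℝ}
    (h0 : 0 < t) (h1 : t ≤ π / 2) : LinearIndependent ℝ (fr Φ t F) := by
  obtain ⟨⟨a00, a11, a22⟩, a01, a10, a02, a20, a12, a21⟩ := indep1_vals hF
  have hsin : 0 < sin t := sin_pos_of_pos_of_lt_pi h0 (by linarith [pi_pos])
  have hcs := sin_sq_add_cos_sq t
  rw [Fintype.linearIndependent_iff]
  intro g hg
  have hx : pt t F ⬝ᵥ pt t F = 1 := by
    simp only [pt, add_dotProduct, dotProduct_add, smul_dotProduct, dotProduct_smul, a00, a22, a02,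
      a20, smul_eq_mul]
    linarith
  have hy : pt (-t) F ⬝ᵥ pt (-t) F = 1 := by
    simp only [pt, add_dotProduct, dotProduct_add, smul_dotProduct, dotProduct_smul, a00, a22, a02,
      a20, smul_eq_mul, sin_neg, cos_neg]
    linarith
  have hne : pt t F ≠ pt (-t) F := by
    intro h
    have h2 := congrArg (fun u => u ⬝ᵥ F 0) h
    simp only [pt, add_dotProduct, smul_dotProduct, a00, a20, smul_eq_mul, sin_neg, cos_neg] at h2
    linarith
  have hv : pt t F ⬝ᵥ (g 0 • vt t F + g 1 • F 1) = 0 := by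
    simp only [pt, vt, add_dotProduct, dotProduct_add, smul_dotProduct, dotProduct_smul, a00, a22,
      a02, a20, a01, a21, smul_eq_mul]
    ring
  have hw : pt (-t) F ⬝ᵥ (g 2 • vt (-t) F + g 3 • F 1) = 0 := by
    simp only [pt, vt, add_dotProduct, dotProduct_add, smul_dotProduct, dotProduct_smul, a00, a22,
      a02, a20, a01, a21, smul_eq_mul]
    ring
  have key := hΦ.skew (pt t F) (pt (-t) F) hx hy hne 0 _ _ hv hw (by
    rw [← hg]
    simp only [Fin.sum_univ_four, fr, map_add, map_smul]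
    simp [add_assoc])
  have e0 := congrArg (fun u => u ⬝ᵥ vt t F) key.2.1
  have e1 := congrArg (fun u => u ⬝ᵥ F 1) key.2.1
  have e2 := congrArg (fun u => u ⬝ᵥ vt (-t) F) key.2.2
  have e3 := congrArg (fun u => u ⬝ᵥ F 1) key.2.2
  simp only [vt, add_dotProduct, dotProduct_add, smul_dotProduct, dotProduct_smul, a00, a22, a11,
      a02, a20, a01, a21, a10, a12, smul_eq_mul, sin_neg, cos_neg, zero_dotProduct] at e0 e1 e2 e3
  have f0 : g 0 = 0 := by linear_combination e0 - g 0 * hcs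
  have f1 : g 1 = 0 := by linear_combination e1
  have f2 : g 2 = 0 := by linear_combination e2 - g 2 * hcs
  have f3 : g 3 = 0 := by linear_combination e3
  intro i
  fin_cases i
  · exact f0
  · exact f1
  · exact f2
  · exact f3

theorem ON_rot {F : Fin 3 → V3} (hF : ON F) (t : ℝ) : ON (rot t F) := by
  obtain ⟨⟨a00, a11, a22⟩, a01, a10, a02, a20, a12, a21⟩ := indep1_vals hF
  have hcs := sin_sq_add_cos_sq t
  have hs : sin t ^ 2 = 1 - cos t ^ 2 := by linarith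
  intro i j
  fin_cases i <;> fin_cases j <;>
  · simp [rot, add_dotProduct, dotProduct_add, sub_dotProduct, dotProduct_sub, smul_dotProduct,
      dotProduct_smul, neg_dotProduct, dotProduct_neg, a00, a22, a11, a02, a20, a01, a21, a10, a12,
      smul_eq_mul]
    try ring_nf
    try first
      | nlinarith [hcs]
      | linear_combination (-(cos t * sin t)) * hcs

end Pool.Agent.Lib.SkewU
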