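import Pool.Agent.Lib.MP_794fdb_gt.U.Basic
import Pool.Agent.Lib.MP_794fdb_gt.U.Bdry
import Pool.Agent.Lib.MP_794fdb_gt.U.Indep1
import Pool.Agent.Lib.MP_794fdb_gt.U.FrSm

set_option autoImplicit false

open scoped ContDiff Matrix.Norms.Elementwise
open Real Set MeasureTheory Matrix

namespace Pool.Agent.Lib.SkewU

theorem anti_fr (Φ : V3 → V6) (F : Fin 3 → V3) : fr Φ (π / 2) F =
    ![fderiv ℝ Φ (F 0) (-(F 2)), fderiv ℝ Φ (F 0) (F 1),
      fderiv ℝ Φ (-(F 0)) (F 2), fderiv ℝ Φ (-(F 0)) (F 1)] := by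
  unfold fr
  have h1 : pt (π / 2) F = F 0 := by simp [pt]
  have h2 : vt (π / 2) F = -(F 2) := by simp [vt]
  have h3 : pt (-(π / 2)) F = -(F 0) := by simp [pt]
  have h4 : vt (-(π / 2)) F = F 2 := by simp [vt]
  rw [h1, h2, h3, h4]

theorem anti_rot (F : Fin 3 → V3) : rot (π / 2) F = ![F 2, F 0, F 1] := by
  unfold rot
  simp

theorem anti_app (a : Fin 4 → V6) (c z : V6) :
    toM (app a ![c, z]) = (toM (app a ![c, 0])).updateCol 5 z := by
  ext i j
  fin_cases j <;> simp [toM, app]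

/-- the determinant is linear in the last column -/
theorem anti_lin (a : Fin 4 → V6) (c y : V6) :
    (toM (app a ![c, y])).det = ∑ i, y i * (toM (app a ![c, Pi.single i 1])).det := by
  have h : ∀ z : V6, (toM (app a ![c, z])).det = cramer (toM (app a ![c, 0])) z 5 := by
    intro z
    rw [anti_app, cramer_apply]
  simp only [h]
  conv_lhs => rw [pi_eq_sum_univ' y]
  rw [map_sum, Finset.sum_apply]
  refine Finset.sum_congr rfl fun i _ => ?_
  rw [map_smul, Pi.smul_apply, smul_eq_mul]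

/-- five independent vectors -/
theorem anti_indep {Φ : V3 → V6} (hΦ : SkewData Φ) {F : Fin 3 → V3} (hF : ON F) :
    LinearIndependent ℝ ![fr Φ (π / 2) F 0, fr Φ (π / 2) F 1, fr Φ (π / 2) F 2, fr Φ (π / 2) F 3,
      Φ (F 0) - Φ (-(F 0))] := by
  rw [Fintype.linearIndependent_iff]
  intro g hg
  rw [Fin.sum_univ_five] at hg
  simp only [anti_fr, Matrix.cons_val_zero, Matrix.cons_val_one, Matrix.cons_val] at hg
  have h00 : F 0 ⬝ᵥ F 0 = 1 := by simpa using hF 0 0
  have h01 : F 0 ⬝ᵥ F 1 = 0 := by simpa using hF 0 1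
  have h02 : F 0 ⬝ᵥ F 2 = 0 := by simpa using hF 0 2
  have h11 : F 1 ⬝ᵥ F 1 = 1 := by simpa using hF 1 1
  have h12 : F 1 ⬝ᵥ F 2 = 0 := by simpa using hF 1 2
  have h21 : F 2 ⬝ᵥ F 1 = 0 := by simpa using hF 2 1
  have h22 : F 2 ⬝ᵥ F 2 = 1 := by simpa using hF 2 2
  have hne : F 0 ≠ -(F 0) := by
    intro h
    have h2 : F 0 = 0 := self_eq_neg.1 h
    rw [h2] at h00
    simp at h00
  have key := hΦ.skew (F 0) (-(F 0)) h00 (by simpa using h00) hne (g 4)
    (g 0 • (-(F 2)) + g 1 • F 1) (g 2 • F 2 + g 3 • F 1)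
    (by simp [dotProduct_add, dotProduct_smul, h01, h02])
    (by simp [dotProduct_add, dotProduct_smul, h01, h02])
    (by
      rw [map_add, map_add, map_smul, map_smul, map_smul, map_smul, ← hg]
      module)
  obtain ⟨k4, kv, kw⟩ := key
  have a0 : g 0 = 0 := by
    have := congrArg (fun v => F 2 ⬝ᵥ v) kv
    simpa [dotProduct_add, dotProduct_smul, h21, h22] using this
  have a1 : g 1 = 0 := by
    have := congrArg (fun v => F 1 ⬝ᵥ v) kv
    simpa [dotProduct_add, dotProduct_smul, h11, h12] using this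
  have a2 : g 2 = 0 := by
    have := congrArg (fun v => F 2 ⬝ᵥ v) kw
    simpa [dotProduct_add, dotProduct_smul, h21, h22] using this
  have a3 : g 3 = 0 := by
    have := congrArg (fun v => F 1 ⬝ᵥ v) kw
    simpa [dotProduct_add, dotProduct_smul, h11, h12] using this
  intro i
  fin_cases i
  · exact a0
  · exact a1
  · exact a2
  · exact a3
  · exact k4

theorem cpl_det {Φ : V3 → V6} (hΦ : SkewData Φ) {F : Fin 3 → V3} (hF : ON F) :
    (toM (app (fr Φ (π / 2) F) (cpl Φ F))).det ≠ 0 := by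
  intro h0
  obtain ⟨y, hy⟩ := exists_linearIndependent_snoc_of_lt_finrank (anti_indep hΦ hF)
    (by rw [Module.finrank_fin_fun]; norm_num)
  have hcol : (Fin.snoc ![fr Φ (π / 2) F 0, fr Φ (π / 2) F 1, fr Φ (π / 2) F 2, fr Φ (π / 2) F 3,
      Φ (F 0) - Φ (-(F 0))] y : Fin 6 → V6) =
      (toM (app (fr Φ (π / 2) F) ![Φ (F 0) - Φ (-(F 0)), y])).col := by
    funext j
    fin_cases j <;> rfl
  rw [hcol, linearIndependent_cols_iff_isUnit, isUnit_iff_isUnit_det] at hy
  apply hy.ne_zero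
  unfold cpl at h0
  rw [anti_lin] at h0
  have h1 : ∀ i, (toM (app (fr Φ (π / 2) F) ![Φ (F 0) - Φ (-(F 0)), Pi.single i 1])).det = 0 := by
    intro i
    have h2 := (Finset.sum_eq_zero_iff_of_nonneg (fun i _ => mul_self_nonneg
      ((toM (app (fr Φ (π / 2) F) ![Φ (F 0) - Φ (-(F 0)), Pi.single i 1])).det))).1 h0 i
      (Finset.mem_univ i)
    exact mul_self_eq_zero.1 h2
  rw [anti_lin]
  simp only [h1, mul_zero, Finset.sum_const_zero]

/-- the infinitesimal rotation -/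
def antiD : Mat 6 :=
  !![0, -1, 0, 0, 0, 0; 1, 0, 0, 0, 0, 0; 0, 0, 0, 1, 0, 0; 0, 0, -1, 0, 0, 0;
    0, 0, 0, 0, 0, 0; 0, 0, 0, 0, 0, 0]

/-- the first projection -/
def antiP : Mat 6 :=
  !![1, 0, 0, 0, 0, 0; 0, 1, 0, 0, 0, 0; 0, 0, 1, 0, 0, 0; 0, 0, 0, 1, 0, 0;
    0, 0, 0, 0, 0, 0; 0, 0, 0, 0, 0, 0]

/-- the second projection -/
def antiQ : Mat 6 :=
  !![0, 0, 0, 0, 0, 0; 0, 0, 0, 0, 0, 0; 0, 0, 0, 0, 0, 0; 0, 0, 0, 0, 0, 0;
    0, 0, 0, 0, 1, 0; 0, 0, 0, 0, 0, 1]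

/-- the rotation -/
noncomputable def antiR (t : ℝ) : Mat 6 := cos t • antiP + sin t • antiD + antiQ

theorem antiR_eq (t : ℝ) : antiR t =
    !![cos t, -(sin t), 0, 0, 0, 0; sin t, cos t, 0, 0, 0, 0; 0, 0, cos t, sin t, 0, 0;
      0, 0, -(sin t), cos t, 0, 0; 0, 0, 0, 0, 1, 0; 0, 0, 0, 0, 0, 1] := by
  ext i j
  fin_cases i <;> fin_cases j <;> simp [antiR, antiP, antiD, antiQ]

theorem antiR_add (a b : ℝ) : antiR (a + b) = antiR a * antiR b := by
  rw [antiR_eq, antiR_eq, antiR_eq]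
  ext i j
  fin_cases i <;> fin_cases j <;>
    simp [Matrix.mul_apply, Fin.sum_univ_succ, cos_add, sin_add] <;> ring

theorem antiR_zero : antiR 0 = 1 := by
  rw [antiR_eq]
  ext i j
  fin_cases i <;> fin_cases j <;> simp

theorem antiR_neg (t : ℝ) : antiR (-t) = (antiR t)ᵀ := by
  rw [antiR_eq, antiR_eq]
  ext i j
  fin_cases i <;> fin_cases j <;> simp

theorem antiR_det (t : ℝ) : (antiR t).det = 1 := by
  have h1 : (antiR (t / 2)).det * (antiR (-(t / 2))).det = 1 := by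
    rw [← det_mul, ← antiR_add, add_neg_cancel, antiR_zero, det_one]
  rw [antiR_neg, det_transpose] at h1
  rw [← h1, ← det_mul, ← antiR_add, add_halves]

theorem anti_shift (p : P3) (t : ℝ) : S (p + Pi.single 2 t) =
    ![cos t • S p 0 + sin t • S p 1, -(sin t • S p 0) + cos t • S p 1, S p 2] := by
  ext i j
  fin_cases i <;> fin_cases j <;> simp [S, cos_add, sin_add] <;> ring

theorem anti_cols (Φ : V3 → V6) (F F' : Fin 3 → V3) (t : ℝ)
    (hF' : F' = ![cos t • F 0 + sin t • F 1, -(sin t • F 0) + cos t • F 1, F 2]) (b : Fin 2 → V6) :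
    toM (app (fr Φ (π / 2) (rot (π / 2) F')) b) =
      toM (app (fr Φ (π / 2) (rot (π / 2) F)) b) * antiR t := by
  rw [antiR_eq, anti_fr, anti_fr, anti_rot, anti_rot, hF']
  ext i j
  fin_cases j <;>
    simp [toM, app, Matrix.mul_apply, Fin.sum_univ_succ] <;> ring

theorem anti_cpl (Φ : V3 → V6) (F F' : Fin 3 → V3) (t : ℝ)
    (hF' : F' = ![cos t • F 0 + sin t • F 1, -(sin t • F 0) + cos t • F 1, F 2]) :
    cpl Φ (rot (π / 2) F') = cpl Φ (rot (π / 2) F) := by
  unfold cpl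
  have h0 : rot (π / 2) F' 0 = rot (π / 2) F 0 := by
    rw [anti_rot, anti_rot, hF']
    rfl
  congr 1
  · rw [h0]
  · congr 1
    funext i
    rw [anti_cols Φ F F' t hF', det_mul, antiR_det, mul_one, h0]

theorem anti_dd {M : P3 → Mat 6} (hdiff : Differentiable ℝ M)
    (hsh : ∀ p t, M (p + Pi.single 2 t) = M p * antiR t) (p : P3) :
    dd M 2 p = M p * antiD := by
  have h1 : HasDerivAt (fun t : ℝ => M (p + Pi.single 2 t)) (dd M 2 p) 0 := by
    have hf : HasFDerivAt M (fderiv ℝ M p) (p + Pi.single 2 0) := by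
      rw [Pi.single_zero, add_zero]
      exact (hdiff p).hasFDerivAt
    have hg : HasDerivAt (fun t : ℝ => p + (Pi.single 2 t : P3)) (Pi.single 2 1) 0 := by
      have : (fun t : ℝ => p + (Pi.single 2 t : P3)) =
          fun t : ℝ => p + t • (Pi.single 2 1 : P3) := by
        funext t
        congr 1
        ext i
        fin_cases i <;> simp
      rw [this]
      have h := ((hasDerivAt_id (0 : ℝ)).smul_const (Pi.single 2 1 : P3)).const_add p
      simpa using h
    exact hf.comp_hasDerivAt (0 : ℝ) hg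
  have h2 : HasDerivAt (fun t : ℝ => M (p + Pi.single 2 t)) (M p * antiD) 0 := by
    have e : (fun t : ℝ => M (p + Pi.single 2 t)) =
        fun t => cos t • (M p * antiP) + sin t • (M p * antiD) + M p * antiQ := by
      funext t
      rw [hsh, antiR, Matrix.mul_add, Matrix.mul_add, Matrix.mul_smul, Matrix.mul_smul]
    rw [e]
    have h := (((hasDerivAt_cos 0).smul_const (M p * antiP)).add
      ((hasDerivAt_sin 0).smul_const (M p * antiD))).add_const (M p * antiQ)
    simp only [sin_zero, neg_zero, zero_smul, cos_zero, one_smul, zero_add] at h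
    exact h
  exact h1.unique h2

theorem anti_trace : trace (antiD * antiD) = -4 := by
  simp [antiD, trace, Fin.sum_univ_succ]
  norm_num

/-- the matrix of the antipodal frame -/
noncomputable def antiM (Φ : V3 → V6) (p : P3) : Mat 6 :=
  toM (app (fr Φ (π / 2) (rot (π / 2) (S p))) (cpl Φ (rot (π / 2) (S p))))

theorem antiM_shift (Φ : V3 → V6) (p : P3) (t : ℝ) :
    antiM Φ (p + Pi.single 2 t) = antiM Φ p * antiR t := by
  have h := anti_shift p t
  unfold antiM
  generalize S (p + Pi.single 2 t) = F' at h ⊢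
  generalize S p = F at h ⊢
  rw [anti_cpl Φ F F' t h]
  exact anti_cols Φ F F' t h _

theorem antiM_nice {Φ : V3 → V6} (hΦ : SkewData Φ) : Nice (antiM Φ) := by
  have hpi : (0 : ℝ) ≤ π / 2 := by positivity
  exact (app_fam (fr_rot_fam hΦ 0 (π / 2)) (cpl_rot_fam hΦ 0 (π / 2))).nice
    (right_mem_Icc.2 hpi)

theorem antiM_diff {Φ : V3 → V6} (hΦ : SkewData Φ) : Differentiable ℝ (antiM Φ) :=
  (antiM_nice hΦ).1.differentiable (by simp)

theorem CS_anti {Φ : V3 → V6} (hΦ : SkewData Φ) :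
    CS (fun p => toM (app (fr Φ (π / 2) (rot (π / 2) (S p))) (cpl Φ (rot (π / 2) (S p))))) =
      32 * π ^ 2 := by
  change CS (antiM Φ) = _
  rw [CS_equi (antiM Φ) (antiM_nice hΦ) (fun p => cpl_det hΦ (ON_rot (S_ON p) _)) antiD
    (anti_dd (antiM_diff hΦ) (antiM_shift Φ)), anti_trace]
  ring

end Pool.Agent.Lib.SkewU
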