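import Pool.Agent.Lib.MP_794fdb_gt.U.Calc1

set_option autoImplicit false

open scoped ContDiff Matrix.Norms.Elementwise
open Real Set MeasureTheory Matrix

namespace Pool.Agent.Lib.SkewU

theorem NiceFam.nice {X : Type} [NormedAddCommGroup X] [NormedSpace ℝ X] {s0 s1 : ℝ}
    {g : ℝ → P3 → X} (hg : NiceFam s0 s1 g) {s : ℝ} (hs : s ∈ Icc s0 s1) : Nice (g s) := by
  refine ⟨contDiff_iff_contDiffAt.2 fun p => ?_, hg.2 s hs⟩
  have h1 : ContDiffAt ℝ ∞ (fun x : ℝ × P3 => g x.1 x.2) ((fun p : P3 => (s, p)) p) :=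
    hg.1 s hs p
  have h2 : ContDiffAt ℝ ∞ (fun p : P3 => ((s, p) : ℝ × P3)) p :=
    contDiffAt_const.prodMk contDiffAt_id
  exact h1.comp p h2

theorem Nice.fam {X : Type} [NormedAddCommGroup X] [NormedSpace ℝ X] {g : P3 → X} (hg : Nice g)
    (s0 s1 : ℝ) : NiceFam s0 s1 (fun _ => g) :=
  ⟨fun _ _ _ => (hg.1.comp contDiff_snd).contDiffAt, fun _ _ => hg.2⟩

theorem contDiffAt_app {E : Type} [NormedAddCommGroup E] [NormedSpace ℝ E]
    {a : E → Fin 4 → V6} {b : E → Fin 2 → V6} {x : E} (ha : ContDiffAt ℝ ∞ a x)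
    (hb : ContDiffAt ℝ ∞ b x) : ContDiffAt ℝ ∞ (fun y => app (a y) (b y)) x := by
  refine contDiffAt_pi.2 fun j => ?_
  fin_cases j
  · exact contDiffAt_pi.1 ha 0
  · exact contDiffAt_pi.1 ha 1
  · exact contDiffAt_pi.1 ha 2
  · exact contDiffAt_pi.1 ha 3
  · exact contDiffAt_pi.1 hb 0
  · exact contDiffAt_pi.1 hb 1

theorem app_fam {s0 s1 : ℝ} {a : ℝ → P3 → Fin 4 → V6} {b : ℝ → P3 → Fin 2 → V6}
    (ha : NiceFam s0 s1 a) (hb : NiceFam s0 s1 b) :
    NiceFam s0 s1 (fun s p => toM (app (a s p) (b s p))) := by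
  refine ⟨fun s hs p => contDiffAt_toM (contDiffAt_app (ha.1 s hs p) (hb.1 s hs p)),
    fun s hs p q hpq => ?_⟩
  show toM (app (a s p) (b s p)) = toM (app (a s q) (b s q))
  rw [ha.2 s hs p q hpq, hb.2 s hs p q hpq]

/-- The matrix of `fr` in terms of `ufr`. -/
def CM (t : ℝ) : Mat 6 :=
  !![1, 0, 1, 0, 0, 0; 0, 1, 0, 1, 0, 0; t, 0, -t, 0, 0, 0; 0, t, 0, -t, 0, 0; 0, 0, 0, 0, 1, 0;
    0, 0, 0, 0, 0, 1]

/-- The inverse matrix. -/
noncomputable def CM' (t : ℝ) : Mat 6 :=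
  !![1 / 2, 0, 1 / (2 * t), 0, 0, 0; 0, 1 / 2, 0, 1 / (2 * t), 0, 0;
    1 / 2, 0, -(1 / (2 * t)), 0, 0, 0; 0, 1 / 2, 0, -(1 / (2 * t)), 0, 0; 0, 0, 0, 0, 1, 0;
    0, 0, 0, 0, 0, 1]

theorem CM_mul {t : ℝ} (ht : t ≠ 0) : CM t * CM' t = 1 := by
  ext i j
  fin_cases i <;> fin_cases j <;>
    simp [CM, CM', Matrix.mul_apply, Fin.sum_univ_succ] <;> field_simp <;> norm_num

theorem CM_det {t : ℝ} (ht : t ≠ 0) : (CM t).det ≠ 0 := by
  intro h
  have := congrArg Matrix.det (CM_mul ht)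
  rw [Matrix.det_mul, h, zero_mul, Matrix.det_one] at this
  exact zero_ne_one this

theorem toM_fr (Φ : V3 → V6) {t : ℝ} (ht : t ≠ 0) (F : Fin 3 → V3) (b : Fin 2 → V6) :
    toM (app (fr Φ t F) b) = toM (app (ufr Φ t F) b) * CM t := by
  have h0 : fr Φ t F 0 = ufr Φ t F 0 + t • ufr Φ t F 2 := by
    simp only [ufr, Matrix.cons_val]
    rw [smul_smul]
    have : t * (1 / (2 * t)) = 1 / 2 := by field_simp
    rw [this]
    module
  have h2 : fr Φ t F 2 = ufr Φ t F 0 - t • ufr Φ t F 2 := by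
    simp only [ufr, Matrix.cons_val]
    rw [smul_smul]
    have : t * (1 / (2 * t)) = 1 / 2 := by field_simp
    rw [this]
    module
  have h1 : fr Φ t F 1 = ufr Φ t F 1 + t • ufr Φ t F 3 := by
    simp only [ufr, Matrix.cons_val]
    rw [smul_smul]
    have : t * (1 / (2 * t)) = 1 / 2 := by field_simp
    rw [this]
    module
  have h3 : fr Φ t F 3 = ufr Φ t F 1 - t • ufr Φ t F 3 := by
    simp only [ufr, Matrix.cons_val]
    rw [smul_smul]
    have : t * (1 / (2 * t)) = 1 / 2 := by field_simp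
    rw [this]
    module
  ext i j
  have e0 := congrFun h0 i
  have e1 := congrFun h1 i
  have e2 := congrFun h2 i
  have e3 := congrFun h3 i
  simp only [Pi.add_apply, Pi.sub_apply, Pi.smul_apply, smul_eq_mul] at e0 e1 e2 e3
  fin_cases j <;>
    simp [toM, app, CM, Matrix.mul_apply, Fin.sum_univ_succ, e0, e1, e2, e3] <;> ring

end Pool.Agent.Lib.SkewU
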