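import Pool.Agent.Lib.MP_794fdb_gt.U.Bdry
import Pool.Agent.Lib.MP_794fdb_gt.U.Abel

set_option autoImplicit false

open scoped ContDiff Matrix.Norms.Elementwise
open Real Set MeasureTheory Matrix

namespace Pool.Agent.Lib.SkewU

lemma block_pi {k n : ℕ} {X : Type} [NormedAddCommGroup X] [NormedSpace ℝ X]
    {g : (Fin k → ℝ) → Fin n → X} {p : Fin k → ℝ} (hg : DifferentiableAt ℝ g p) (i : Fin k)
    (j : Fin n) : dd g i p j = dd (fun y => g y j) i p := by
  have h1 : HasFDerivAt (fun y => g y j) ((ContinuousLinearMap.proj j).comp (fderiv ℝ g p)) p :=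
    (ContinuousLinearMap.proj (R := ℝ) (φ := fun _ : Fin n => X) j).hasFDerivAt.comp p
      hg.hasFDerivAt
  rw [dd, dd, h1.fderiv]
  rfl

lemma block_entry {k n m : ℕ} {A : (Fin k → ℝ) → Matrix (Fin n) (Fin m) ℝ} {p : Fin k → ℝ}
    (hA : DifferentiableAt ℝ A p) (i : Fin k) (r : Fin n) (s : Fin m) :
    dd A i p r s = dd (fun y => A y r s) i p := by
  have h1 := block_pi (g := fun y r => A y r) hA i r
  have h2 : DifferentiableAt ℝ (fun y => A y r) p := by
    have := (differentiableAt_pi.1 (show DifferentiableAt ℝ (fun y r => A y r) p from hA)) r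
    exact this
  have h3 := block_pi h2 i s
  have h4 : dd A i p r = dd (fun y => A y r) i p := h1
  rw [h4]
  exact h3

lemma block_dot {n : ℕ} {u v : ℕ} {a : P3 → Fin u → Fin n → ℝ} {b : P3 → Fin v → Fin n → ℝ} {p : P3}
    (ha : DifferentiableAt ℝ a p) (hb : DifferentiableAt ℝ b p) (C : Fin u → Fin v → ℝ)
    (hC : ∀ y i j, a y i ⬝ᵥ b y j = C i j) (k : Fin 3) (i : Fin u) (j : Fin v) :
    dd a k p i ⬝ᵥ b p j + a p i ⬝ᵥ dd b k p j = 0 := by
  have hB : DifferentiableAt ℝ (fun y => toM (b y)) p := by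
    have h0 : DifferentiableAt ℝ (fun y => (fun i j => b y j i : Fin n → Fin v → ℝ)) p := by
      rw [differentiableAt_pi]
      intro r
      rw [differentiableAt_pi]
      intro s
      exact differentiableAt_pi.1 (differentiableAt_pi.1 hb s) r
    exact h0
  have h1 := dd_mul (A := fun y => Matrix.of (a y)) (B := fun y => toM (b y)) ha hB k
  have h2 : (fun y => Matrix.of (a y) * toM (b y)) = fun _ => Matrix.of C := by
    funext y
    ext i j
    rw [Matrix.mul_apply]
    exact hC y i j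
  have h3 : dd (fun y => Matrix.of (a y) * toM (b y)) k p = 0 := by
    rw [h2, dd]
    simp
  rw [h3, dd_toM hb] at h1
  have h4 := congrFun (congrFun h1 i) j
  rw [Matrix.add_apply, Matrix.mul_apply, Matrix.mul_apply] at h4
  exact h4.symm

/-- The scalar connection form. -/
noncomputable def blockAl (b : P3 → Fin 2 → V6) (i : Fin 3) (p : P3) : ℝ :=
  b p 1 ⬝ᵥ dd b i p 0

/-- The constant upper left block. -/
def blockD (D : Mat 4) : Mat 6 :=
  !![D 0 0, D 0 1, D 0 2, D 0 3, 0, 0; D 1 0, D 1 1, D 1 2, D 1 3, 0, 0;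
    D 2 0, D 2 1, D 2 2, D 2 3, 0, 0; D 3 0, D 3 1, D 3 2, D 3 3, 0, 0; 0, 0, 0, 0, 0, 0;
    0, 0, 0, 0, 0, 0]

/-- The rotation of the last two coordinates. -/
def blockJ : Mat 6 :=
  !![0, 0, 0, 0, 0, 0; 0, 0, 0, 0, 0, 0; 0, 0, 0, 0, 0, 0; 0, 0, 0, 0, 0, 0; 0, 0, 0, 0, 0, -1;
    0, 0, 0, 0, 1, 0]

lemma block_traceJ (X : Mat 6) : trace (blockJ * X) = X 4 5 - X 5 4 := by
  simp [trace, Fin.sum_univ_succ, blockJ, Matrix.vecMul, dotProduct]
  ring

lemma block_traceDJ (D : Mat 4) (c : ℝ) :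
    trace (blockD D * (blockD D + c • blockJ)) = trace (D * D) := by
  simp [trace, Matrix.mul_apply, Fin.sum_univ_succ, blockJ, blockD]

lemma block_app_diff {a : P3 → Fin 4 → V6} {b : P3 → Fin 2 → V6} (ha : ContDiff ℝ ∞ a)
    (hb : ContDiff ℝ ∞ b) : ContDiff ℝ ∞ (fun p => app (a p) (b p)) := by
  rw [contDiff_pi]
  intro i
  have h1 := fun j => (contDiff_pi.1 ha) j
  have h2 := fun j => (contDiff_pi.1 hb) j
  fin_cases i
  · exact h1 0
  · exact h1 1
  · exact h1 2
  · exact h1 3
  · exact h2 0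
  · exact h2 1

lemma block_dd_app {a : P3 → Fin 4 → V6} {b : P3 → Fin 2 → V6} (ha : ContDiff ℝ ∞ a)
    (hb : ContDiff ℝ ∞ b) (i : Fin 3) (p : P3) :
    dd (fun y => app (a y) (b y)) i p = app (dd a i p) (dd b i p) := by
  have hc := (block_app_diff ha hb).differentiable (by simp) p
  have h1 : ∀ j, dd a i p j = dd (fun y => a y j) i p :=
    fun j => block_pi (ha.differentiable (by simp) p) i j
  have h2 : ∀ j, dd b i p j = dd (fun y => b y j) i p :=
    fun j => block_pi (hb.differentiable (by simp) p) i j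
  funext j
  rw [block_pi hc i j]
  fin_cases j
  · exact (h1 0).symm
  · exact (h1 1).symm
  · exact (h1 2).symm
  · exact (h1 3).symm
  · exact (h2 0).symm
  · exact (h2 1).symm

lemma block_dd_congr {X : Type} [NormedAddCommGroup X] [NormedSpace ℝ X] {g : P3 → X}
    (hg : ContDiff ℝ ∞ g) (p q : P3) (i : Fin 3)
    (h : ∀ t : ℝ, g (p + t • Pi.single i 1) = g (q + t • Pi.single i 1)) :
    dd g i p = dd g i q := by
  have hp := hg.differentiable (by simp) p
  have hq := hg.differentiable (by simp) q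
  rw [dd, dd, ← hp.lineDeriv_eq_fderiv, ← hq.lineDeriv_eq_fderiv, lineDeriv, lineDeriv]
  congr 1
  funext t
  exact h t

section main

variable {a : P3 → Fin 4 → V6} {b : P3 → Fin 2 → V6}

lemma block_smooth (ha : ContDiff ℝ ∞ a) (hb : ContDiff ℝ ∞ b) :
    ContDiff ℝ ∞ (fun p => toM (app (a p) (b p))) := by
  rw [contDiff_iff_contDiffAt]
  intro p
  exact contDiffAt_toM (block_app_diff ha hb).contDiffAt

lemma block_dd (ha : ContDiff ℝ ∞ a) (hb : ContDiff ℝ ∞ b) (i : Fin 3) (p : P3) :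
    dd (fun p => toM (app (a p) (b p))) i p = toM (app (dd a i p) (dd b i p)) := by
  rw [dd_toM ((block_app_diff ha hb).differentiable (by simp) p), block_dd_app ha hb]

lemma block_row {p : P3} (hd : (toM (app (a p) (b p))).det ≠ 0)
    (hbb : ∀ i j, b p i ⬝ᵥ b p j = if i = j then 1 else 0)
    (hab : ∀ i j, a p i ⬝ᵥ b p j = 0) :
    (toM (app (a p) (b p)))⁻¹ 4 = b p 0 ∧ (toM (app (a p) (b p)))⁻¹ 5 = b p 1 := by
  have hu : IsUnit (toM (app (a p) (b p))).det := isUnit_iff_ne_zero.2 hd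
  have hba : ∀ i j, b p i ⬝ᵥ a p j = 0 := fun i j => by rw [dotProduct_comm]; exact hab j i
  have h4 : b p 0 ᵥ* toM (app (a p) (b p)) = Pi.single 4 1 := by
    funext k
    have h1 : (b p 0 ᵥ* toM (app (a p) (b p))) k = b p 0 ⬝ᵥ app (a p) (b p) k := rfl
    rw [h1]
    fin_cases k
    · exact hba 0 0
    · exact hba 0 1
    · exact hba 0 2
    · exact hba 0 3
    · exact hbb 0 0
    · exact hbb 0 1
  have h5 : b p 1 ᵥ* toM (app (a p) (b p)) = Pi.single 5 1 := by
    funext k
    have h1 : (b p 1 ᵥ* toM (app (a p) (b p))) k = b p 1 ⬝ᵥ app (a p) (b p) k := rfl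
    rw [h1]
    fin_cases k
    · exact hba 1 0
    · exact hba 1 1
    · exact hba 1 2
    · exact hba 1 3
    · exact hbb 1 0
    · exact hbb 1 1
  constructor
  · have h6 : (b p 0 ᵥ* toM (app (a p) (b p))) ᵥ* (toM (app (a p) (b p)))⁻¹ = b p 0 := by
      rw [Matrix.vecMul_vecMul, Matrix.mul_nonsing_inv _ hu, Matrix.vecMul_one]
    rw [h4, Matrix.single_one_vecMul] at h6
    exact h6
  · have h6 : (b p 1 ᵥ* toM (app (a p) (b p))) ᵥ* (toM (app (a p) (b p)))⁻¹ = b p 1 := by
      rw [Matrix.vecMul_vecMul, Matrix.mul_nonsing_inv _ hu, Matrix.vecMul_one]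
    rw [h5, Matrix.single_one_vecMul] at h6
    exact h6

/-- The standing hypotheses. -/
structure BlockHyp (a : P3 → Fin 4 → V6) (b : P3 → Fin 2 → V6) (D : Mat 4) : Prop where
  ha : ContDiff ℝ ∞ a
  hb : ContDiff ℝ ∞ b
  hd : ∀ p, (toM (app (a p) (b p))).det ≠ 0
  hD : ∀ p, toM (dd a 2 p) = toM (a p) * D
  hbb : ∀ p i j, b p i ⬝ᵥ b p j = if i = j then 1 else 0
  hab : ∀ p i j, a p i ⬝ᵥ b p j = 0

variable {D : Mat 4}

lemma BlockHyp.dbb (h : BlockHyp a b D) (k : Fin 3) (p : P3) (i j : Fin 2) :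
    dd b k p i ⬝ᵥ b p j + b p i ⬝ᵥ dd b k p j = 0 :=
  block_dot (h.hb.differentiable (by simp) p) (h.hb.differentiable (by simp) p)
    (fun i j => if i = j then 1 else 0) h.hbb k i j

lemma BlockHyp.dab (h : BlockHyp a b D) (k : Fin 3) (p : P3) (i : Fin 4) (j : Fin 2) :
    dd a k p i ⬝ᵥ b p j + a p i ⬝ᵥ dd b k p j = 0 :=
  block_dot (h.ha.differentiable (by simp) p) (h.hb.differentiable (by simp) p)
    (fun _ _ => 0) h.hab k i j

lemma BlockHyp.om4 (h : BlockHyp a b D) (k : Fin 3) (p : P3) (j : Fin 6) :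
    om (fun p => toM (app (a p) (b p))) k p 4 j = b p 0 ⬝ᵥ app (dd a k p) (dd b k p) j := by
  rw [om, block_dd h.ha h.hb, Matrix.mul_apply, (block_row (h.hd p) (h.hbb p) (h.hab p)).1]
  rfl

lemma BlockHyp.om5 (h : BlockHyp a b D) (k : Fin 3) (p : P3) (j : Fin 6) :
    om (fun p => toM (app (a p) (b p))) k p 5 j = b p 1 ⬝ᵥ app (dd a k p) (dd b k p) j := by
  rw [om, block_dd h.ha h.hb, Matrix.mul_apply, (block_row (h.hd p) (h.hbb p) (h.hab p)).2]
  rfl

lemma BlockHyp.om54 (h : BlockHyp a b D) (k : Fin 3) (p : P3) :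
    om (fun p => toM (app (a p) (b p))) k p 5 4 = blockAl b k p := h.om5 k p 4

lemma BlockHyp.om45 (h : BlockHyp a b D) (k : Fin 3) (p : P3) :
    om (fun p => toM (app (a p) (b p))) k p 4 5 = -blockAl b k p := by
  have h1 : om (fun p => toM (app (a p) (b p))) k p 4 5 = b p 0 ⬝ᵥ dd b k p 1 := h.om4 k p 5
  have h2 := h.dbb k p 0 1
  rw [h1, blockAl, dotProduct_comm (b p 1)]
  linarith

lemma BlockHyp.om44 (h : BlockHyp a b D) (k : Fin 3) (p : P3) :
    om (fun p => toM (app (a p) (b p))) k p 4 4 = 0 := by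
  have h1 : om (fun p => toM (app (a p) (b p))) k p 4 4 = b p 0 ⬝ᵥ dd b k p 0 := h.om4 k p 4
  have h2 := h.dbb k p 0 0
  rw [dotProduct_comm (dd b k p 0)] at h2
  rw [h1]
  linarith

lemma BlockHyp.om55 (h : BlockHyp a b D) (k : Fin 3) (p : P3) :
    om (fun p => toM (app (a p) (b p))) k p 5 5 = 0 := by
  have h1 : om (fun p => toM (app (a p) (b p))) k p 5 5 = b p 1 ⬝ᵥ dd b k p 1 := h.om5 k p 5
  have h2 := h.dbb k p 1 1
  rw [dotProduct_comm (dd b k p 1)] at h2
  rw [h1]
  linarith

lemma BlockHyp.dd2a (h : BlockHyp a b D) (p : P3) (k : Fin 4) (r : Fin 6) :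
    dd a 2 p k r = ∑ m, a p m r * D m k := by
  have h1 := congrFun (congrFun (h.hD p) r) k
  rw [Matrix.mul_apply] at h1
  exact h1

lemma BlockHyp.dd2ab (h : BlockHyp a b D) (p : P3) (k : Fin 4) (j : Fin 2) :
    dd a 2 p k ⬝ᵥ b p j = 0 := by
  have h1 : dd a 2 p k = ∑ m, D m k • a p m := by
    funext r
    rw [h.dd2a, Finset.sum_apply]
    exact Finset.sum_congr rfl fun m _ => mul_comm _ _
  rw [h1, sum_dotProduct]
  apply Finset.sum_eq_zero
  intro m _
  rw [smul_dotProduct, h.hab, smul_zero]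

lemma BlockHyp.eq_zero (h : BlockHyp a b D) {p : P3} {w : V6} (h1 : ∀ k, w ⬝ᵥ a p k = 0)
    (h2 : ∀ k, w ⬝ᵥ b p k = 0) : w = 0 := by
  apply Matrix.eq_zero_of_vecMul_eq_zero (h.hd p)
  funext k
  have h3 : (w ᵥ* toM (app (a p) (b p))) k = w ⬝ᵥ app (a p) (b p) k := rfl
  rw [h3]
  fin_cases k
  · exact h1 0
  · exact h1 1
  · exact h1 2
  · exact h1 3
  · exact h2 0
  · exact h2 1

lemma BlockHyp.perp (h : BlockHyp a b D) (p : P3) (k : Fin 4) (j : Fin 2) :
    dd b 2 p j ⬝ᵥ a p k = 0 := by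
  have h1 := h.dab 2 p k j
  rw [h.dd2ab, zero_add] at h1
  rw [dotProduct_comm]
  exact h1

lemma BlockHyp.ddb0 (h : BlockHyp a b D) (p : P3) : dd b 2 p 0 = blockAl b 2 p • b p 1 := by
  rw [← sub_eq_zero]
  apply h.eq_zero (p := p)
  · intro k
    rw [sub_dotProduct, smul_dotProduct, h.perp, dotProduct_comm (b p 1), h.hab, smul_zero, sub_zero]
  · intro k
    rw [sub_dotProduct, smul_dotProduct, h.hbb]
    fin_cases k
    · have h2 := h.dbb 2 p 0 0
      rw [dotProduct_comm (b p 0)] at h2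
      have h3 : dd b 2 p 0 ⬝ᵥ b p 0 = 0 := by linarith
      simp [h3]
    · simp [blockAl, dotProduct_comm]

lemma BlockHyp.ddb1 (h : BlockHyp a b D) (p : P3) : dd b 2 p 1 = -(blockAl b 2 p) • b p 0 := by
  rw [← sub_eq_zero]
  apply h.eq_zero (p := p)
  · intro k
    rw [sub_dotProduct, smul_dotProduct, h.perp, dotProduct_comm (b p 0), h.hab, smul_zero, sub_zero]
  · intro k
    rw [sub_dotProduct, smul_dotProduct, h.hbb]
    fin_cases k
    · have h2 := h.dbb 2 p 0 1
      have h3 : dd b 2 p 1 ⬝ᵥ b p 0 = -(blockAl b 2 p) := by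
        rw [blockAl, dotProduct_comm (dd b 2 p 1), dotProduct_comm (b p 1)]
        linarith
      simp [h3]
    · have h2 := h.dbb 2 p 1 1
      rw [dotProduct_comm (b p 1)] at h2
      have h3 : dd b 2 p 1 ⬝ᵥ b p 1 = 0 := by linarith
      simp [h3]

lemma BlockHyp.om2 (h : BlockHyp a b D) (p : P3) :
    om (fun p => toM (app (a p) (b p))) 2 p = blockD D + blockAl b 2 p • blockJ := by
  have hu : IsUnit (toM (app (a p) (b p))).det := isUnit_iff_ne_zero.2 (h.hd p)
  have h1 : toM (app (a p) (b p)) * (blockD D + blockAl b 2 p • blockJ) =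
      toM (app (dd a 2 p) (dd b 2 p)) := by
    ext r s
    rw [Matrix.mul_apply]
    have e : ∀ m, toM (app (a p) (b p)) r m = app (a p) (b p) m r := fun m => rfl
    have e' : toM (app (dd a 2 p) (dd b 2 p)) r s = app (dd a 2 p) (dd b 2 p) s r := rfl
    rw [e']
    simp only [e]
    have h0 := fun k => h.dd2a p k r
    have hb0 := congrFun (h.ddb0 p) r
    have hb1 := congrFun (h.ddb1 p) r
    simp only [Fin.sum_univ_succ, Fin.sum_univ_zero] at h0
    fin_cases s
    · simp [Fin.sum_univ_succ, app, blockD, blockJ, h0]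
    · simp [Fin.sum_univ_succ, app, blockD, blockJ, h0]
    · simp [Fin.sum_univ_succ, app, blockD, blockJ, h0]
    · simp [Fin.sum_univ_succ, app, blockD, blockJ, h0]
    · simp [Fin.sum_univ_succ, app, blockD, blockJ, hb0, mul_comm]
    · simp [Fin.sum_univ_succ, app, blockD, blockJ, hb1, mul_comm]
  rw [om, block_dd h.ha h.hb, ← h1, Matrix.nonsing_inv_mul_cancel_left _ _ hu]

lemma BlockHyp.smooth (h : BlockHyp a b D) :
    ContDiff ℝ ∞ (fun p => toM (app (a p) (b p))) := block_smooth h.ha h.hb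

lemma BlockHyp.om_smooth (h : BlockHyp a b D) (i : Fin 3) :
    ContDiff ℝ ∞ (om (fun p => toM (app (a p) (b p))) i) := by
  rw [contDiff_iff_contDiffAt]
  intro p
  exact contDiffAt_om h.smooth.contDiffAt (h.hd p) i

lemma block_entry_smooth {A : P3 → Mat 6} (hA : ContDiff ℝ ∞ A) (r s : Fin 6) :
    ContDiff ℝ ∞ (fun p => A p r s) := by
  have h1 : ContDiff ℝ ∞ (fun p => (fun i j => A p i j : Fin 6 → Fin 6 → ℝ)) := hA
  exact contDiff_pi.1 (contDiff_pi.1 h1 r) s

lemma BlockHyp.al_smooth (h : BlockHyp a b D) (i : Fin 3) : ContDiff ℝ ∞ (blockAl b i) := by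
  have h1 : blockAl b i = fun p => om (fun p => toM (app (a p) (b p))) i p 5 4 := by
    funext p
    exact (h.om54 i p).symm
  rw [h1]
  exact block_entry_smooth (h.om_smooth i) 5 4

/-- Entry `5 4` of the derivative. -/
lemma BlockHyp.dd54 (h : BlockHyp a b D) (i k : Fin 3) (p : P3) :
    dd (om (fun p => toM (app (a p) (b p))) i) k p 5 4 = dd (blockAl b i) k p := by
  rw [block_entry ((h.om_smooth i).differentiable (by simp) p)]
  congr 1
  funext y
  exact h.om54 i y

lemma BlockHyp.dd45 (h : BlockHyp a b D) (i k : Fin 3) (p : P3) :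
    dd (om (fun p => toM (app (a p) (b p))) i) k p 4 5 = -dd (blockAl b i) k p := by
  rw [block_entry ((h.om_smooth i).differentiable (by simp) p)]
  have h1 : (fun y => om (fun p => toM (app (a p) (b p))) i y 4 5) = fun y => -blockAl b i y := by
    funext y
    exact h.om45 i y
  rw [h1, dd, dd]
  have h2 : fderiv ℝ (fun y => -blockAl b i y) p = -fderiv ℝ (blockAl b i) p := fderiv_neg
  rw [h2]
  rfl

lemma BlockHyp.flat2 (h : BlockHyp a b D) (i : Fin 3) (p : P3) :
    dd (blockAl b i) 2 p = dd (blockAl b 2) i p := by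
  have h1 := flat (M := fun p => toM (app (a p) (b p))) (x := p) h.smooth.contDiffAt (h.hd p) 2 i
  have h2 := congrFun (congrFun h1 5) 4
  rw [Matrix.sub_apply, Matrix.sub_apply, h.dd54, h.dd54, h.om2 p, Matrix.mul_apply,
    Matrix.mul_apply] at h2
  have e55 := h.om55 i p
  have e44 := h.om44 i p
  have h3 : dd (blockAl b i) 2 p - dd (blockAl b 2) i p = 0 := by
    rw [h2]
    simp [Fin.sum_univ_succ, blockD, blockJ, e55, e44]
  linarith

lemma BlockHyp.psi_eq (h : BlockHyp a b D) (p : P3) :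
    psi (fun p => toM (app (a p) (b p))) p =
      trace (blockD D * (om (fun p => toM (app (a p) (b p))) 0 p *
        om (fun p => toM (app (a p) (b p))) 1 p - om (fun p => toM (app (a p) (b p))) 1 p *
        om (fun p => toM (app (a p) (b p))) 0 p)) +
      2 * (blockAl b 2 p * (dd (blockAl b 1) 0 p - dd (blockAl b 0) 1 p)) := by
  have h1 := flat (M := fun p => toM (app (a p) (b p))) (x := p) h.smooth.contDiffAt (h.hd p) 1 0
  set A := om (fun p => toM (app (a p) (b p))) 0 p with hA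
  set B := om (fun p => toM (app (a p) (b p))) 1 p with hB
  set C := om (fun p => toM (app (a p) (b p))) 2 p with hC
  have h2 : psi (fun p => toM (app (a p) (b p))) p = trace (C * (A * B - B * A)) := by
    rw [psi, ← hA, ← hB, ← hC, mul_sub, mul_sub, trace_sub, trace_sub]
    congr 1
    · rw [← mul_assoc, trace_mul_comm]
    · rw [trace_mul_comm, mul_assoc]
  have hC2 : C = blockD D + blockAl b 2 p • blockJ := h.om2 p
  rw [h2, hC2, add_mul, trace_add, smul_mul_assoc, trace_smul, block_traceJ, ← h1,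
    Matrix.sub_apply, Matrix.sub_apply, h.dd54, h.dd54, h.dd45, h.dd45, smul_eq_mul]
  ring

end main

/-- Four equivariant columns and an orthonormal basis of the orthogonal complement. -/
theorem CS_block (a : P3 → Fin 4 → V6) (b : P3 → Fin 2 → V6) (ha : Nice a) (hb : Nice b)
    (hd : ∀ p, (toM (app (a p) (b p))).det ≠ 0) (D : Mat 4)
    (hD : ∀ p, toM (dd a 2 p) = toM (a p) * D)
    (hbb : ∀ p i j, b p i ⬝ᵥ b p j = if i = j then 1 else 0)
    (hab : ∀ p i j, a p i ⬝ᵥ b p j = 0) :
    -(8 * π ^ 2 * trace (D * D)) ≤ CS (fun p => toM (app (a p) (b p))) := by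
  have h : BlockHyp a b D := ⟨ha.1, hb.1, hd, hD, hbb, hab⟩
  have hN : Nice (fun p => toM (app (a p) (b p))) := by
    refine ⟨h.smooth, fun p q hpq => ?_⟩
    simp only [ha.2 p q hpq, hb.2 p q hpq]
  have h1 := bdry (fun p => toM (app (a p) (b p))) hN hd (blockD D) (trace (D * D)) (by
    intro p
    rw [h.om2 p, block_traceDJ])
  have hper : ∀ i p, blockAl b i (p + Pi.single 0 (2 * π)) = blockAl b i p ∧
      blockAl b i (p + Pi.single 2 (2 * π)) = blockAl b i p := by
    intro i p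
    constructor
    · rw [blockAl, blockAl, (hb.per p 0 i).1, (hb.per p 0 i).2]
    · rw [blockAl, blockAl, (hb.per p 2 i).1, (hb.per p 2 i).2]
  have h2 := abel (blockAl b) h.al_smooth hper (fun p => h.flat2 0 p) (fun p => h.flat2 1 p)
    (by
      intro p hp
      rw [blockAl, blockAl, hb.dd_zero hp])
    (by
      intro p hp
      rw [blockAl, blockAl, hb.dd_pi hp]
      simp)
    (by
      intro p q hp hq hpq
      have e1 : b p = b q := hb.2 p q (S_zero hp hq hpq)
      have e2 : dd b 2 p = dd b 2 q := by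
        apply block_dd_congr hb.1
        intro t
        apply hb.2
        apply S_zero
        · simp [hp]
        · simp [hq]
        · simp
          linarith
      rw [blockAl, blockAl, e1, e2])
    (by
      intro p q hp hq hpq
      have e1 : b p = b q := hb.2 p q (S_pi hp hq hpq)
      have e2 : dd b 2 p = dd b 2 q := by
        apply block_dd_congr hb.1
        intro t
        apply hb.2
        apply S_pi
        · simp [hp]
        · simp [hq]
        · simp
          linarith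
      rw [blockAl, blockAl, e1, e2])
  have hc : ∀ i, Continuous (om (fun p => toM (app (a p) (b p))) i) :=
    fun i => (h.om_smooth i).continuous
  have hint1 : IntegrableOn (fun p => trace (blockD D *
      (om (fun p => toM (app (a p) (b p))) 0 p * om (fun p => toM (app (a p) (b p))) 1 p -
        om (fun p => toM (app (a p) (b p))) 1 p * om (fun p => toM (app (a p) (b p))) 0 p)))
      (Icc (0 : P3) top3) := by
    refine ContinuousOn.integrableOn_compact isCompact_Icc (Continuous.continuousOn ?_)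
    exact (continuous_const.matrix_mul
      (((hc 0).matrix_mul (hc 1)).sub ((hc 1).matrix_mul (hc 0)))).matrix_trace
  have hint2 : IntegrableOn (fun p => 2 * (blockAl b 2 p *
      (dd (blockAl b 1) 0 p - dd (blockAl b 0) 1 p))) (Icc (0 : P3) top3) := by
    refine ContinuousOn.integrableOn_compact isCompact_Icc (Continuous.continuousOn ?_)
    have hdd : ∀ i k, Continuous (dd (blockAl b i) k) := by
      intro i k
      rw [continuous_iff_continuousAt]
      intro p
      exact (contDiffAt_dd (h.al_smooth i).contDiffAt k).continuousAt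
    exact continuous_const.mul ((h.al_smooth 2).continuous.mul ((hdd 1 0).sub (hdd 0 1)))
  have h3 : CS (fun p => toM (app (a p) (b p))) = _ :=
    (setIntegral_congr_fun measurableSet_Icc fun p _ => h.psi_eq p).trans
      (integral_add hint1 hint2)
  rw [h3, h1, integral_const_mul]
  linarith

end Pool.Agent.Lib.SkewU
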