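import Pool.Agent.Lib.MP_794fdb_gt.U.Defs

set_option autoImplicit false

open scoped ContDiff Matrix.Norms.Elementwise
open Real Set MeasureTheory Matrix

namespace Pool.Agent.Lib.SkewU

/-- `toM` as a continuous linear map. -/
noncomputable def toMCLM (n m : ℕ) : (Fin n → Fin m → ℝ) →L[ℝ] Matrix (Fin m) (Fin n) ℝ :=
  LinearMap.toContinuousLinearMap
    { toFun := fun g => toM g
      map_add' := fun _ _ => rfl
      map_smul' := fun _ _ => rfl }

theorem toMCLM_apply {n m : ℕ} (g : Fin n → Fin m → ℝ) : toMCLM n m g = toM g := rfl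

theorem contDiffAt_toM {E : Type} [NormedAddCommGroup E] [NormedSpace ℝ E] {n m : ℕ}
    {G : E → Fin n → Fin m → ℝ} {x : E} (h : ContDiffAt ℝ ∞ G x) :
    ContDiffAt ℝ ∞ (fun y => toM (G y)) x :=
  (toMCLM n m).contDiff.contDiffAt.comp x h

theorem dd_toM {k n m : ℕ} {G : (Fin k → ℝ) → Fin n → Fin m → ℝ} {x : Fin k → ℝ}
    (h : DifferentiableAt ℝ G x) (i : Fin k) :
    dd (fun y => toM (G y)) i x = toM (dd G i x) := by
  have h1 : HasFDerivAt (fun y => toM (G y)) ((toMCLM n m).comp (fderiv ℝ G x)) x :=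
    (toMCLM n m).hasFDerivAt.comp x h.hasFDerivAt
  exact congrArg (fun L : (Fin k → ℝ) →L[ℝ] Matrix (Fin m) (Fin n) ℝ => L (Pi.single i 1))
    h1.fderiv

/-- Matrix multiplication as a bilinear map. -/
noncomputable def mulB (a b c : ℕ) : Matrix (Fin a) (Fin b) ℝ →L[ℝ] Matrix (Fin b) (Fin c) ℝ →L[ℝ]
    Matrix (Fin a) (Fin c) ℝ :=
  LinearMap.toContinuousLinearMap
    (LinearMap.toContinuousLinearMap.toLinearMap ∘ₗ
      (LinearMap.mk₂ ℝ (fun (A : Matrix (Fin a) (Fin b) ℝ) (B : Matrix (Fin b) (Fin c) ℝ) => A * B)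
        (fun _ _ _ => Matrix.add_mul _ _ _) (fun _ _ _ => Matrix.smul_mul _ _ _)
        (fun _ _ _ => Matrix.mul_add _ _ _) (fun _ _ _ => Matrix.mul_smul _ _ _)))

theorem mulB_apply {a b c : ℕ} (A : Matrix (Fin a) (Fin b) ℝ) (B : Matrix (Fin b) (Fin c) ℝ) :
    mulB a b c A B = A * B := rfl

theorem dd_mul {k a b c : ℕ} {A : (Fin k → ℝ) → Matrix (Fin a) (Fin b) ℝ}
    {B : (Fin k → ℝ) → Matrix (Fin b) (Fin c) ℝ} {x : Fin k → ℝ}
    (hA : DifferentiableAt ℝ A x) (hB : DifferentiableAt ℝ B x) (i : Fin k) :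
    dd (fun y => A y * B y) i x = dd A i x * B x + A x * dd B i x := by
  have h := (mulB a b c).hasFDerivAt_of_bilinear hA.hasFDerivAt hB.hasFDerivAt
  have h1 := congrArg (fun L : (Fin k → ℝ) →L[ℝ] Matrix (Fin a) (Fin c) ℝ => L (Pi.single i 1))
    h.fderiv
  have h2 : dd (fun y => A y * B y) i x = A x * dd B i x + dd A i x * B x := h1
  rw [h2, add_comm]

/-- Entries of a smooth matrix function are smooth. -/
theorem contDiffAt_entry {E : Type} [NormedAddCommGroup E] [NormedSpace ℝ E] {a b : ℕ}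
    {A : E → Matrix (Fin a) (Fin b) ℝ} {x : E} (hA : ContDiffAt ℝ ∞ A x) (i : Fin a) (j : Fin b) :
    ContDiffAt ℝ ∞ (fun y => A y i j) x := by
  have h : ContDiffAt ℝ ∞ (fun y => (A y : Fin a → Fin b → ℝ)) x := hA
  exact contDiffAt_pi.1 (contDiffAt_pi.1 h i) j

theorem contDiffAt_of_entry {E : Type} [NormedAddCommGroup E] [NormedSpace ℝ E] {a b : ℕ}
    {A : E → Matrix (Fin a) (Fin b) ℝ} {x : E} (hA : ∀ i j, ContDiffAt ℝ ∞ (fun y => A y i j) x) :
    ContDiffAt ℝ ∞ A x := by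
  have h : ContDiffAt ℝ ∞ (fun y => (A y : Fin a → Fin b → ℝ)) x :=
    contDiffAt_pi.2 fun i => contDiffAt_pi.2 fun j => hA i j
  exact h

theorem contDiffAt_mul {E : Type} [NormedAddCommGroup E] [NormedSpace ℝ E] {a b c : ℕ}
    {A : E → Matrix (Fin a) (Fin b) ℝ} {B : E → Matrix (Fin b) (Fin c) ℝ} {x : E}
    (hA : ContDiffAt ℝ ∞ A x) (hB : ContDiffAt ℝ ∞ B x) :
    ContDiffAt ℝ ∞ (fun y => A y * B y) x := by
  refine contDiffAt_of_entry fun i j => ?_
  simp only [Matrix.mul_apply]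
  exact ContDiffAt.sum fun l _ => (contDiffAt_entry hA i l).mul (contDiffAt_entry hB l j)

/-- The trace as a continuous linear map. -/
noncomputable def traceCLM (n : ℕ) : Mat n →L[ℝ] ℝ :=
  LinearMap.toContinuousLinearMap (Matrix.traceLinearMap (Fin n) ℝ ℝ)

theorem contDiffAt_trace {E : Type} [NormedAddCommGroup E] [NormedSpace ℝ E] {n : ℕ}
    {A : E → Mat n} {x : E} (hA : ContDiffAt ℝ ∞ A x) :
    ContDiffAt ℝ ∞ (fun y => trace (A y)) x :=
  (traceCLM n).contDiff.contDiffAt.comp x hA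

theorem dd_trace {k n : ℕ} {A : (Fin k → ℝ) → Mat n} {x : Fin k → ℝ}
    (hA : DifferentiableAt ℝ A x) (i : Fin k) :
    dd (fun y => trace (A y)) i x = trace (dd A i x) := by
  have h1 : HasFDerivAt (fun y => trace (A y)) ((traceCLM n).comp (fderiv ℝ A x)) x :=
    (traceCLM n).hasFDerivAt.comp x hA.hasFDerivAt
  exact congrArg (fun L : (Fin k → ℝ) →L[ℝ] ℝ => L (Pi.single i 1)) h1.fderiv

theorem contDiffAt_det {E : Type} [NormedAddCommGroup E] [NormedSpace ℝ E] {n : ℕ}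
    {A : E → Mat n} {x : E} (hA : ContDiffAt ℝ ∞ A x) :
    ContDiffAt ℝ ∞ (fun y => (A y).det) x := by
  simp only [Matrix.det_apply]
  refine ContDiffAt.sum fun σ _ => ?_
  refine ContDiffAt.const_smul _ ?_
  exact contDiffAt_prod fun i _ => contDiffAt_entry hA _ _

end Pool.Agent.Lib.SkewU
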