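import Pool.Agent.Lib.MP_794fdb_gt.U.Calc1

set_option autoImplicit false

open scoped ContDiff Matrix.Norms.Elementwise
open Real Set MeasureTheory Matrix

namespace Pool.Agent.Lib.SkewU

theorem contDiffAt_inv {E : Type} [NormedAddCommGroup E] [NormedSpace ℝ E] {n : ℕ}
    {A : E → Mat n} {x : E} (hA : ContDiffAt ℝ ∞ A x) (hd : (A x).det ≠ 0) :
    ContDiffAt ℝ ∞ (fun y => (A y)⁻¹) x := by
  refine contDiffAt_of_entry fun i j => ?_
  have h0 : (fun y => (A y)⁻¹ i j) =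
      fun y => ((A y).det)⁻¹ * ((A y).updateRow j (Pi.single i 1)).det := by
    funext y
    rw [Matrix.inv_def, Matrix.smul_apply, Matrix.adjugate_apply, Ring.inverse_eq_inv',
      smul_eq_mul]
  rw [h0]
  refine ((contDiffAt_det hA).inv hd).mul (contDiffAt_det ?_)
  refine contDiffAt_of_entry fun r s => ?_
  by_cases hr : r = j
  · have h1 : (fun y => (A y).updateRow j (Pi.single i 1) r s) =
        fun _ => (Pi.single i 1 : Fin n → ℝ) s := by
      funext y
      rw [hr, Matrix.updateRow_self]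
    rw [h1]
    exact contDiffAt_const
  · have h1 : (fun y => (A y).updateRow j (Pi.single i 1) r s) = fun y => A y r s := by
      funext y
      rw [Matrix.updateRow_ne hr]
    rw [h1]
    exact contDiffAt_entry hA r s

theorem contDiffAt_dd {k : ℕ} {X : Type} [NormedAddCommGroup X] [NormedSpace ℝ X]
    {G : (Fin k → ℝ) → X} {x : Fin k → ℝ} (h : ContDiffAt ℝ ∞ G x) (i : Fin k) :
    ContDiffAt ℝ ∞ (dd G i) x := by
  have h1 : ContDiffAt ℝ ∞ (fderiv ℝ G) x := h.fderiv_right (m := ∞) (by simp)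
  exact h1.clm_apply contDiffAt_const

theorem contDiffAt_om {k n : ℕ} {M : (Fin k → ℝ) → Mat n} {x : Fin k → ℝ}
    (hM : ContDiffAt ℝ ∞ M x) (hd : (M x).det ≠ 0) (i : Fin k) :
    ContDiffAt ℝ ∞ (om M i) x :=
  contDiffAt_mul (contDiffAt_inv hM hd) (contDiffAt_dd hM i)

/-- Symmetry of the second derivatives. -/
theorem Calc2.symm {k : ℕ} {X : Type} [NormedAddCommGroup X] [NormedSpace ℝ X]
    {G : (Fin k → ℝ) → X} {x : Fin k → ℝ} (h : ContDiffAt ℝ ∞ G x) (i j : Fin k) :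
    dd (dd G j) i x = dd (dd G i) j x := by
  have h1 : ContDiffAt ℝ ∞ (fderiv ℝ G) x := h.fderiv_right (m := ∞) (by simp)
  have h2 : DifferentiableAt ℝ (fderiv ℝ G) x := h1.differentiableAt (by simp)
  have h3 : ∀ a b : Fin k, dd (dd G a) b x =
      fderiv ℝ (fderiv ℝ G) x (Pi.single b 1) (Pi.single a 1) := by
    intro a b
    have h4 : HasFDerivAt (dd G a)
        ((ContinuousLinearMap.apply ℝ X (Pi.single a (1 : ℝ) : Fin k → ℝ)).comp
          (fderiv ℝ (fderiv ℝ G) x)) x :=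
      (ContinuousLinearMap.apply ℝ X (Pi.single a (1 : ℝ) : Fin k → ℝ)).hasFDerivAt.comp x
        h2.hasFDerivAt
    unfold dd at h4 ⊢
    rw [h4.fderiv]
    rfl
  rw [h3, h3]
  have h5 : IsSymmSndFDerivAt ℝ G x := h.isSymmSndFDerivAt (by
    simp only [minSmoothness_of_isRCLikeNormedField]
    exact ENat.LEInfty.out)
  exact h5 _ _

/-- Derivative of the inverse. -/
theorem Calc2.dd_inv {k n : ℕ} {M : (Fin k → ℝ) → Mat n} {x : Fin k → ℝ}
    (hM : ContDiffAt ℝ ∞ M x) (hd : (M x).det ≠ 0) (i : Fin k) :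
    dd (fun y => (M y)⁻¹) i x = -((M x)⁻¹ * dd M i x * (M x)⁻¹) := by
  have hu : IsUnit (M x).det := isUnit_iff_ne_zero.2 hd
  have hI : ContDiffAt ℝ ∞ (fun y => (M y)⁻¹) x := contDiffAt_inv hM hd
  have h1 : dd (fun y => (M y)⁻¹ * M y) i x =
      dd (fun y => (M y)⁻¹) i x * M x + (M x)⁻¹ * dd M i x :=
    dd_mul (hI.differentiableAt (by simp)) (hM.differentiableAt (by simp)) i
  have hev : ∀ᶠ y in nhds x, (M y).det ≠ 0 :=
    ((contDiffAt_det hM).continuousAt).eventually_ne hd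
  have h2 : (fun y => (M y)⁻¹ * M y) =ᶠ[nhds x] fun _ => (1 : Mat n) := by
    filter_upwards [hev] with y hy
    exact Matrix.nonsing_inv_mul _ (isUnit_iff_ne_zero.2 hy)
  have h3 : dd (fun y => (M y)⁻¹ * M y) i x = 0 := by
    have h5 : HasFDerivAt (fun y => (M y)⁻¹ * M y) (0 : (Fin k → ℝ) →L[ℝ] Mat n) x :=
      (hasFDerivAt_const (𝕜 := ℝ) (1 : Mat n) x).congr_of_eventuallyEq h2
    exact congrArg (fun L : (Fin k → ℝ) →L[ℝ] Mat n => L (Pi.single i 1)) h5.fderiv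
  rw [h3] at h1
  have h4 : dd (fun y => (M y)⁻¹) i x * M x = -((M x)⁻¹ * dd M i x) :=
    eq_neg_of_add_eq_zero_left h1.symm
  calc dd (fun y => (M y)⁻¹) i x = dd (fun y => (M y)⁻¹) i x * (M x * (M x)⁻¹) := by
        rw [Matrix.mul_nonsing_inv _ hu, Matrix.mul_one]
    _ = dd (fun y => (M y)⁻¹) i x * M x * (M x)⁻¹ := (Matrix.mul_assoc _ _ _).symm
    _ = _ := by rw [h4, Matrix.neg_mul]

/-- Flatness of `M⁻¹ dM`. -/
theorem flat {k n : ℕ} {M : (Fin k → ℝ) → Mat n} {x : Fin k → ℝ}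
    (hM : ContDiffAt ℝ ∞ M x) (hd : (M x).det ≠ 0) (i j : Fin k) :
    dd (om M j) i x - dd (om M i) j x = om M j x * om M i x - om M i x * om M j x := by
  have hI : ContDiffAt ℝ ∞ (fun y => (M y)⁻¹) x := contDiffAt_inv hM hd
  have key : ∀ a b : Fin k, dd (om M a) b x =
      -((M x)⁻¹ * dd M b x * (M x)⁻¹) * dd M a x + (M x)⁻¹ * dd (dd M a) b x := by
    intro a b
    have h1 : dd (om M a) b x =
        dd (fun y => (M y)⁻¹) b x * dd M a x + (M x)⁻¹ * dd (dd M a) b x :=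
      dd_mul (hI.differentiableAt (by simp)) ((contDiffAt_dd hM a).differentiableAt (by simp)) b
    rw [h1, Calc2.dd_inv hM hd]
  rw [key, key, Calc2.symm hM i j]
  unfold om
  noncomm_ring

end Pool.Agent.Lib.SkewU
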