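import Pool.Agent.Lib.MP_794fdb_gt.U.Indep1

set_option autoImplicit false

open scoped ContDiff Matrix.Norms.Elementwise
open Real Set MeasureTheory Matrix

namespace Pool.Agent.Lib.SkewU

theorem indep2_D2 {Φ : V3 → V6} (hΦ : SkewData Φ) {x : V3} (hx : x ⬝ᵥ x = 1) (v w : V3) :
    D2 Φ x v w = fderiv ℝ (fderiv ℝ Φ) x v w := by
  have hs := hΦ.smooth x (indep1_ne_zero hx)
  have hD : DifferentiableAt ℝ (fderiv ℝ Φ) x :=
    (hs.fderiv_right (m := ∞) (by simp)).differentiableAt (by simp)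
  unfold D2
  rw [fderiv_clm_apply hD (differentiableAt_const w)]
  simp

theorem indep2_symm {Φ : V3 → V6} (hΦ : SkewData Φ) {x : V3} (hx : x ⬝ᵥ x = 1) (v w : V3) :
    D2 Φ x v w = D2 Φ x w v := by
  have hs := hΦ.smooth x (indep1_ne_zero hx)
  rw [indep2_D2 hΦ hx, indep2_D2 hΦ hx]
  have h2 : minSmoothness ℝ 2 ≤ (∞ : WithTop ℕ∞) := by
    rw [minSmoothness_of_isRCLikeNormedField]
    have h3 : ((2 : ℕ∞) : WithTop ℕ∞) ≤ ((⊤ : ℕ∞) : WithTop ℕ∞) := WithTop.coe_le_coe.2 le_top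
    exact h3
  exact (hs.isSymmSndFDerivAt h2).eq v w

theorem vfr_indep {Φ : V3 → V6} (hΦ : SkewData Φ) (hN : NonSing Φ) {F : Fin 3 → V3}
    (hF : ON F) {r : ℝ} (h0 : 0 ≤ r) (h1 : r ≤ 1) : LinearIndependent ℝ (vfr Φ r F) := by
  obtain ⟨⟨a00, a11, a22⟩, a01, a10, a02, a20, a12, a21⟩ := indep1_vals hF
  rw [Fintype.linearIndependent_iff]
  intro g hg
  have hg' : g 0 • fderiv ℝ Φ (F 2) (F 0) + g 1 • fderiv ℝ Φ (F 2) (F 1) +
      g 2 • (D2 Φ (F 2) (F 0) (F 0) -
        (r / 2) • (D2 Φ (F 2) (F 0) (F 0) + D2 Φ (F 2) (F 1) (F 1))) +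
      g 3 • D2 Φ (F 2) (F 0) (F 1) = 0 := by
    rw [← hg, Fin.sum_univ_four]
    rfl
  by_cases hXY : g 2 = 0 ∧ g 3 = 0
  · obtain ⟨g2, g3⟩ := hXY
    have hu : fderiv ℝ Φ (F 2) (g 0 • F 0 + g 1 • F 1) = 0 := by
      rw [map_add, map_smul, map_smul]
      rw [g2, g3] at hg'
      simpa using hg'
    have := hΦ.fderiv_ne a22 (by
      simp [dotProduct_add, dotProduct_smul, a20, a21]) hu
    have e0 := congrArg (fun u => u ⬝ᵥ F 0) this
    have e1 := congrArg (fun u => u ⬝ᵥ F 1) this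
    simp only [add_dotProduct, smul_dotProduct, a00, a10, a01, a11, smul_eq_mul,
      zero_dotProduct] at e0 e1
    intro i
    fin_cases i
    · change g 0 = 0; linarith
    · change g 1 = 0; linarith
    · exact g2
    · exact g3
  · exfalso
    have hpos : 0 < g 2 ^ 2 + g 3 ^ 2 := by
      rcases eq_or_ne (g 2) 0 with h2 | h2
      · have h3 : g 3 ≠ 0 := fun h3 => hXY ⟨h2, h3⟩
        positivity
      · positivity
    obtain ⟨ρ, hρ, hρ2⟩ : ∃ ρ : ℝ, 0 < ρ ∧ ρ ^ 2 = g 2 ^ 2 + g 3 ^ 2 :=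
      ⟨Real.sqrt (g 2 ^ 2 + g 3 ^ 2), Real.sqrt_pos.2 hpos, Real.sq_sqrt hpos.le⟩
    obtain ⟨ψ, hψ1, hψ2⟩ : ∃ ψ : ℝ, ρ * cos ψ = g 2 ∧ ρ * sin ψ = g 3 := by
      refine ⟨Complex.arg ⟨g 2, g 3⟩, ?_, ?_⟩
      · have hn : ‖(⟨g 2, g 3⟩ : ℂ)‖ = ρ := by
          rw [Complex.norm_def, Complex.normSq_mk, ← Real.sqrt_sq hρ.le, hρ2]
          ring_nf
        rw [← hn]
        exact Complex.norm_mul_cos_arg _
      · have hn : ‖(⟨g 2, g 3⟩ : ℂ)‖ = ρ := by
          rw [Complex.norm_def, Complex.normSq_mk, ← Real.sqrt_sq hρ.le, hρ2]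
          ring_nf
        rw [← hn]
        exact Complex.norm_mul_sin_arg _
    have hle : |g 2 * (1 - r) / ρ| ≤ 1 := by
      rw [abs_div, abs_of_pos hρ, div_le_one hρ, abs_mul]
      have hA : |g 2| ≤ ρ := abs_le_of_sq_le_sq (by nlinarith) hρ.le
      have hB : |1 - r| ≤ 1 := by rw [abs_le]; constructor <;> linarith
      calc |g 2| * |1 - r| ≤ ρ * 1 := mul_le_mul hA hB (abs_nonneg _) hρ.le
        _ = ρ := mul_one _
    obtain ⟨θ, hθ⟩ : ∃ θ : ℝ, cos θ = g 2 * (1 - r) / ρ :=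
      ⟨arccos (g 2 * (1 - r) / ρ), Real.cos_arccos (abs_le.1 hle).1 (abs_le.1 hle).2⟩
    have hθ' : ρ * cos θ = g 2 * (1 - r) := by rw [hθ]; field_simp
    set a := (ψ + θ) / 2 with ha
    set b := (ψ - θ) / 2 with hb
    have hab : ψ = a + b := by rw [ha, hb]; ring
    have hab' : θ = a - b := by rw [ha, hb]; ring
    rw [hab] at hψ1 hψ2
    rw [hab'] at hθ'
    rw [cos_add] at hψ1
    rw [sin_add] at hψ2
    rw [cos_sub] at hθ'
    have hca := sin_sq_add_cos_sq a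
    have hcb := sin_sq_add_cos_sq b
    have hv0 : cos a • F 0 + sin a • F 1 ≠ 0 := by
      intro h
      have e0 := congrArg (fun u => u ⬝ᵥ F 0) h
      have e1 := congrArg (fun u => u ⬝ᵥ F 1) h
      simp only [add_dotProduct, smul_dotProduct, a00, a10, a01, a11, smul_eq_mul,
        zero_dotProduct] at e0 e1
      have c0 : cos a = 0 := by linarith
      have s0 : sin a = 0 := by linarith
      rw [c0, s0] at hca
      norm_num at hca
    have hw0 : cos b • F 0 + sin b • F 1 ≠ 0 := by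
      intro h
      have e0 := congrArg (fun u => u ⬝ᵥ F 0) h
      have e1 := congrArg (fun u => u ⬝ᵥ F 1) h
      simp only [add_dotProduct, smul_dotProduct, a00, a10, a01, a11, smul_eq_mul,
        zero_dotProduct] at e0 e1
      have c0 : cos b = 0 := by linarith
      have s0 : sin b = 0 := by linarith
      rw [c0, s0] at hcb
      norm_num at hcb
    refine hN (F 2) (cos a • F 0 + sin a • F 1) (cos b • F 0 + sin b • F 1)
      (ρ⁻¹ • (g 0 • F 0 + g 1 • F 1)) a22 ?_ ?_ ?_ hv0 hw0 ?_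
    · simp [dotProduct_add, dotProduct_smul, a20, a21]
    · simp [dotProduct_add, dotProduct_smul, a20, a21]
    · simp [dotProduct_add, dotProduct_smul, a20, a21]
    · have hD : D2 Φ (F 2) (cos a • F 0 + sin a • F 1) (cos b • F 0 + sin b • F 1) =
          (cos a * cos b) • D2 Φ (F 2) (F 0) (F 0) +
          (cos a * sin b + sin a * cos b) • D2 Φ (F 2) (F 0) (F 1) +
          (sin a * sin b) • D2 Φ (F 2) (F 1) (F 1) := by
        have hs := indep2_symm hΦ a22 (F 1) (F 0)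
        rw [indep2_D2 hΦ a22] at hs
        rw [indep2_D2 hΦ a22, indep2_D2 hΦ a22 (F 0) (F 0), indep2_D2 hΦ a22 (F 1) (F 1)]
        simp only [map_add, map_smul, _root_.add_apply, _root_.smul_apply, hs]
        rw [indep2_D2 hΦ a22 (F 0) (F 1)]
        module
      have hmul : ρ • (D2 Φ (F 2) (cos a • F 0 + sin a • F 1) (cos b • F 0 + sin b • F 1) +
          fderiv ℝ Φ (F 2) (ρ⁻¹ • (g 0 • F 0 + g 1 • F 1))) = 0 := by
        rw [← hg', hD, map_smul, map_add, map_smul, map_smul, smul_add ρ, smul_smul ρ ρ⁻¹,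
          mul_inv_cancel₀ hρ.ne', one_smul]
        have c1 : ρ * (cos a * cos b) = g 2 * (1 - r / 2) := by linarith
        have c2 : ρ * (cos a * sin b + sin a * cos b) = g 3 := by linarith
        have c3 : ρ * (sin a * sin b) = -(g 2 * (r / 2)) := by linarith
        rw [smul_add, smul_add, smul_smul, smul_smul, smul_smul, c1, c2, c3]
        module
      rcases smul_eq_zero.1 hmul with h | h
      · exact absurd h hρ.ne'
      · exact h

end Pool.Agent.Lib.SkewU
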