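import Pool.Agent.Lib.MP_794fdb_gt.U.FrSm
import Pool.Agent.Lib.MP_794fdb_gt.U.Indep1

set_option autoImplicit false

open scoped ContDiff Matrix.Norms.Elementwise
open Real Set MeasureTheory Matrix

namespace Pool.Agent.Lib.SkewU

/-- Symmetric means and symmetric difference quotients converge uniformly on the box. -/
theorem unif_quot {G : ℝ × P3 → V6} (hG : ContDiff ℝ ∞ G) {δ : ℝ} (hδ : 0 < δ) :
    ∃ ε > 0, ∀ t, 0 < t → t < ε → ∀ p ∈ Icc (0 : P3) (fun _ => 2 * π),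
      ‖(1 / 2 : ℝ) • (G (t, p) + G (-t, p)) - G (0, p)‖ ≤ δ ∧
      ‖(1 / (2 * t)) • (G (t, p) - G (-t, p)) - fderiv ℝ G (0, p) (1, 0)‖ ≤ δ := by
  set K : Set (ℝ × P3) := Icc (-1 : ℝ) 1 ×ˢ Icc (0 : P3) (fun _ => 2 * π) with hK
  have hKc : IsCompact K := isCompact_Icc.prod isCompact_Icc
  have hD : Continuous fun x => fderiv ℝ G x ((1, 0) : ℝ × P3) :=
    (hG.continuous_fderiv (by simp)).clm_apply continuous_const
  obtain ⟨ε₁, hε₁, h₁⟩ := Metric.uniformContinuousOn_iff.1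
    (hKc.uniformContinuousOn_of_continuous hG.continuous.continuousOn) δ hδ
  obtain ⟨ε₂, hε₂, h₂⟩ := Metric.uniformContinuousOn_iff.1
    (hKc.uniformContinuousOn_of_continuous hD.continuousOn) δ hδ
  refine ⟨min 1 (min ε₁ ε₂), by positivity, fun t ht htε p hp => ?_⟩
  have ht1 : t < 1 := lt_of_lt_of_le htε (min_le_left _ _)
  have ht2 : t < ε₁ := lt_of_lt_of_le htε ((min_le_right _ _).trans (min_le_left _ _))
  have ht3 : t < ε₂ := lt_of_lt_of_le htε ((min_le_right _ _).trans (min_le_right _ _))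
  have hmem : ∀ s : ℝ, |s| ≤ t → (s, p) ∈ K := fun s hs =>
    ⟨⟨by linarith [(abs_le.1 hs).1], by linarith [(abs_le.1 hs).2]⟩, hp⟩
  have hdist : ∀ s : ℝ, |s| ≤ t → dist ((s, p) : ℝ × P3) (0, p) ≤ t := by
    intro s hs
    rw [Prod.dist_eq]
    simp only [dist_self, Real.dist_eq, sub_zero]
    exact max_le hs ht.le
  have h0 : |(0 : ℝ)| ≤ t := by simpa using ht.le
  constructor
  · have e1 : ‖G (t, p) - G (0, p)‖ < δ := by
      rw [← dist_eq_norm]
      exact h₁ _ (hmem t (abs_of_pos ht).le) _ (hmem 0 h0)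
        (lt_of_le_of_lt (hdist t (abs_of_pos ht).le) ht2)
    have e2 : ‖G (-t, p) - G (0, p)‖ < δ := by
      rw [← dist_eq_norm]
      have h3 : |(-t)| ≤ t := by rw [abs_neg, abs_of_pos ht]
      exact h₁ _ (hmem (-t) h3) _ (hmem 0 h0) (lt_of_le_of_lt (hdist (-t) h3) ht2)
    have e3 : (1 / 2 : ℝ) • (G (t, p) + G (-t, p)) - G (0, p) =
        (1 / 2 : ℝ) • ((G (t, p) - G (0, p)) + (G (-t, p) - G (0, p))) := by
      module
    rw [e3, norm_smul]
    have e4 := norm_add_le (G (t, p) - G (0, p)) (G (-t, p) - G (0, p))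
    have e5 : ‖(1 / 2 : ℝ)‖ = 1 / 2 := by norm_num
    rw [e5]
    linarith
  · set d : V6 := fderiv ℝ G (0, p) (1, 0) with hd
    have hder : ∀ s : ℝ, HasDerivAt (fun s : ℝ => G (s, p) - s • d)
        (fderiv ℝ G (s, p) (1, 0) - d) s := by
      intro s
      have e1 : HasDerivAt (fun s : ℝ => G (s, p)) (fderiv ℝ G (s, p) (1, 0)) s := by
        have e2 : HasDerivAt (fun s : ℝ => ((s, p) : ℝ × P3)) ((1, 0) : ℝ × P3) s :=
          (hasDerivAt_id s).prodMk (hasDerivAt_const s p)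
        exact (hG.differentiable (by simp) (s, p)).hasFDerivAt.comp_hasDerivAt s e2
      have e3 : HasDerivAt (fun s : ℝ => s • d) d s := by
        simpa using (hasDerivAt_id s).smul_const d
      exact e1.sub e3
    have hbd : ∀ s ∈ Icc (-t) t, ‖fderiv ℝ G (s, p) (1, 0) - d‖ ≤ δ := by
      intro s hs
      have hs' : |s| ≤ t := abs_le.2 hs
      rw [hd, ← dist_eq_norm]
      exact (h₂ _ (hmem s hs') _ (hmem 0 h0) (lt_of_le_of_lt (hdist s hs') ht3)).le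
    have hmv := (convex_Icc (-t) t).norm_image_sub_le_of_norm_hasDerivWithin_le
      (fun s _ => (hder s).hasDerivWithinAt) hbd
      (left_mem_Icc.2 (by linarith)) (right_mem_Icc.2 (by linarith))
    have e1 : (1 / (2 * t)) • (G (t, p) - G (-t, p)) - d =
        (1 / (2 * t)) • ((G (t, p) - t • d) - (G (-t, p) - (-t) • d)) := by
      have : (1 / (2 * t)) • ((2 * t) • d) = d := by
        rw [smul_smul, one_div_mul_cancel (by positivity), one_smul]
      calc (1 / (2 * t)) • (G (t, p) - G (-t, p)) - d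
          = (1 / (2 * t)) • (G (t, p) - G (-t, p)) - (1 / (2 * t)) • ((2 * t) • d) := by
            rw [this]
        _ = _ := by
            rw [← smul_sub]
            congr 1
            module
    rw [e1, norm_smul]
    have e2 : ‖(1 / (2 * t) : ℝ)‖ = 1 / (2 * t) := by
      rw [Real.norm_eq_abs, abs_of_pos (by positivity)]
    have e3 : ‖t - -t‖ = 2 * t := by
      rw [Real.norm_eq_abs, abs_of_pos (by linarith)]; ring
    rw [e3] at hmv
    rw [e2]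
    calc 1 / (2 * t) * ‖(G (t, p) - t • d) - (G (-t, p) - (-t) • d)‖
        ≤ 1 / (2 * t) * (δ * (2 * t)) := by
          apply mul_le_mul_of_nonneg_left hmv (by positivity)
      _ = δ := by field_simp

theorem ON_ne {F : Fin 3 → V3} (hF : ON F) (i : Fin 3) : F i ≠ 0 := by
  intro h
  have h1 := hF i i
  rw [h] at h1
  simp at h1

theorem hasDerivAt_pt (F : Fin 3 → V3) (t : ℝ) : HasDerivAt (fun t => pt t F) (vt t F) t := by
  unfold pt vt
  exact ((hasDerivAt_cos t).smul_const (F 2)).add ((hasDerivAt_sin t).smul_const (F 0))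

theorem hasDerivAt_vt (F : Fin 3 → V3) (t : ℝ) : HasDerivAt (fun t => vt t F) (-(pt t F)) t := by
  unfold pt vt
  have h := ((hasDerivAt_sin t).neg.smul_const (F 2)).add ((hasDerivAt_cos t).smul_const (F 0))
  refine h.congr_deriv ?_
  module

theorem pt_zero (F : Fin 3 → V3) : pt 0 F = F 2 := by simp [pt]

theorem vt_zero (F : Fin 3 → V3) : vt 0 F = F 0 := by simp [vt]

theorem D2_eq {Φ : V3 → V6} {x : V3} (h : ContDiffAt ℝ ∞ Φ x) (v w : V3) :
    D2 Φ x v w = fderiv ℝ (fderiv ℝ Φ) x v w := by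
  have h1 : ContDiffAt ℝ ∞ (fderiv ℝ Φ) x := h.fderiv_right (by simp)
  have h2 := (h1.differentiableAt (by simp)).hasFDerivAt
  have h3 : HasFDerivAt (fun q => fderiv ℝ Φ q w)
      ((fderiv ℝ (fderiv ℝ Φ) x).flip w) x := by
    simpa using h2.clm_apply (hasFDerivAt_const w x)
  unfold D2
  rw [h3.fderiv]
  rfl

theorem hasDerivAt_fr0 {Φ : V3 → V6} (hΦ : SkewData Φ) {F : Fin 3 → V3} (hF : ON F) :
    HasDerivAt (fun t => fr Φ t F 0) (D2 Φ (F 2) (F 0) (F 0)) 0 := by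
  have hs := hΦ.smooth _ (ON_ne hF 2)
  have h1 : ContDiffAt ℝ ∞ (fderiv ℝ Φ) (F 2) := hs.fderiv_right (by simp)
  have h2 := (h1.differentiableAt (by simp)).hasFDerivAt
  rw [← pt_zero F] at h2
  have h3 := h2.comp_hasDerivAt 0 (hasDerivAt_pt F 0)
  have h4 := h3.clm_apply (hasDerivAt_vt F 0)
  have h5 : fderiv ℝ Φ (F 2) (F 2) = 0 := hΦ.fderiv_self (by simpa using hF 2 2)
  rw [D2_eq hs]
  refine h4.congr_deriv ?_
  simp only [Function.comp, pt_zero, vt_zero, map_neg, h5, neg_zero, add_zero]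

theorem hasDerivAt_fr1 {Φ : V3 → V6} (hΦ : SkewData Φ) {F : Fin 3 → V3} (hF : ON F) :
    HasDerivAt (fun t => fr Φ t F 1) (D2 Φ (F 2) (F 0) (F 1)) 0 := by
  have hs := hΦ.smooth _ (ON_ne hF 2)
  have h1 : ContDiffAt ℝ ∞ (fderiv ℝ Φ) (F 2) := hs.fderiv_right (by simp)
  have h2 := (h1.differentiableAt (by simp)).hasFDerivAt
  rw [← pt_zero F] at h2
  have h3 := h2.comp_hasDerivAt 0 (hasDerivAt_pt F 0)
  have h4 := h3.clm_apply (hasDerivAt_const 0 (F 1))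
  rw [D2_eq hs]
  refine h4.congr_deriv ?_
  simp only [pt_zero, vt_zero, map_zero, add_zero]

theorem ufr_limit {Φ : V3 → V6} (hΦ : SkewData Φ) {δ : ℝ} (hδ : 0 < δ) :
    ∃ ε > 0, ∀ t, 0 < t → t < ε → ∀ p, ‖ufr Φ t (S p) - vfr Φ 0 (S p)‖ ≤ δ := by
  have hsm : ContDiff ℝ ∞ (fun x : ℝ × P3 => fr Φ x.1 (S x.2)) := by
    rw [contDiff_iff_contDiffAt]
    rintro ⟨s, p⟩
    exact (fr_fam hΦ s s id contDiff_id).1 s (by simp) p
  have h0 : ContDiff ℝ ∞ (fun x : ℝ × P3 => fr Φ x.1 (S x.2) 0) := contDiff_pi.1 hsm 0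
  have h1 : ContDiff ℝ ∞ (fun x : ℝ × P3 => fr Φ x.1 (S x.2) 1) := contDiff_pi.1 hsm 1
  obtain ⟨ε₀, hε₀, H0⟩ := unif_quot h0 hδ
  obtain ⟨ε₁, hε₁, H1⟩ := unif_quot h1 hδ
  have hd0 : ∀ p : P3, fderiv ℝ (fun x : ℝ × P3 => fr Φ x.1 (S x.2) 0) (0, p) (1, 0) =
      D2 Φ (S p 2) (S p 0) (S p 0) := by
    intro p
    have e2 : HasDerivAt (fun s : ℝ => ((s, p) : ℝ × P3)) ((1, 0) : ℝ × P3) 0 :=
      (hasDerivAt_id 0).prodMk (hasDerivAt_const 0 p)
    have e3 := (h0.differentiable (by simp) (0, p)).hasFDerivAt.comp_hasDerivAt 0 e2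
    exact e3.unique (hasDerivAt_fr0 hΦ (S_ON p))
  have hd1 : ∀ p : P3, fderiv ℝ (fun x : ℝ × P3 => fr Φ x.1 (S x.2) 1) (0, p) (1, 0) =
      D2 Φ (S p 2) (S p 0) (S p 1) := by
    intro p
    have e2 : HasDerivAt (fun s : ℝ => ((s, p) : ℝ × P3)) ((1, 0) : ℝ × P3) 0 :=
      (hasDerivAt_id 0).prodMk (hasDerivAt_const 0 p)
    have e3 := (h1.differentiable (by simp) (0, p)).hasFDerivAt.comp_hasDerivAt 0 e2
    exact e3.unique (hasDerivAt_fr1 hΦ (S_ON p))
  refine ⟨min ε₀ ε₁, lt_min hε₀ hε₁, fun t ht htε p => ?_⟩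
  obtain ⟨q, hq, hqp⟩ := S_box p
  rw [← hqp]
  obtain ⟨a0, b0⟩ := H0 t ht (lt_of_lt_of_le htε (min_le_left _ _)) q hq
  obtain ⟨a1, b1⟩ := H1 t ht (lt_of_lt_of_le htε (min_le_right _ _)) q hq
  rw [hd0] at b0
  rw [hd1] at b1
  rw [pi_norm_le_iff_of_nonneg hδ.le]
  intro i
  fin_cases i
  · simpa [ufr, vfr, fr, pt_zero, vt_zero] using a0
  · simpa [ufr, vfr, fr, pt_zero, vt_zero] using a1
  · simpa [ufr, vfr, fr, pt_zero, vt_zero] using b0
  · simpa [ufr, vfr, fr, pt_zero, vt_zero] using b1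

theorem indep_uniform (v : P3 → Fin 4 → V6) (hv : Nice v)
    (hli : ∀ p, LinearIndependent ℝ (v p)) :
    ∃ δ > 0, ∀ p, ∀ u : Fin 4 → V6, ‖u - v p‖ ≤ δ → LinearIndependent ℝ u := by
  set B : Set P3 := Icc (0 : P3) (fun _ => 2 * π) with hB
  have hc : IsCompact (v '' B) := isCompact_Icc.image hv.1.continuous
  have ho : IsOpen {u : Fin 4 → V6 | LinearIndependent ℝ u} :=
    isOpen_setOfPred_linearIndependent
  obtain ⟨δ, hδ, hsub⟩ := hc.exists_cthickening_subset_open ho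
    (by rintro _ ⟨p, -, rfl⟩; exact hli p)
  refine ⟨δ, hδ, fun p u hu => ?_⟩
  obtain ⟨q, hq, hqp⟩ := S_box p
  rw [← hv.2 q p hqp] at hu
  refine hsub (Metric.mem_cthickening_of_dist_le u (v q) δ _ ⟨q, hq, rfl⟩ ?_)
  rwa [dist_eq_norm]

end Pool.Agent.Lib.SkewU
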