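import Pool.Agent.Lib.MP_794fdb_gt.U.Fam
import Pool.Agent.Lib.MP_794fdb_gt.U.Basic

set_option autoImplicit false

open scoped ContDiff Matrix.Norms.Elementwise
open Real Set MeasureTheory Matrix

namespace Pool.Agent.Lib.SkewU

/-- Upper triangular change of the last two columns. -/
def OT (x y z : ℝ) : Mat 6 :=
  !![1, 0, 0, 0, 0, 0; 0, 1, 0, 0, 0, 0; 0, 0, 1, 0, 0, 0; 0, 0, 0, 1, 0, 0; 0, 0, 0, 0, x, y;
    0, 0, 0, 0, 0, z]

theorem OT_det (x y z : ℝ) : (OT x y z).det = x * z := by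
  rw [Matrix.det_of_upperTriangular]
  · simp [OT, Fin.prod_univ_succ]
  · intro i j hij
    simp only [id] at hij
    fin_cases i <;> fin_cases j <;> first | rfl | (exfalso; revert hij; decide)

theorem OT_mul (a : Fin 4 → V6) (b : Fin 2 → V6) (x y z : ℝ) :
    toM (app a ![x • b 0, y • b 0 + z • b 1]) = toM (app a b) * OT x y z := by
  ext i j
  fin_cases j <;>
    simp [toM, app, OT, Matrix.mul_apply, Fin.sum_univ_succ, mul_comm]

theorem ortho_det (a : Fin 4 → V6) (b : Fin 2 → V6) (x y z : ℝ) :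
    (toM (app a ![x • b 0, y • b 0 + z • b 1])).det = (toM (app a b)).det * (x * z) := by
  rw [OT_mul, Matrix.det_mul, OT_det]

theorem ortho_dot_self {x : V6} (hx : x ≠ 0) : 0 < x ⬝ᵥ x := by
  rcases lt_or_eq_of_le (show 0 ≤ x ⬝ᵥ x from by
    rw [dotProduct]; exact Finset.sum_nonneg fun i _ => mul_self_nonneg _) with h | h
  · exact h
  · exact absurd (dotProduct_self_eq_zero.mp h.symm) hx

theorem ortho_contDiff_dot {f g : P3 → V6} (hf : ContDiff ℝ ∞ f) (hg : ContDiff ℝ ∞ g) :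
    ContDiff ℝ ∞ (fun p => f p ⬝ᵥ g p) := by
  unfold dotProduct
  apply ContDiff.sum
  intro i _
  exact (contDiff_pi.mp hf i).mul (contDiff_pi.mp hg i)

theorem ortho (a : P3 → Fin 4 → V6) (ha : Nice a) (b : P3 → Fin 2 → V6) (hb : Nice b)
    (hd : ∀ p, (toM (app (a p) (b p))).det ≠ 0) (hab : ∀ p i j, a p i ⬝ᵥ b p j = 0) :
    ∃ c : P3 → Fin 2 → V6, Nice c ∧ (∀ p, (toM (app (a p) (c p))).det ≠ 0) ∧
      (∀ p i j, a p i ⬝ᵥ c p j = 0) ∧ (∀ p i j, c p i ⬝ᵥ c p j = if i = j then 1 else 0) ∧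
      CS (fun p => toM (app (a p) (b p))) = CS (fun p => toM (app (a p) (c p))) := by
  -- nonvanishing
  have hb0 : ∀ p, b p 0 ≠ 0 := by
    intro p h
    apply hd p
    have h1 := ortho_det (a p) (b p) 0 0 1
    have h2 : (![(0 : ℝ) • b p 0, (0 : ℝ) • b p 0 + (1 : ℝ) • b p 1] : Fin 2 → V6) = b p := by
      ext j i
      fin_cases j
      · simp [h]
      · simp
    rw [h2] at h1
    rw [h1]; ring
  set u : P3 → ℝ := fun p => b p 0 ⬝ᵥ b p 0 with hu
  set v : P3 → ℝ := fun p => b p 0 ⬝ᵥ b p 1 with hv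
  have hupos : ∀ p, 0 < u p := fun p => ortho_dot_self (hb0 p)
  set e : P3 → V6 := fun p => -(v p) • b p 0 + u p • b p 1 with he
  have he0 : ∀ p, e p ≠ 0 := by
    intro p h
    have h1 := ortho_det (a p) (b p) 1 (-(v p)) (u p)
    have h2 : (![(1 : ℝ) • b p 0, -(v p) • b p 0 + u p • b p 1] : Fin 2 → V6)
        = ![b p 0, 0] := by
      rw [one_smul]
      have : -(v p) • b p 0 + u p • b p 1 = 0 := h
      rw [this]
    rw [h2] at h1
    have h3 := ortho_det (a p) ![b p 0, 0] 1 0 0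
    have h4 : (![(1 : ℝ) • (![b p 0, 0] : Fin 2 → V6) 0,
        (0 : ℝ) • (![b p 0, 0] : Fin 2 → V6) 0 + (0 : ℝ) • (![b p 0, 0] : Fin 2 → V6) 1] :
        Fin 2 → V6) = ![b p 0, 0] := by
      ext j i
      fin_cases j <;> simp
    rw [h4] at h3
    rw [h3] at h1
    have h5 : (toM (app (a p) (b p))).det * (1 * u p) = 0 := by rw [← h1]; ring
    rcases mul_eq_zero.mp h5 with h6 | h6
    · exact hd p h6
    · rw [one_mul] at h6; exact (hupos p).ne' h6
  set N : P3 → ℝ := fun p => e p ⬝ᵥ e p with hN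
  have hNpos : ∀ p, 0 < N p := fun p => ortho_dot_self (he0 p)
  -- smoothness
  have hbc : ∀ j, ContDiff ℝ ∞ (fun p => b p j) := fun j => contDiff_pi.mp hb.1 j
  have huc : ContDiff ℝ ∞ u := ortho_contDiff_dot (hbc 0) (hbc 0)
  have hvc : ContDiff ℝ ∞ v := ortho_contDiff_dot (hbc 0) (hbc 1)
  have hec : ContDiff ℝ ∞ e := (hvc.neg.smul (hbc 0)).add (huc.smul (hbc 1))
  have hNc : ContDiff ℝ ∞ N := ortho_contDiff_dot hec hec
  have hsu : ContDiff ℝ ∞ (fun p => (√(u p))⁻¹) := by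
    apply ContDiff.inv
    · exact huc.sqrt (fun p => (hupos p).ne')
    · intro p; exact (Real.sqrt_pos.mpr (hupos p)).ne'
  have hsN : ContDiff ℝ ∞ (fun p => (√(N p))⁻¹) := by
    apply ContDiff.inv
    · exact hNc.sqrt (fun p => (hNpos p).ne')
    · intro p; exact (Real.sqrt_pos.mpr (hNpos p)).ne'
  have hup : ∀ p q, S p = S q → u p = u q := by
    intro p q h; simp only [hu, hb.2 p q h]
  have hvp : ∀ p q, S p = S q → v p = v q := by
    intro p q h; simp only [hv, hb.2 p q h]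
  have hNp : ∀ p q, S p = S q → N p = N q := by
    intro p q h; simp only [hN, he, hup p q h, hvp p q h, hb.2 p q h]
  -- the family
  set x : ℝ → P3 → ℝ := fun r p => (1 - r) + r * (√(u p))⁻¹ with hx
  set y : ℝ → P3 → ℝ := fun r p => r * ((√(N p))⁻¹ * -(v p)) with hy
  set z : ℝ → P3 → ℝ := fun r p => (1 - r) + r * ((√(N p))⁻¹ * u p) with hz
  set C : ℝ → P3 → Fin 2 → V6 := fun r p => ![x r p • b p 0, y r p • b p 0 + z r p • b p 1]
    with hC
  have hxpos : ∀ r ∈ Icc (0 : ℝ) 1, ∀ p, 0 < x r p := by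
    intro r hr p
    have h1 : 0 < (√(u p))⁻¹ := inv_pos.mpr (Real.sqrt_pos.mpr (hupos p))
    simp only [hx]
    rcases eq_or_lt_of_le hr.2 with h | h
    · rw [h]; linarith
    · have := mul_nonneg hr.1 h1.le
      linarith
  have hzpos : ∀ r ∈ Icc (0 : ℝ) 1, ∀ p, 0 < z r p := by
    intro r hr p
    have h1 : 0 < (√(N p))⁻¹ * u p := mul_pos (inv_pos.mpr (Real.sqrt_pos.mpr (hNpos p))) (hupos p)
    simp only [hz]
    rcases eq_or_lt_of_le hr.2 with h | h
    · rw [h]; linarith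
    · have := mul_nonneg hr.1 h1.le
      linarith
  have hCfam : NiceFam 0 1 C := by
    constructor
    · intro s _ p
      have h2 : ContDiff ℝ ∞ (fun q : ℝ × P3 => C q.1 q.2) := by
        rw [contDiff_pi]
        intro j
        have hfst : ContDiff ℝ ∞ (fun q : ℝ × P3 => q.1) := contDiff_fst
        have hx' : ContDiff ℝ ∞ (fun q : ℝ × P3 => x q.1 q.2) :=
          (contDiff_const.sub hfst).add (hfst.mul (hsu.comp contDiff_snd))
        have hy' : ContDiff ℝ ∞ (fun q : ℝ × P3 => y q.1 q.2) :=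
          hfst.mul ((hsN.mul hvc.neg).comp contDiff_snd)
        have hz' : ContDiff ℝ ∞ (fun q : ℝ × P3 => z q.1 q.2) :=
          (contDiff_const.sub hfst).add (hfst.mul ((hsN.mul huc).comp contDiff_snd))
        have hb0' : ContDiff ℝ ∞ (fun q : ℝ × P3 => b q.2 0) := (hbc 0).comp contDiff_snd
        have hb1' : ContDiff ℝ ∞ (fun q : ℝ × P3 => b q.2 1) := (hbc 1).comp contDiff_snd
        fin_cases j
        · exact hx'.smul hb0'
        · exact (hy'.smul hb0').add (hz'.smul hb1')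
      exact h2.contDiffAt
    · intro s _ p q h
      simp only [hC, hx, hy, hz, hup p q h, hvp p q h, hNp p q h, hb.2 p q h]
  refine ⟨C 1, hCfam.nice (by norm_num), ?_, ?_, ?_, ?_⟩
  · intro p
    simp only [hC]
    rw [ortho_det]
    exact mul_ne_zero (hd p) (mul_pos (hxpos 1 (by norm_num) p) (hzpos 1 (by norm_num) p)).ne'
  · intro p i j
    fin_cases j
    · simp [hC, dotProduct_smul, hab]
    · simp [hC, dotProduct_smul, dotProduct_add, hab]
  · -- orthonormality
    intro p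
    have hsu2 : √(u p) * √(u p) = u p := Real.mul_self_sqrt (hupos p).le
    have hsN2 : √(N p) * √(N p) = N p := Real.mul_self_sqrt (hNpos p).le
    have hsu0 : √(u p) ≠ 0 := (Real.sqrt_pos.mpr (hupos p)).ne'
    have hsN0 : √(N p) ≠ 0 := (Real.sqrt_pos.mpr (hNpos p)).ne'
    have e0 : C 1 p 0 = (√(u p))⁻¹ • b p 0 := by
      simp [hC, hx]
    have e1 : C 1 p 1 = (√(N p))⁻¹ • e p := by
      simp only [hC, hy, hz, he, Matrix.cons_val_one, Matrix.cons_val_fin_one, smul_add, smul_smul]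
      congr 1
      · congr 1; ring
      · congr 1; ring
    have h00 : C 1 p 0 ⬝ᵥ C 1 p 0 = 1 := by
      rw [e0, smul_dotProduct, dotProduct_smul, smul_eq_mul, smul_eq_mul]
      have : b p 0 ⬝ᵥ b p 0 = u p := rfl
      rw [this]
      field_simp
      rw [sq]; exact hsu2.symm
    have h11 : C 1 p 1 ⬝ᵥ C 1 p 1 = 1 := by
      rw [e1, smul_dotProduct, dotProduct_smul, smul_eq_mul, smul_eq_mul]
      have : e p ⬝ᵥ e p = N p := rfl
      rw [this]
      field_simp
      rw [sq]; exact hsN2.symm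
    have hbe : b p 0 ⬝ᵥ e p = 0 := by
      simp only [he, dotProduct_add, dotProduct_smul, smul_eq_mul]
      have h1 : b p 0 ⬝ᵥ b p 0 = u p := rfl
      have h2 : b p 0 ⬝ᵥ b p 1 = v p := rfl
      rw [h1, h2]; ring
    have h01 : C 1 p 0 ⬝ᵥ C 1 p 1 = 0 := by
      rw [e0, e1, smul_dotProduct, dotProduct_smul, hbe]; simp
    have h10 : C 1 p 1 ⬝ᵥ C 1 p 0 = 0 := by
      rw [dotProduct_comm, h01]
    intro i j
    fin_cases i <;> fin_cases j
    · simpa using h00
    · simpa using h01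
    · simpa using h10
    · simpa using h11
  · have hM : NiceFam 0 1 (fun s p => toM (app (a p) (C s p))) :=
      app_fam (ha.fam 0 1) hCfam
    have h1 := CS_fam (zero_le_one) (fun s p => toM (app (a p) (C s p))) hM (by
      intro s hs p
      simp only [hC]
      rw [ortho_det]
      exact mul_ne_zero (hd p) (mul_pos (hxpos s hs p) (hzpos s hs p)).ne')
    have h0 : C 0 = b := by
      funext p j
      fin_cases j
      · simp [hC, hx]
      · simp [hC, hy, hz]
    rw [h0] at h1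
    exact h1

end Pool.Agent.Lib.SkewU
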