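import Pool.Agent.Lib.MP_794fdb_gt.U.FrSm

set_option autoImplicit false

open scoped ContDiff Matrix.Norms.Elementwise
open Real Set MeasureTheory Matrix

namespace Pool.Agent.Lib.SkewU

/-- The infinitesimal rotation of the limit frame. -/
def D4 : Mat 4 := !![0, -1, 0, 0; 1, 0, 0, 0; 0, 0, 0, -2; 0, 0, 2, 0]

theorem S_turn (p : P3) (τ : ℝ) : S (p + τ • Pi.single 2 1) =
    ![cos τ • S p 0 + sin τ • S p 1, -(sin τ) • S p 0 + cos τ • S p 1, S p 2] := by
  have h0 : (p + τ • Pi.single 2 1 : P3) 0 = p 0 := by simp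
  have h1 : (p + τ • Pi.single 2 1 : P3) 1 = p 1 := by simp
  have h2 : (p + τ • Pi.single 2 1 : P3) 2 = p 2 + τ := by simp
  funext j i
  fin_cases j <;> fin_cases i <;>
    simp [S, h0, h1, h2, Real.cos_add, Real.sin_add] <;> ring

theorem D2_eq {Φ : V3 → V6} {x : V3} (h : ContDiffAt ℝ ∞ Φ x) (v w : V3) :
    D2 Φ x v w = (fderiv ℝ (fderiv ℝ Φ) x v) w := by
  have h1 : ContDiffAt ℝ ∞ (fderiv ℝ Φ) x := h.fderiv_right (m := ∞) (by simp)
  have h2 : DifferentiableAt ℝ (fderiv ℝ Φ) x := h1.differentiableAt (by simp)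
  unfold D2
  rw [fderiv_clm_apply h2 (differentiableAt_const w)]
  simp

theorem D2_symm {Φ : V3 → V6} {x : V3} (h : ContDiffAt ℝ ∞ Φ x) (v w : V3) :
    D2 Φ x v w = D2 Φ x w v := by
  rw [D2_eq h, D2_eq h]
  refine (h.isSymmSndFDerivAt ?_).eq v w
  rw [minSmoothness_of_isRCLikeNormedField]
  exact WithTop.coe_le_coe.2 (le_top : (2 : ℕ∞) ≤ ⊤)

theorem D2_comb {Φ : V3 → V6} {x : V3} (h : ContDiffAt ℝ ∞ Φ x) (a b c d : ℝ) (v w : V3) :
    D2 Φ x (a • v + b • w) (c • v + d • w) =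
      (a * c) • D2 Φ x v v + (a * d + b * c) • D2 Φ x v w + (b * d) • D2 Φ x w w := by
  have hs := D2_symm h w v
  simp only [D2_eq h, map_add, map_smul, _root_.add_apply, _root_.smul_apply] at hs ⊢
  rw [hs]
  module

theorem vfr_equi {Φ : V3 → V6} (hΦ : SkewData Φ) (p : P3) :
    toM (dd (fun p => vfr Φ 1 (S p)) 2 p) = toM (vfr Φ 1 (S p)) * D4 := by
  set g : P3 → Fin 4 → V6 := fun p => vfr Φ 1 (S p) with hg
  have hn : Nice g := by
    have h := vfr_fam hΦ 0 1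
    refine ⟨contDiff_iff_contDiffAt.2 fun q => ?_, fun q r hqr => ?_⟩
    · have h1 : ContDiffAt ℝ ∞ (fun x : ℝ × P3 => vfr Φ x.1 (S x.2)) ((fun q : P3 => ((1 : ℝ), q)) q) :=
        h.1 1 (right_mem_Icc.2 zero_le_one) q
      exact h1.comp q (contDiffAt_const.prodMk contDiffAt_id)
    · simp only [hg, hqr]
  have hm : S p 2 ≠ 0 := by
    intro h0
    have := S_ON p 2 2
    rw [h0] at this
    simp at this
  have hsm := hΦ.smooth _ hm
  set v := vfr Φ 1 (S p) with hv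
  -- the curve
  have hcurve : ∀ τ : ℝ, g (p + τ • Pi.single 2 1) =
      ![cos τ • v 0 + sin τ • v 1, -(sin τ) • v 0 + cos τ • v 1,
        cos (2 * τ) • v 2 + sin (2 * τ) • v 3, -(sin (2 * τ)) • v 2 + cos (2 * τ) • v 3] := by
    intro τ
    simp only [hg, S_turn]
    have e0 : v 0 = fderiv ℝ Φ (S p 2) (S p 0) := rfl
    have e1 : v 1 = fderiv ℝ Φ (S p 2) (S p 1) := rfl
    have e2 : v 2 = D2 Φ (S p 2) (S p 0) (S p 0) -
        ((1 : ℝ) / 2) • (D2 Φ (S p 2) (S p 0) (S p 0) + D2 Φ (S p 2) (S p 1) (S p 1)) := rfl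
    have e3 : v 3 = D2 Φ (S p 2) (S p 0) (S p 1) := rfl
    have hc2 : cos (2 * τ) = cos τ ^ 2 - sin τ ^ 2 := Real.cos_two_mul' τ
    have hs2 : sin (2 * τ) = 2 * sin τ * cos τ := Real.sin_two_mul τ
    have hone : sin τ ^ 2 + cos τ ^ 2 = 1 := Real.sin_sq_add_cos_sq τ
    funext j
    fin_cases j
    · simp [vfr, e0, e1]
    · simp [vfr, e0, e1]
    · simp only [vfr, Matrix.cons_val, Matrix.cons_val_zero, Matrix.cons_val_one]
      show D2 Φ (S p 2) (cos τ • S p 0 + sin τ • S p 1) (cos τ • S p 0 + sin τ • S p 1) -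
        ((1 : ℝ) / 2) • (D2 Φ (S p 2) (cos τ • S p 0 + sin τ • S p 1)
          (cos τ • S p 0 + sin τ • S p 1) + D2 Φ (S p 2) (-(sin τ) • S p 0 + cos τ • S p 1)
          (-(sin τ) • S p 0 + cos τ • S p 1)) = cos (2 * τ) • v 2 + sin (2 * τ) • v 3
      rw [D2_comb hsm, D2_comb hsm, e2, e3, hc2, hs2]
      ext i
      simp only [Pi.add_apply, Pi.sub_apply, Pi.smul_apply, smul_eq_mul]
      ring
    · simp only [vfr, Matrix.cons_val, Matrix.cons_val_zero, Matrix.cons_val_one]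
      show D2 Φ (S p 2) (cos τ • S p 0 + sin τ • S p 1) (-(sin τ) • S p 0 + cos τ • S p 1) =
        -(sin (2 * τ)) • v 2 + cos (2 * τ) • v 3
      rw [D2_comb hsm, e2, e3, hc2, hs2]
      ext i
      simp only [Pi.add_apply, Pi.sub_apply, Pi.smul_apply, smul_eq_mul]
      ring
  have hder : HasDerivAt (fun τ : ℝ => g (p + τ • Pi.single 2 1)) (dd g 2 p) 0 := by
    have h1 : HasFDerivAt g (fderiv ℝ g p) (p + (0 : ℝ) • Pi.single 2 1) := by
      rw [zero_smul, add_zero]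
      exact (hn.1.differentiable (by simp) p).hasFDerivAt
    have h2 : HasDerivAt (fun τ : ℝ => p + τ • (Pi.single 2 1 : P3)) (Pi.single 2 1) 0 := by
      have := ((hasDerivAt_id (0 : ℝ)).smul_const (Pi.single 2 1 : P3)).const_add p
      simpa using this
    exact h1.comp_hasDerivAt (0 : ℝ) h2
  have hder2 : HasDerivAt (fun τ : ℝ => g (p + τ • Pi.single 2 1))
      ![v 1, -v 0, (2 : ℝ) • v 3, -((2 : ℝ) • v 2)] 0 := by
    have heq : (fun τ : ℝ => g (p + τ • Pi.single 2 1)) = fun τ : ℝ =>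
      ![cos τ • v 0 + sin τ • v 1, -(sin τ) • v 0 + cos τ • v 1,
        cos (2 * τ) • v 2 + sin (2 * τ) • v 3, -(sin (2 * τ)) • v 2 + cos (2 * τ) • v 3] :=
      funext hcurve
    rw [heq]
    have hc : HasDerivAt (fun τ : ℝ => cos τ) 0 0 := by simpa using Real.hasDerivAt_cos 0
    have hs : HasDerivAt (fun τ : ℝ => sin τ) 1 0 := by simpa using Real.hasDerivAt_sin 0
    have hl : HasDerivAt (fun τ : ℝ => 2 * τ) 2 0 := by
      simpa using (hasDerivAt_id (0 : ℝ)).const_mul 2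
    have hcc : HasDerivAt (fun τ : ℝ => cos (2 * τ)) 0 0 := by
      have := hl.cos
      simpa using this
    have hss : HasDerivAt (fun τ : ℝ => sin (2 * τ)) 2 0 := by
      have := hl.sin
      simpa using this
    rw [hasDerivAt_pi]
    intro j
    fin_cases j
    · exact ((hc.smul_const (v 0)).add (hs.smul_const (v 1))).congr_deriv (by simp)
    · exact ((hs.neg.smul_const (v 0)).add (hc.smul_const (v 1))).congr_deriv (by simp)
    · exact ((hcc.smul_const (v 2)).add (hss.smul_const (v 3))).congr_deriv (by simp)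
    · exact ((hss.neg.smul_const (v 2)).add (hcc.smul_const (v 3))).congr_deriv (by simp)
  have hfin : dd g 2 p = ![v 1, -v 0, (2 : ℝ) • v 3, -((2 : ℝ) • v 2)] := hder.unique hder2
  rw [hfin]
  ext i j
  fin_cases j <;> simp [toM, D4, Matrix.mul_apply, Fin.sum_univ_succ] <;> ring

end Pool.Agent.Lib.SkewU
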