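import Pool.Agent.Lib.MP_794fdb_gt.U.Trans
import Pool.Agent.Lib.MP_794fdb_gt.U.Ortho
import Pool.Agent.Lib.MP_794fdb_gt.U.Block
import Pool.Agent.Lib.MP_794fdb_gt.U.Indep2
import Pool.Agent.Lib.MP_794fdb_gt.U.Limit
import Pool.Agent.Lib.MP_794fdb_gt.U.Anti
import Pool.Agent.Lib.MP_794fdb_gt.U.VEqui

set_option autoImplicit false

open scoped ContDiff Matrix.Norms.Elementwise
open Real Set MeasureTheory Matrix

namespace Pool.Agent.Lib.SkewU

theorem core {Φ : V3 → V6} (hΦ : SkewData Φ) (hN : NonSing Φ) : False := by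
  have hpi : (0 : ℝ) < π / 2 := by positivity
  -- step 0: antipodal pairs, then rotate
  have h1 : CS (fun p => toM (app (fr Φ (π / 2) (rot 0 (S p))) (cpl Φ (rot 0 (S p))))) =
      32 * π ^ 2 := by
    rw [← CS_anti hΦ]
    exact CS_fam hpi.le (fun s p => toM (app (fr Φ (π / 2) (rot s (S p))) (cpl Φ (rot s (S p)))))
      (app_fam (fr_rot_fam hΦ _ _) (cpl_rot_fam hΦ _ _))
      (fun s _ p => cpl_det hΦ (ON_rot (S_ON p) s))
  have hrot : ∀ F : Fin 3 → V3, rot 0 F = F := by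
    intro F
    funext j
    fin_cases j <;> simp [rot]
  simp only [hrot] at h1
  have hc : Nice (fun p => cpl Φ (S p)) := by
    have := (cpl_rot_fam hΦ 0 1).nice (left_mem_Icc.2 zero_le_one)
    simpa only [hrot] using this
  -- limits
  have hv0 : Nice (fun p => vfr Φ 0 (S p)) :=
    (vfr_fam hΦ 0 1).nice (left_mem_Icc.2 zero_le_one)
  obtain ⟨δ, hδ, hind⟩ := indep_uniform _ hv0 (fun p => vfr_indep hΦ hN (S_ON p) le_rfl zero_le_one)
  obtain ⟨ε, hε, hlim⟩ := ufr_limit hΦ hδ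
  obtain ⟨t, ht0, ht1, ht2⟩ : ∃ t : ℝ, 0 < t ∧ t < ε ∧ t ≤ π / 2 :=
    ⟨min (ε / 2) (π / 2), by positivity, lt_of_le_of_lt (min_le_left _ _) (by linarith),
      min_le_right _ _⟩
  -- step 1: from the antipodal pairs to close pairs
  have hfam := fr_fam hΦ 0 1 (fun s => π / 2 + s * (t - π / 2)) (by fun_prop)
  obtain ⟨b1, hb1, hd1, -, he1⟩ := transport zero_le_one
    (fun s p => fr Φ (π / 2 + s * (t - π / 2)) (S p)) hfam
    (fun s hs p => fr_indep hΦ (S_ON p) (by nlinarith [hs.1, hs.2]) (by nlinarith [hs.1, hs.2]))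
    (fun p => cpl Φ (S p)) hc (fun p => by simpa using cpl_det hΦ (S_ON p))
  have e1 : π / 2 + 0 * (t - π / 2) = π / 2 := by ring
  have e2 : π / 2 + 1 * (t - π / 2) = t := by ring
  simp only [e1, e2] at he1 hd1
  rw [h1] at he1
  -- step 2: constant matrix
  have hu : Nice (fun p => ufr Φ t (S p)) := ufr_nice hΦ ht0.ne'
  have hU : Nice (fun p => toM (app (ufr Φ t (S p)) (b1 p))) :=
    (app_fam (hu.fam 0 1) (hb1.fam 0 1)).nice (left_mem_Icc.2 zero_le_one)
  have he2 : CS (fun p => toM (app (ufr Φ t (S p)) (b1 p))) = 32 * π ^ 2 := by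
    rw [← CS_mul_const _ hU.1 (CM t) (CM_det ht0.ne'), he1]
    simp only [toM_fr Φ ht0.ne']
  have hd2 : ∀ p, (toM (app (ufr Φ t (S p)) (b1 p))).det ≠ 0 := by
    intro p h
    apply hd1 p
    rw [toM_fr Φ ht0.ne', det_mul, h, zero_mul]
  -- step 3: straight line
  have hfam3 : NiceFam 0 1 (fun s p => (1 - s) • ufr Φ t (S p) + s • vfr Φ 0 (S p)) := by
    refine ⟨fun s _ p => ?_, fun s _ p q hpq => by simp only [hpq]⟩
    have hu1 : ContDiff ℝ ∞ (fun x : ℝ × P3 => ufr Φ t (S x.2)) := hu.1.comp contDiff_snd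
    have hv1 : ContDiff ℝ ∞ (fun x : ℝ × P3 => vfr Φ 0 (S x.2)) := hv0.1.comp contDiff_snd
    exact (((contDiff_const.sub contDiff_fst).smul hu1).add (contDiff_fst.smul hv1)).contDiffAt
  obtain ⟨b2, hb2, hd3, -, he3⟩ := transport zero_le_one
    (fun s p => (1 - s) • ufr Φ t (S p) + s • vfr Φ 0 (S p)) hfam3
    (fun s hs p => hind p _ (by
      have : (1 - s) • ufr Φ t (S p) + s • vfr Φ 0 (S p) - vfr Φ 0 (S p) =
          (1 - s) • (ufr Φ t (S p) - vfr Φ 0 (S p)) := by module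
      rw [this, norm_smul, Real.norm_of_nonneg (by linarith [hs.2])]
      have h := hlim t ht0 ht1 p
      nlinarith [norm_nonneg (ufr Φ t (S p) - vfr Φ 0 (S p)), hs.1, hs.2]))
    b1 hb1 (fun p => by simpa using hd2 p)
  simp only [sub_zero, one_smul, zero_smul, add_zero, sub_self, zero_add] at he3 hd3
  rw [he2] at he3
  -- step 4: kill the trace of the second fundamental form
  obtain ⟨b3, hb3, hd4, ho4, he4⟩ := transport zero_le_one
    (fun s p => vfr Φ s (S p)) (vfr_fam hΦ 0 1)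
    (fun s hs p => vfr_indep hΦ hN (S_ON p) hs.1 hs.2) b2 hb2 hd3
  rw [← he3] at he4
  -- step 5: orthonormal complement and evaluation
  have hv1 : Nice (fun p => vfr Φ 1 (S p)) :=
    (vfr_fam hΦ 0 1).nice (right_mem_Icc.2 zero_le_one)
  obtain ⟨c, hc1, hd5, ho5, hn5, he5⟩ := ortho _ hv1 b3 hb3 hd4 ho4
  have hfin := CS_block (fun p => vfr Φ 1 (S p)) c hv1 hc1 hd5 D4 (vfr_equi hΦ) hn5 ho5
  rw [← he5, ← he4] at hfin
  have htr : trace (D4 * D4) = -10 := by
    simp [D4, trace, Fin.sum_univ_four, Matrix.mul_apply]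
    norm_num
  rw [htr] at hfin
  nlinarith [sq_pos_of_pos Real.pi_pos]

end Pool.Agent.Lib.SkewU
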