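import Mathlib

/-!
# MP_794fdb_gt : instability of totally skew spheres in six-space, definitions

Euler coordinates on the rotation group, the functional `CS` (the integral of the trace of
`(M⁻¹ dM)^3` over the Euler box), and the frames attached to a map of the two-sphere.
-/

set_option autoImplicit false

open scoped ContDiff Matrix.Norms.Elementwise
open Real Set MeasureTheory Matrix

namespace Pool.Agent.Lib.SkewU

/-- Euler coordinates `(alpha, beta, gamma) = (p 0, p 1, p 2)`. -/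
abbrev P3 : Type := Fin 3 → ℝ

abbrev V3 : Type := Fin 3 → ℝ

abbrev V6 : Type := Fin 6 → ℝ

/-- Square matrices. -/
abbrev Mat (n : ℕ) : Type := Matrix (Fin n) (Fin n) ℝ

/-- The matrix with columns `g j`. -/
def toM {n m : ℕ} (g : Fin n → Fin m → ℝ) : Matrix (Fin m) (Fin n) ℝ :=
  Matrix.of fun i j => g j i

/-- The columns of the rotation with Euler angles `p`. -/
noncomputable def S (p : P3) : Fin 3 → V3 :=
  ![![cos (p 2) * (cos (p 0) * cos (p 1)) - sin (p 2) * sin (p 0),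
      cos (p 2) * (sin (p 0) * cos (p 1)) + sin (p 2) * cos (p 0),
      -(cos (p 2) * sin (p 1))],
    ![-(sin (p 2) * (cos (p 0) * cos (p 1))) - cos (p 2) * sin (p 0),
      -(sin (p 2) * (sin (p 0) * cos (p 1))) + cos (p 2) * cos (p 0),
      sin (p 2) * sin (p 1)],
    ![cos (p 0) * sin (p 1), sin (p 0) * sin (p 1), cos (p 1)]]

/-- Derivative in the direction of the `i`-th coordinate. -/
noncomputable def dd {k : ℕ} {X : Type} [NormedAddCommGroup X] [NormedSpace ℝ X]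
    (G : (Fin k → ℝ) → X) (i : Fin k) (p : Fin k → ℝ) : X :=
  fderiv ℝ G p (Pi.single i 1)

/-- The matrix `M⁻¹ ∂_i M`. -/
noncomputable def om {k n : ℕ} (M : (Fin k → ℝ) → Mat n) (i : Fin k) (p : Fin k → ℝ) : Mat n :=
  (M p)⁻¹ * dd M i p

/-- The integrand `tr (A [B, C])`, `A = M⁻¹ ∂_0 M` and so on. -/
noncomputable def psi {n : ℕ} (M : P3 → Mat n) (p : P3) : ℝ :=
  trace (om M 0 p * (om M 1 p * om M 2 p - om M 2 p * om M 1 p))

/-- The Euler box. -/
noncomputable def top3 : P3 := ![2 * π, π, 2 * π]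

/-- The functional. -/
noncomputable def CS {n : ℕ} (M : P3 → Mat n) : ℝ := ∫ p in Icc (0 : P3) top3, psi M p

/-- Smooth functions of the Euler angles that are functions of the rotation. -/
def Nice {X : Type} [NormedAddCommGroup X] [NormedSpace ℝ X] (g : P3 → X) : Prop :=
  ContDiff ℝ ∞ g ∧ ∀ p q, S p = S q → g p = g q

/-- Smooth families, parameter in `[s0, s1]`. -/
def NiceFam {X : Type} [NormedAddCommGroup X] [NormedSpace ℝ X] (s0 s1 : ℝ) (g : ℝ → P3 → X) :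
    Prop :=
  (∀ s ∈ Icc s0 s1, ∀ p, ContDiffAt ℝ ∞ (fun x : ℝ × P3 => g x.1 x.2) (s, p)) ∧
    ∀ s ∈ Icc s0 s1, ∀ p q, S p = S q → g s p = g s q

/-- Four vectors followed by two vectors. -/
def app (a : Fin 4 → V6) (b : Fin 2 → V6) : Fin 6 → V6 := ![a 0, a 1, a 2, a 3, b 0, b 1]

/-- Orthonormal triples. -/
def ON (F : Fin 3 → V3) : Prop := ∀ i j, F i ⬝ᵥ F j = if i = j then 1 else 0

/-- A map of the unit sphere to six-space, extended with homogeneity zero, which is smooth and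
totally skew. -/
structure SkewData (Φ : V3 → V6) : Prop where
  smooth : ∀ x, x ≠ 0 → ContDiffAt ℝ ∞ Φ x
  homog : ∀ x, x ≠ 0 → ∀ r : ℝ, 0 < r → Φ (r • x) = Φ x
  skew : ∀ x y : V3, x ⬝ᵥ x = 1 → y ⬝ᵥ y = 1 → x ≠ y → ∀ (t : ℝ) (v w : V3),
    x ⬝ᵥ v = 0 → y ⬝ᵥ w = 0 →
    t • (Φ x - Φ y) + fderiv ℝ Φ x v + fderiv ℝ Φ y w = 0 → t = 0 ∧ v = 0 ∧ w = 0

/-- Second derivative. -/
noncomputable def D2 (Φ : V3 → V6) (x v w : V3) : V6 :=
  fderiv ℝ (fun q => fderiv ℝ Φ q w) x v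

/-- The second fundamental form is nonsingular. -/
def NonSing (Φ : V3 → V6) : Prop :=
  ∀ x v w u : V3, x ⬝ᵥ x = 1 → x ⬝ᵥ v = 0 → x ⬝ᵥ w = 0 → x ⬝ᵥ u = 0 → v ≠ 0 → w ≠ 0 →
    D2 Φ x v w + fderiv ℝ Φ x u ≠ 0

/-- The point at distance `t` from `F 2` in the direction `F 0`. -/
noncomputable def pt (t : ℝ) (F : Fin 3 → V3) : V3 := cos t • F 2 + sin t • F 0

/-- The velocity of `pt`. -/
noncomputable def vt (t : ℝ) (F : Fin 3 → V3) : V3 := -(sin t) • F 2 + cos t • F 0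

/-- The frame of the sum of the tangent planes at `pt t F` and `pt (-t) F`. -/
noncomputable def fr (Φ : V3 → V6) (t : ℝ) (F : Fin 3 → V3) : Fin 4 → V6 :=
  ![fderiv ℝ Φ (pt t F) (vt t F), fderiv ℝ Φ (pt t F) (F 1),
    fderiv ℝ Φ (pt (-t) F) (vt (-t) F), fderiv ℝ Φ (pt (-t) F) (F 1)]

/-- Means and difference quotients of the frame. -/
noncomputable def ufr (Φ : V3 → V6) (t : ℝ) (F : Fin 3 → V3) : Fin 4 → V6 :=
  ![(1 / 2 : ℝ) • (fr Φ t F 0 + fr Φ t F 2), (1 / 2 : ℝ) • (fr Φ t F 1 + fr Φ t F 3),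
    (1 / (2 * t)) • (fr Φ t F 0 - fr Φ t F 2), (1 / (2 * t)) • (fr Φ t F 1 - fr Φ t F 3)]

/-- The limit frame, and its deformation for `0 ≤ r ≤ 1`. -/
noncomputable def vfr (Φ : V3 → V6) (r : ℝ) (F : Fin 3 → V3) : Fin 4 → V6 :=
  ![fderiv ℝ Φ (F 2) (F 0), fderiv ℝ Φ (F 2) (F 1),
    D2 Φ (F 2) (F 0) (F 0) - (r / 2) • (D2 Φ (F 2) (F 0) (F 0) + D2 Φ (F 2) (F 1) (F 1)),
    D2 Φ (F 2) (F 0) (F 1)]

/-- The rotated triple: `rot 0 F = F` and `rot (π / 2) F = ![F 2, F 0, F 1]`, as columns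
`(h, k, m)`. -/
noncomputable def rot (t : ℝ) (F : Fin 3 → V3) : Fin 3 → V3 :=
  ![cos t • F 0 + sin t • F 2,
    (sin t * sin t) • F 0 + cos t • F 1 - (cos t * sin t) • F 2,
    -((cos t * sin t) • F 0) + sin t • F 1 + (cos t * cos t) • F 2]

/-- The completion of the frame at antipodal points: the chord and a normal vector. -/
noncomputable def cpl (Φ : V3 → V6) (F : Fin 3 → V3) : Fin 2 → V6 :=
  ![Φ (F 0) - Φ (-(F 0)),
    fun i => (toM (app (fr Φ (π / 2) F) ![Φ (F 0) - Φ (-(F 0)), Pi.single i 1])).det]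

end Pool.Agent.Lib.SkewU
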