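import Pool.Agent.Lib.MP_794fdb_gt.U.Calc2

set_option autoImplicit false

open scoped ContDiff Matrix.Norms.Elementwise
open Real Set MeasureTheory Matrix

namespace Pool.Agent.Lib.SkewU

/-- The vector field on four-space. -/
noncomputable def XF {n : ℕ} (M : (Fin 4 → ℝ) → Mat n) : Fin 4 → (Fin 4 → ℝ) → ℝ :=
  ![fun y => trace (om M 1 y * (om M 2 y * om M 3 y - om M 3 y * om M 2 y)),
    fun y => -trace (om M 0 y * (om M 2 y * om M 3 y - om M 3 y * om M 2 y)),
    fun y => -trace (om M 0 y * (om M 3 y * om M 1 y - om M 1 y * om M 3 y)),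
    fun y => -trace (om M 0 y * (om M 1 y * om M 2 y - om M 2 y * om M 1 y))]

theorem Div.smooth {E : Type} [NormedAddCommGroup E] [NormedSpace ℝ E] {n : ℕ}
    {P Q R : E → Mat n} {x : E} (hP : ContDiffAt ℝ ∞ P x) (hQ : ContDiffAt ℝ ∞ Q x)
    (hR : ContDiffAt ℝ ∞ R x) :
    ContDiffAt ℝ ∞ (fun y => trace (P y * (Q y * R y - R y * Q y))) x :=
  contDiffAt_trace (contDiffAt_mul hP ((contDiffAt_mul hQ hR).sub (contDiffAt_mul hR hQ)))

theorem contDiffAt_XF {n : ℕ} {M : (Fin 4 → ℝ) → Mat n} {x : Fin 4 → ℝ}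
    (hM : ContDiffAt ℝ ∞ M x) (hd : (M x).det ≠ 0) (i : Fin 4) :
    ContDiffAt ℝ ∞ (XF M i) x := by
  have h := fun j => contDiffAt_om hM hd j
  fin_cases i
  · exact Div.smooth (h 1) (h 2) (h 3)
  · exact (Div.smooth (h 0) (h 2) (h 3)).neg
  · exact (Div.smooth (h 0) (h 3) (h 1)).neg
  · exact (Div.smooth (h 0) (h 1) (h 2)).neg

/-- The product rule for the trace of `P [Q, R]`. -/
theorem Div.dd_trip {k n : ℕ} {P Q R : (Fin k → ℝ) → Mat n} {x : Fin k → ℝ}
    (hP : ContDiffAt ℝ ∞ P x) (hQ : ContDiffAt ℝ ∞ Q x) (hR : ContDiffAt ℝ ∞ R x) (i : Fin k) :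
    dd (fun y => trace (P y * (Q y * R y - R y * Q y))) i x =
      trace (dd P i x * (Q x * R x - R x * Q x)) +
        trace (P x * (dd Q i x * R x - R x * dd Q i x)) +
        trace (P x * (Q x * dd R i x - dd R i x * Q x)) := by
  have hP' := hP.differentiableAt (n := ∞) (by simp)
  have hQ' := hQ.differentiableAt (n := ∞) (by simp)
  have hR' := hR.differentiableAt (n := ∞) (by simp)
  have hQR := (contDiffAt_mul hQ hR).differentiableAt (n := ∞) (by simp)
  have hRQ := (contDiffAt_mul hR hQ).differentiableAt (n := ∞) (by simp)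
  have hS := ((contDiffAt_mul hQ hR).sub (contDiffAt_mul hR hQ)).differentiableAt
    (n := ∞) (by simp)
  have hPS := (contDiffAt_mul hP
    ((contDiffAt_mul hQ hR).sub (contDiffAt_mul hR hQ))).differentiableAt (n := ∞) (by simp)
  have h1 := dd_trace hPS i
  have h2 := dd_mul hP' hS i
  have h3 : dd (fun y => Q y * R y - R y * Q y) i x =
      dd (fun y => Q y * R y) i x - dd (fun y => R y * Q y) i x := by
    have h4 : HasFDerivAt (fun y => Q y * R y - R y * Q y)
        (fderiv ℝ (fun y => Q y * R y) x - fderiv ℝ (fun y => R y * Q y) x) x :=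
      hQR.hasFDerivAt.sub hRQ.hasFDerivAt
    exact congrArg (fun L : (Fin k → ℝ) →L[ℝ] Mat n => L (Pi.single i 1)) h4.fderiv
  have h5 := dd_mul hQ' hR' i
  have h6 := dd_mul hR' hQ' i
  have h7 : dd (fun y => trace (P y * (Q y * R y - R y * Q y))) i x =
      trace (dd P i x * (Q x * R x - R x * Q x) + P x *
        ((dd Q i x * R x + Q x * dd R i x) - (dd R i x * Q x + R x * dd Q i x))) := by
    rw [← h5, ← h6, ← h3, ← h2, ← h1]
  rw [h7, ← Matrix.trace_add, ← Matrix.trace_add]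
  congr 1
  noncomm_ring

theorem Div.cyc {n : ℕ} (X Y W : Mat n) :
    trace (X * (Y * W - W * Y)) = trace (Y * (W * X - X * W)) := by
  rw [Matrix.mul_sub, Matrix.mul_sub, Matrix.trace_sub, Matrix.trace_sub,
    Matrix.trace_mul_comm X (Y * W), Matrix.mul_assoc, ← Matrix.mul_assoc X W Y,
    Matrix.trace_mul_comm (X * W) Y]

theorem Div.cyc2 {n : ℕ} (X Z W : Mat n) :
    trace ((X * Z - Z * X) * W) = trace (Z * (W * X - X * W)) := by
  rw [Matrix.mul_sub, Matrix.sub_mul, Matrix.trace_sub, Matrix.trace_sub,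
    Matrix.mul_assoc X Z W, Matrix.trace_mul_comm X (Z * W), Matrix.mul_assoc Z W X,
    Matrix.mul_assoc Z X W]

/-- The algebraic identity. -/
theorem Div.alg {n : ℕ} (Z A B C A0 B0 C0 Z1 B1 C1 Z2 A2 C2 Z3 A3 B3 : Mat n)
    (hA0 : A0 - Z1 = A * Z - Z * A) (hB0 : B0 - Z2 = B * Z - Z * B)
    (hC0 : C0 - Z3 = C * Z - Z * C) (hB1 : B1 - A2 = B * A - A * B)
    (hC1 : C1 - A3 = C * A - A * C) (hC2 : C2 - B3 = C * B - B * C) :
    (trace (A0 * (B * C - C * B)) + trace (A * (B0 * C - C * B0)) +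
        trace (A * (B * C0 - C0 * B))) -
      (trace (Z1 * (B * C - C * B)) + trace (Z * (B1 * C - C * B1)) +
        trace (Z * (B * C1 - C1 * B))) -
      (trace (Z2 * (C * A - A * C)) + trace (Z * (C2 * A - A * C2)) +
        trace (Z * (C * A2 - A2 * C))) -
      (trace (Z3 * (A * B - B * A)) + trace (Z * (A3 * B - B * A3)) +
        trace (Z * (A * B3 - B3 * A))) = 0 := by
  have e1 : trace (A * (B0 * C - C * B0)) = trace (B0 * (C * A - A * C)) := Div.cyc A B0 C
  have e2 : trace (A * (B * C0 - C0 * B)) = trace (C0 * (A * B - B * A)) := by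
    rw [Div.cyc A B C0, Div.cyc B C0 A]
  have e3 : trace (A0 * (B * C - C * B)) - trace (Z1 * (B * C - C * B)) =
      trace (Z * ((B * C - C * B) * A - A * (B * C - C * B))) := by
    rw [← Matrix.trace_sub, ← Matrix.sub_mul, hA0, Div.cyc2]
  have e4 : trace (B0 * (C * A - A * C)) - trace (Z2 * (C * A - A * C)) =
      trace (Z * ((C * A - A * C) * B - B * (C * A - A * C))) := by
    rw [← Matrix.trace_sub, ← Matrix.sub_mul, hB0, Div.cyc2]
  have e5 : trace (C0 * (A * B - B * A)) - trace (Z3 * (A * B - B * A)) =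
      trace (Z * ((A * B - B * A) * C - C * (A * B - B * A))) := by
    rw [← Matrix.trace_sub, ← Matrix.sub_mul, hC0, Div.cyc2]
  have e6 : trace (Z * ((B * C - C * B) * A - A * (B * C - C * B))) +
      trace (Z * ((C * A - A * C) * B - B * (C * A - A * C))) +
      trace (Z * ((A * B - B * A) * C - C * (A * B - B * A))) = 0 := by
    rw [← Matrix.trace_add, ← Matrix.trace_add, ← Matrix.mul_add, ← Matrix.mul_add]
    have : (B * C - C * B) * A - A * (B * C - C * B) +
        ((C * A - A * C) * B - B * (C * A - A * C)) +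
        ((A * B - B * A) * C - C * (A * B - B * A)) = 0 := by noncomm_ring
    rw [this, Matrix.mul_zero, Matrix.trace_zero]
  have hB1' : B1 = A2 + (B * A - A * B) := by rw [← hB1]; abel
  have hC1' : C1 = A3 + (C * A - A * C) := by rw [← hC1]; abel
  have hC2' : C2 = B3 + (C * B - B * C) := by rw [← hC2]; abel
  have e7 : trace (Z * (B1 * C - C * B1)) + trace (Z * (B * C1 - C1 * B)) +
      trace (Z * (C2 * A - A * C2)) + trace (Z * (C * A2 - A2 * C)) +
      trace (Z * (A3 * B - B * A3)) + trace (Z * (A * B3 - B3 * A)) = 0 := by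
    rw [← Matrix.trace_add, ← Matrix.trace_add, ← Matrix.trace_add, ← Matrix.trace_add,
      ← Matrix.trace_add, ← Matrix.mul_add, ← Matrix.mul_add, ← Matrix.mul_add,
      ← Matrix.mul_add, ← Matrix.mul_add, hB1', hC1', hC2']
    have : (A2 + (B * A - A * B)) * C - C * (A2 + (B * A - A * B)) +
        (B * (A3 + (C * A - A * C)) - (A3 + (C * A - A * C)) * B) +
        ((B3 + (C * B - B * C)) * A - A * (B3 + (C * B - B * C))) + (C * A2 - A2 * C) +
        (A3 * B - B * A3) + (A * B3 - B3 * A) = 0 := by noncomm_ring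
    rw [this, Matrix.mul_zero, Matrix.trace_zero]
  rw [e1, e2]
  linarith

theorem div_zero {n : ℕ} {M : (Fin 4 → ℝ) → Mat n} {x : Fin 4 → ℝ}
    (hM : ContDiffAt ℝ ∞ M x) (hd : (M x).det ≠ 0) :
    ∑ i, dd (XF M i) i x = 0 := by
  have h := fun j => contDiffAt_om hM hd j
  have hneg : ∀ (f : (Fin 4 → ℝ) → ℝ) (i : Fin 4), dd (fun y => -f y) i x = -dd f i x := by
    intro f i
    unfold dd
    rw [fderiv_fun_neg]
    rfl
  rw [Fin.sum_univ_four]
  have e0 : dd (XF M 0) 0 x = _ := Div.dd_trip (h 1) (h 2) (h 3) 0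
  have e1 : dd (XF M 1) 1 x = _ :=
    (hneg _ 1).trans (congrArg Neg.neg (Div.dd_trip (h 0) (h 2) (h 3) 1))
  have e2 : dd (XF M 2) 2 x = _ :=
    (hneg _ 2).trans (congrArg Neg.neg (Div.dd_trip (h 0) (h 3) (h 1) 2))
  have e3 : dd (XF M 3) 3 x = _ :=
    (hneg _ 3).trans (congrArg Neg.neg (Div.dd_trip (h 0) (h 1) (h 2) 3))
  rw [e0, e1, e2, e3]
  have key := Div.alg (om M 0 x) (om M 1 x) (om M 2 x) (om M 3 x)
    (dd (om M 1) 0 x) (dd (om M 2) 0 x) (dd (om M 3) 0 x)
    (dd (om M 0) 1 x) (dd (om M 2) 1 x) (dd (om M 3) 1 x)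
    (dd (om M 0) 2 x) (dd (om M 1) 2 x) (dd (om M 3) 2 x)
    (dd (om M 0) 3 x) (dd (om M 1) 3 x) (dd (om M 2) 3 x)
    (flat hM hd 0 1) (flat hM hd 0 2) (flat hM hd 0 3) (flat hM hd 1 2) (flat hM hd 1 3)
    (flat hM hd 2 3)
  linarith

end Pool.Agent.Lib.SkewU
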