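import Pool.Agent.Lib.MP_794fdb_gt.U.Div
import Pool.Agent.Lib.MP_794fdb_gt.U.Euler2

set_option autoImplicit false

open scoped ContDiff Matrix.Norms.Elementwise
open Real Set MeasureTheory Matrix

namespace Pool.Agent.Lib.SkewU

/-- the family as a function on four-space -/
noncomputable def famN {n : ℕ} (M : ℝ → P3 → Mat n) (x : Fin 4 → ℝ) : Mat n :=
  M (x 0) (fun j => x j.succ)

theorem fam_uniqueDiff {s0 s1 : ℝ} (h : s0 < s1) {y : Fin 4 → ℝ} (hy : y 0 ∈ Icc s0 s1) :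
    UniqueDiffWithinAt ℝ {z : Fin 4 → ℝ | z 0 ∈ Icc s0 s1} y := by
  refine uniqueDiffWithinAt_convex ?_ ?_ (subset_closure hy)
  · exact (convex_Icc s0 s1).linear_preimage (LinearMap.proj (R := ℝ) (φ := fun _ : Fin 4 => ℝ) 0)
  · have hopen : IsOpen {z : Fin 4 → ℝ | z 0 ∈ Ioo s0 s1} :=
      isOpen_Ioo.preimage (continuous_apply 0)
    refine ⟨fun _ => (s0 + s1) / 2, ?_⟩
    refine interior_maximal ?_ hopen ?_
    · intro z hz
      exact Ioo_subset_Icc_self hz
    · constructor <;> linarith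

theorem fam_dd_eq {X : Type} [NormedAddCommGroup X] [NormedSpace ℝ X] {s0 s1 : ℝ} (h : s0 < s1)
    {G G' : (Fin 4 → ℝ) → X} {y : Fin 4 → ℝ} (hy : y 0 ∈ Icc s0 s1) (hG : DifferentiableAt ℝ G y)
    (hG' : DifferentiableAt ℝ G' y) (heq : ∀ z : Fin 4 → ℝ, z 0 ∈ Icc s0 s1 → G z = G' z)
    (j : Fin 4) : dd G j y = dd G' j y := by
  unfold dd
  congr 1
  have h1 := hG.hasFDerivAt.hasFDerivWithinAt (s := {z : Fin 4 → ℝ | z 0 ∈ Icc s0 s1})
  have h2 := hG'.hasFDerivAt.hasFDerivWithinAt (s := {z : Fin 4 → ℝ | z 0 ∈ Icc s0 s1})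
  have h3 : HasFDerivWithinAt G (fderiv ℝ G' y) {z : Fin 4 → ℝ | z 0 ∈ Icc s0 s1} y :=
    h2.congr (fun z hz => heq z hz) (heq y hy)
  exact (fam_uniqueDiff h hy).eq h1 h3

theorem fam_contDiffAt {n : ℕ} {s0 s1 : ℝ} {M : ℝ → P3 → Mat n} (hM : NiceFam s0 s1 M)
    {y : Fin 4 → ℝ} (hy : y 0 ∈ Icc s0 s1) : ContDiffAt ℝ ∞ (famN M) y := by
  have h1 : ContDiffAt ℝ ∞ (fun z : Fin 4 → ℝ => ((z 0, fun j => z j.succ) : ℝ × P3)) y := by
    refine ContDiffAt.prodMk ?_ ?_
    · exact (contDiff_apply ℝ ℝ (0 : Fin 4)).contDiffAt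
    · rw [contDiffAt_pi]
      intro j
      exact (contDiff_apply ℝ ℝ j.succ).contDiffAt
  exact (hM.1 (y 0) hy (fun j => y j.succ)).comp y h1

theorem fam_nice {n : ℕ} {s0 s1 : ℝ} {M : ℝ → P3 → Mat n} (hM : NiceFam s0 s1 M)
    {s : ℝ} (hs : s ∈ Icc s0 s1) : Nice (M s) := by
  refine ⟨?_, fun p q hpq => hM.2 s hs p q hpq⟩
  rw [contDiff_iff_contDiffAt]
  intro p
  have h1 : ContDiffAt ℝ ∞ (fun z : P3 => ((s, z) : ℝ × P3)) p :=
    contDiffAt_const.prodMk contDiffAt_id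
  exact (hM.1 s hs p).comp p h1

theorem fam_om_succ {n : ℕ} {s0 s1 : ℝ} {M : ℝ → P3 → Mat n} (hM : NiceFam s0 s1 M)
    {y : Fin 4 → ℝ} (hy : y 0 ∈ Icc s0 s1) (j : Fin 3) :
    om (famN M) j.succ y = om (M (y 0)) j (fun i => y i.succ) := by
  have h1 : dd (famN M) j.succ y = dd (M (y 0)) j (fun i => y i.succ) := by
    unfold dd
    have d1 : DifferentiableAt ℝ (famN M) y := (fam_contDiffAt hM hy).differentiableAt (by simp)
    have d2 : DifferentiableAt ℝ (M (y 0)) (fun i => y i.succ) :=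
      ((fam_nice hM hy).1.contDiffAt).differentiableAt (by simp)
    have e1 := d1.hasFDerivAt.hasLineDerivAt (Pi.single j.succ (1 : ℝ))
    have e2 := d2.hasFDerivAt.hasLineDerivAt (Pi.single j (1 : ℝ))
    unfold HasLineDerivAt at e1 e2
    have e3 : (fun t : ℝ => famN M (y + t • Pi.single j.succ (1 : ℝ))) =
        fun t : ℝ => M (y 0) ((fun i : Fin 3 => y i.succ) + t • Pi.single j (1 : ℝ)) := by
      funext t
      unfold famN
      have a1 : (y + t • (Pi.single j.succ (1 : ℝ) : Fin 4 → ℝ)) 0 = y 0 := by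
        simp [(Fin.succ_ne_zero j).symm]
      have a2 : (fun i : Fin 3 => (y + t • (Pi.single j.succ (1 : ℝ) : Fin 4 → ℝ)) i.succ) =
          (fun i : Fin 3 => y i.succ) + t • Pi.single j (1 : ℝ) := by
        funext i
        simp [Pi.single_apply, Fin.succ_inj]
      rw [a1, a2]
    rw [e3] at e1
    exact e1.unique e2
  unfold om
  rw [h1]
  rfl

theorem fam_om_per {n : ℕ} {s0 s1 : ℝ} (h : s0 < s1) {M : ℝ → P3 → Mat n}
    (hM : NiceFam s0 s1 M) {y : Fin 4 → ℝ} (hy : y 0 ∈ Icc s0 s1) (i : Fin 3) (j : Fin 4) :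
    om (famN M) j (y + Pi.single i.succ (2 * π)) = om (famN M) j y := by
  have hshift : ∀ z : Fin 4 → ℝ, (z + (Pi.single i.succ (2 * π) : Fin 4 → ℝ)) 0 = z 0 := by
    intro z
    simp [(Fin.succ_ne_zero i).symm]
  have hval : ∀ z : Fin 4 → ℝ, z 0 ∈ Icc s0 s1 →
      famN M (z + Pi.single i.succ (2 * π)) = famN M z := by
    intro z hz
    unfold famN
    rw [hshift z]
    have a2 : (fun k : Fin 3 => (z + (Pi.single i.succ (2 * π) : Fin 4 → ℝ)) k.succ) =
        (fun k : Fin 3 => z k.succ) + Pi.single i (2 * π) := by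
      funext k
      simp [Pi.single_apply, Fin.succ_inj]
    rw [a2]
    exact hM.2 (z 0) hz _ _ (S_per _ _)
  have hy' : (y + (Pi.single i.succ (2 * π) : Fin 4 → ℝ)) 0 ∈ Icc s0 s1 := by
    rw [hshift]; exact hy
  have d1 : DifferentiableAt ℝ (famN M) y := (fam_contDiffAt hM hy).differentiableAt (by simp)
  have d2 : DifferentiableAt ℝ (famN M) (y + Pi.single i.succ (2 * π)) :=
    (fam_contDiffAt hM hy').differentiableAt (by simp)
  have d3 : DifferentiableAt ℝ (fun z => famN M (z + Pi.single i.succ (2 * π))) y :=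
    DifferentiableAt.comp y (f := fun z : Fin 4 → ℝ => z + Pi.single i.succ (2 * π))
      (g := famN M) d2 (differentiableAt_id.add_const _)
  have e1 := fam_dd_eq h hy d3 d1 hval j
  have e2 : dd (fun z => famN M (z + Pi.single i.succ (2 * π))) j y =
      dd (famN M) j (y + Pi.single i.succ (2 * π)) := by
    unfold dd
    rw [fderiv_comp_add_right]
  unfold om
  rw [hval y hy, ← e2, e1]

/-- Homotopy invariance. -/
theorem CS_fam {n : ℕ} {s0 s1 : ℝ} (h : s0 ≤ s1) (M : ℝ → P3 → Mat n) (hM : NiceFam s0 s1 M)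
    (hd : ∀ s ∈ Icc s0 s1, ∀ p, (M s p).det ≠ 0) : CS (M s0) = CS (M s1) := by
  rcases h.eq_or_lt with rfl | hlt
  · rfl
  let a : Fin 4 → ℝ := Fin.cons s0 (0 : P3)
  let b : Fin 4 → ℝ := Fin.cons s1 top3
  have hle3 : (0 : P3) ≤ top3 := by
    intro i
    have := Real.pi_pos
    fin_cases i <;> simp [top3] <;> positivity
  have hle : a ≤ b := by
    intro i
    refine Fin.cases ?_ (fun j => ?_) i
    · exact h
    · exact hle3 j
  have hbox : ∀ x ∈ Icc a b, x 0 ∈ Icc s0 s1 := fun x hx => ⟨hx.1 0, hx.2 0⟩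
  have hNc : ∀ x : Fin 4 → ℝ, x 0 ∈ Icc s0 s1 → ContDiffAt ℝ ∞ (famN M) x :=
    fun x hx => fam_contDiffAt hM hx
  have hNd : ∀ x : Fin 4 → ℝ, x 0 ∈ Icc s0 s1 → (famN M x).det ≠ 0 :=
    fun x hx => hd _ hx _
  have hX : ∀ (i : Fin 4) (x : Fin 4 → ℝ), x 0 ∈ Icc s0 s1 →
      ContDiffAt ℝ ∞ (XF (famN M) i) x := fun i x hx => contDiffAt_XF (hNc x hx) (hNd x hx) i
  have hdiv : ∀ x : Fin 4 → ℝ, x 0 ∈ Icc s0 s1 →
      ∑ i, fderiv ℝ (XF (famN M) i) x (Pi.single i 1) = 0 :=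
    fun x hx => div_zero (hNc x hx) (hNd x hx)
  have hint : IntegrableOn (fun x => ∑ i, fderiv ℝ (XF (famN M) i) x (Pi.single i 1))
      (Icc a b) := by
    refine (integrableOn_zero (s := Icc a b)).congr_fun ?_ measurableSet_Icc
    intro x hx
    exact (hdiv x (hbox x hx)).symm
  have key := integral_divergence_of_hasFDerivAt_off_countable' a b hle (XF (famN M))
    (fun i p => fderiv ℝ (XF (famN M) i) p) ∅ countable_empty
    (fun i x hx => (hX i x (hbox x hx)).continuousAt.continuousWithinAt)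
    (fun x hx i => ((hX i x ?_).differentiableAt (by simp)).hasFDerivAt) hint
  swap
  · have := hx.1 0 (mem_univ _)
    exact Ioo_subset_Icc_self this
  have hzero : ∫ x in Icc a b, ∑ i, fderiv ℝ (XF (famN M) i) x (Pi.single i 1) = 0 := by
    rw [setIntegral_congr_fun measurableSet_Icc (g := fun _ => (0 : ℝ))
      (fun x hx => hdiv x (hbox x hx))]
    simp
  rw [hzero, Fin.sum_univ_four] at key
  -- face 0
  have g0 : ∀ (s : ℝ) (x : Fin 3 → ℝ), s ∈ Icc s0 s1 →
      XF (famN M) 0 ((0 : Fin 4).insertNth s x) = psi (M s) x := by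
    intro s x hs
    have hy0 : ((0 : Fin 4).insertNth s x : Fin 4 → ℝ) 0 = s := by simp
    have hy : ((0 : Fin 4).insertNth s x : Fin 4 → ℝ) 0 ∈ Icc s0 s1 := by rw [hy0]; exact hs
    have hyt : (fun i : Fin 3 => ((0 : Fin 4).insertNth s x : Fin 4 → ℝ) i.succ) = x := by
      funext i; simp
    have o1 := fam_om_succ hM hy 0
    have o2 := fam_om_succ hM hy 1
    have o3 := fam_om_succ hM hy 2
    rw [hyt, hy0] at o1 o2 o3
    change trace (om (famN M) 1 _ * (om (famN M) 2 _ * om (famN M) 3 _ -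
      om (famN M) 3 _ * om (famN M) 2 _)) = _
    have c1 : om (famN M) 1 ((0 : Fin 4).insertNth s x) = om (M s) 0 x := o1
    have c2 : om (famN M) 2 ((0 : Fin 4).insertNth s x) = om (M s) 1 x := o2
    have c3 : om (famN M) 3 ((0 : Fin 4).insertNth s x) = om (M s) 2 x := o3
    rw [c1, c2, c3]
    rfl
  have hins : ∀ (i : Fin 4) (c : ℝ) (x : Fin 3 → ℝ),
      (i.insertNth c x : Fin 4 → ℝ) = i.insertNth 0 x + Pi.single i c := by
    intro i c x
    funext j
    rcases Fin.eq_self_or_eq_succAbove i j with rfl | ⟨k, rfl⟩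
    · simp
    · simp
  have hface : ∀ (i : Fin 3) (c : ℝ) (x : Fin 3 → ℝ),
      x ∈ Icc (a ∘ i.succ.succAbove) (b ∘ i.succ.succAbove) →
      (i.succ.insertNth c x : Fin 4 → ℝ) 0 ∈ Icc s0 s1 := by
    intro i c x hx
    have e : (i.succ.insertNth c x : Fin 4 → ℝ) 0 = x 0 := by
      have : (0 : Fin 4) = i.succ.succAbove 0 := by
        rw [Fin.succ_succAbove_zero]
      conv_lhs => rw [this]
      rw [Fin.insertNth_apply_succAbove]
    rw [e]
    have h1 := hx.1 0
    have h2 := hx.2 0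
    simp only [Function.comp_apply, Fin.succ_succAbove_zero] at h1 h2
    exact ⟨h1, h2⟩
  -- periodic faces
  have gper : ∀ (i : Fin 3) (k : Fin 4) (x : Fin 3 → ℝ),
      x ∈ Icc (a ∘ i.succ.succAbove) (b ∘ i.succ.succAbove) →
      XF (famN M) k (i.succ.insertNth (2 * π) x) = XF (famN M) k (i.succ.insertNth 0 x) := by
    intro i k x hx
    have hy := hface i 0 x hx
    rw [hins i.succ (2 * π) x]
    have hp := fun j => fam_om_per hlt hM hy i j
    fin_cases k
    · change trace (om (famN M) 1 _ * (om (famN M) 2 _ * om (famN M) 3 _ -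
        om (famN M) 3 _ * om (famN M) 2 _)) = trace (om (famN M) 1 _ * (om (famN M) 2 _ *
        om (famN M) 3 _ - om (famN M) 3 _ * om (famN M) 2 _))
      rw [hp 1, hp 2, hp 3]
    · change -trace (om (famN M) 0 _ * (om (famN M) 2 _ * om (famN M) 3 _ -
        om (famN M) 3 _ * om (famN M) 2 _)) = -trace (om (famN M) 0 _ * (om (famN M) 2 _ *
        om (famN M) 3 _ - om (famN M) 3 _ * om (famN M) 2 _))
      rw [hp 0, hp 2, hp 3]
    · change -trace (om (famN M) 0 _ * (om (famN M) 3 _ * om (famN M) 1 _ -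
        om (famN M) 1 _ * om (famN M) 3 _)) = -trace (om (famN M) 0 _ * (om (famN M) 3 _ *
        om (famN M) 1 _ - om (famN M) 1 _ * om (famN M) 3 _))
      rw [hp 0, hp 1, hp 3]
    · change -trace (om (famN M) 0 _ * (om (famN M) 1 _ * om (famN M) 2 _ -
        om (famN M) 2 _ * om (famN M) 1 _)) = -trace (om (famN M) 0 _ * (om (famN M) 1 _ *
        om (famN M) 2 _ - om (famN M) 2 _ * om (famN M) 1 _))
      rw [hp 0, hp 1, hp 2]
  -- degenerate faces
  have gdeg : ∀ (c : ℝ) (x : Fin 3 → ℝ), c = 0 ∨ c = π →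
      x ∈ Icc (a ∘ (2 : Fin 4).succAbove) (b ∘ (2 : Fin 4).succAbove) →
      XF (famN M) 2 ((2 : Fin 4).insertNth c x) = 0 := by
    intro c x hc hx
    have hy : ((2 : Fin 4).insertNth c x : Fin 4 → ℝ) 0 ∈ Icc s0 s1 := hface 1 c x hx
    have o1 : om (famN M) 1 ((2 : Fin 4).insertNth c x) = _ := fam_om_succ hM hy 0
    have o3 : om (famN M) 3 ((2 : Fin 4).insertNth c x) = _ := fam_om_succ hM hy 2
    have hc1 : (fun i : Fin 3 => ((2 : Fin 4).insertNth c x : Fin 4 → ℝ) i.succ) 1 = c := by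
      change ((2 : Fin 4).insertNth c x : Fin 4 → ℝ) 2 = c
      rw [Fin.insertNth_apply_same]
    have hnice := fam_nice hM hy
    change -trace (om (famN M) 0 _ * (om (famN M) 3 _ * om (famN M) 1 _ -
      om (famN M) 1 _ * om (famN M) 3 _)) = 0
    rcases hc with rfl | rfl
    · have h13 : om (famN M) 1 ((2 : Fin 4).insertNth 0 x) =
          om (famN M) 3 ((2 : Fin 4).insertNth 0 x) := by
        rw [o1, o3]
        unfold om
        rw [hnice.dd_zero hc1]
      rw [h13, sub_self, Matrix.mul_zero, trace_zero, neg_zero]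
    · have h13 : om (famN M) 1 ((2 : Fin 4).insertNth π x) =
          -om (famN M) 3 ((2 : Fin 4).insertNth π x) := by
        rw [o1, o3]
        unfold om
        rw [hnice.dd_pi hc1, Matrix.mul_neg]
      rw [h13, Matrix.mul_neg, Matrix.neg_mul, sub_self, Matrix.mul_zero, trace_zero, neg_zero]
  have F0 : ∫ x in Icc (a ∘ (0 : Fin 4).succAbove) (b ∘ (0 : Fin 4).succAbove),
      XF (famN M) 0 ((0 : Fin 4).insertNth (b 0) x) = CS (M s1) := by
    unfold CS
    have e1 : a ∘ (0 : Fin 4).succAbove = 0 := by funext i; rfl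
    have e2 : b ∘ (0 : Fin 4).succAbove = top3 := by funext i; rfl
    rw [e1, e2]
    refine setIntegral_congr_fun measurableSet_Icc fun x _ => ?_
    exact g0 s1 x ⟨h, le_rfl⟩
  have F0' : ∫ x in Icc (a ∘ (0 : Fin 4).succAbove) (b ∘ (0 : Fin 4).succAbove),
      XF (famN M) 0 ((0 : Fin 4).insertNth (a 0) x) = CS (M s0) := by
    unfold CS
    have e1 : a ∘ (0 : Fin 4).succAbove = 0 := by funext i; rfl
    have e2 : b ∘ (0 : Fin 4).succAbove = top3 := by funext i; rfl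
    rw [e1, e2]
    refine setIntegral_congr_fun measurableSet_Icc fun x _ => ?_
    exact g0 s0 x ⟨le_rfl, h⟩
  have F1 : ∫ x in Icc (a ∘ (1 : Fin 4).succAbove) (b ∘ (1 : Fin 4).succAbove),
      XF (famN M) 1 ((1 : Fin 4).insertNth (b 1) x) =
      ∫ x in Icc (a ∘ (1 : Fin 4).succAbove) (b ∘ (1 : Fin 4).succAbove),
      XF (famN M) 1 ((1 : Fin 4).insertNth (a 1) x) :=
    setIntegral_congr_fun measurableSet_Icc fun x hx => gper 0 1 x hx
  have F3 : ∫ x in Icc (a ∘ (3 : Fin 4).succAbove) (b ∘ (3 : Fin 4).succAbove),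
      XF (famN M) 3 ((3 : Fin 4).insertNth (b 3) x) =
      ∫ x in Icc (a ∘ (3 : Fin 4).succAbove) (b ∘ (3 : Fin 4).succAbove),
      XF (famN M) 3 ((3 : Fin 4).insertNth (a 3) x) :=
    setIntegral_congr_fun measurableSet_Icc fun x hx => gper 2 3 x hx
  have F2 : ∫ x in Icc (a ∘ (2 : Fin 4).succAbove) (b ∘ (2 : Fin 4).succAbove),
      XF (famN M) 2 ((2 : Fin 4).insertNth (b 2) x) = 0 := by
    rw [setIntegral_congr_fun measurableSet_Icc (g := fun _ => (0 : ℝ))
      (fun x hx => gdeg (b 2) x (Or.inr rfl) hx)]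
    simp
  have F2' : ∫ x in Icc (a ∘ (2 : Fin 4).succAbove) (b ∘ (2 : Fin 4).succAbove),
      XF (famN M) 2 ((2 : Fin 4).insertNth (a 2) x) = 0 := by
    rw [setIntegral_congr_fun measurableSet_Icc (g := fun _ => (0 : ℝ))
      (fun x hx => gdeg (a 2) x (Or.inl rfl) hx)]
    simp
  rw [F0, F0', F1, F3, F2, F2'] at key
  linarith

end Pool.Agent.Lib.SkewU
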