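import Pool.Agent.Lib.MP_794fdb_gt.U.Calc2
import Pool.Agent.Lib.MP_794fdb_gt.U.Euler1

set_option autoImplicit false

open scoped ContDiff Matrix.Norms.Elementwise
open Real Set MeasureTheory Matrix

namespace Pool.Agent.Lib.SkewU

theorem gram_self_det {n m : ℕ} {g : Fin n → Fin m → ℝ} (hg : LinearIndependent ℝ g) :
    ((toM g)ᵀ * toM g).det ≠ 0 := by
  intro h
  obtain ⟨v, hv, hv0⟩ := exists_mulVec_eq_zero_iff.2 h
  have h1 : (toM g *ᵥ v) ⬝ᵥ (toM g *ᵥ v) = 0 := by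
    have h2 : v ⬝ᵥ ((toM g)ᵀ * toM g) *ᵥ v = 0 := by rw [hv0, dotProduct_zero]
    rw [← mulVec_mulVec, dotProduct_mulVec, vecMul_transpose] at h2
    exact h2
  have h3 : toM g *ᵥ v = 0 := dotProduct_self_eq_zero.1 h1
  have h4 : ∑ j, v j • g j = 0 := by
    rw [← h3]
    ext i
    simp only [toM, mulVec, dotProduct, of_apply, Finset.sum_apply, Pi.smul_apply, smul_eq_mul]
    exact Finset.sum_congr rfl fun j _ => mul_comm _ _
  exact hv (funext fun j => Fintype.linearIndependent_iff.1 hg v h4 j)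

theorem gram_continuous {n m : ℕ} :
    Continuous fun x : (Fin n → Fin m → ℝ) × (Fin n → Fin m → ℝ) =>
      ((toM x.1)ᵀ * toM x.2).det := by
  refine Continuous.matrix_det ?_
  refine Continuous.matrix_mul ?_ ?_
  · refine continuous_pi fun i => continuous_pi fun j => ?_
    exact (continuous_apply j).comp ((continuous_apply i).comp continuous_fst)
  · refine continuous_pi fun i => continuous_pi fun j => ?_
    exact (continuous_apply i).comp ((continuous_apply j).comp continuous_snd)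

theorem gram_uniform {s0 s1 : ℝ} (h : s0 ≤ s1) (a : ℝ → P3 → Fin 4 → V6)
    (ha : NiceFam s0 s1 a) (hli : ∀ s ∈ Icc s0 s1, ∀ p, LinearIndependent ℝ (a s p)) :
    ∃ δ > 0, ∀ s ∈ Icc s0 s1, ∀ t ∈ Icc s0 s1, |s - t| ≤ δ →
      ∀ p, ((toM (a s p))ᵀ * toM (a t p)).det ≠ 0 := by
  set B : Set P3 := Icc (0 : P3) (fun _ => 2 * π) with hB
  set K : Set (ℝ × ℝ × P3) := Icc s0 s1 ×ˢ Icc s0 s1 ×ˢ B with hK
  have hKc : IsCompact K := isCompact_Icc.prod (isCompact_Icc.prod isCompact_Icc)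
  set D : ℝ × ℝ × P3 → ℝ := fun x => ((toM (a x.1 x.2.2))ᵀ * toM (a x.2.1 x.2.2)).det with hD
  have hDc : ContinuousOn D K := by
    rintro ⟨s, t, p⟩ ⟨hs, ht, -⟩
    have h1 : ContinuousAt (fun x : ℝ × ℝ × P3 => a x.1 x.2.2) (s, t, p) := by
      have h := (ha.1 s hs p).continuousAt
      exact ContinuousAt.comp (f := fun x : ℝ × ℝ × P3 => (x.1, x.2.2))
        (g := fun x : ℝ × P3 => a x.1 x.2) h (by fun_prop)
    have h2 : ContinuousAt (fun x : ℝ × ℝ × P3 => a x.2.1 x.2.2) (s, t, p) := by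
      have h := (ha.1 t ht p).continuousAt
      exact ContinuousAt.comp (f := fun x : ℝ × ℝ × P3 => (x.2.1, x.2.2))
        (g := fun x : ℝ × P3 => a x.1 x.2) h (by fun_prop)
    exact (ContinuousAt.comp (f := fun x : ℝ × ℝ × P3 => (a x.1 x.2.2, a x.2.1 x.2.2))
      gram_continuous.continuousAt (h1.prodMk h2)).continuousWithinAt
  set Z : Set (ℝ × ℝ × P3) := K ∩ D ⁻¹' {0} with hZ
  have hZc : IsCompact Z :=
    hKc.of_isClosed_subset (hDc.preimage_isClosed_of_isClosed hKc.isClosed isClosed_singleton)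
      inter_subset_left
  have hfin : ∀ δ : ℝ, (∀ z ∈ Z, δ < |z.1 - z.2.1|) → ∀ s ∈ Icc s0 s1, ∀ t ∈ Icc s0 s1,
      |s - t| ≤ δ → ∀ p, ((toM (a s p))ᵀ * toM (a t p)).det ≠ 0 := by
    intro δ hδ s hs t ht hst p h0
    obtain ⟨q, hq, hqp⟩ := S_box p
    rw [← ha.2 s hs q p hqp, ← ha.2 t ht q p hqp] at h0
    exact absurd (hδ (s, t, q) ⟨⟨hs, ht, hq⟩, h0⟩) (not_lt.2 hst)
  rcases Z.eq_empty_or_nonempty with hE | hE
  · exact ⟨1, one_pos, hfin 1 fun z hz => by rw [hE] at hz; exact absurd hz (notMem_empty z)⟩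
  · obtain ⟨z, hz, hmin⟩ := hZc.exists_isMinOn hE
      (f := fun z : ℝ × ℝ × P3 => |z.1 - z.2.1|) (by fun_prop)
    have hpos : 0 < |z.1 - z.2.1| := by
      rw [abs_pos, sub_ne_zero]
      intro heq
      obtain ⟨⟨hs, ht, hp⟩, h0⟩ := hz
      have h0' : ((toM (a z.1 z.2.2))ᵀ * toM (a z.2.1 z.2.2)).det = 0 := h0
      rw [← heq] at h0'
      exact gram_self_det (hli z.1 hs z.2.2) h0'
    refine ⟨|z.1 - z.2.1| / 2, half_pos hpos, hfin _ fun w hw => ?_⟩
    have h1 : |z.1 - z.2.1| ≤ |w.1 - w.2.1| := hmin hw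
    linarith

end Pool.Agent.Lib.SkewU
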