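import Pool.Agent.Lib.MP_794fdb_gt.U.Defs
import Pool.Agent.TotallySkew.Tools

set_option autoImplicit false

open scoped ContDiff Matrix.Norms.Elementwise Manifold
open Real Set MeasureTheory Matrix

namespace Pool.Agent.Lib.SkewU

open Pool.Agent.TotallySkew

abbrev E3 : Type := EuclideanSpace ℝ (Fin 3)

abbrev E6 : Type := EuclideanSpace ℝ (Fin 6)

instance : Fact (Module.finrank ℝ E3 = 2 + 1) := ⟨finrank_euclideanSpace_fin⟩

/-- The unit sphere. -/
abbrev S2 : Type := Metric.sphere (0 : E3) 1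

/-- The extension of a map of the sphere with homogeneity zero (the value at `0` is `0`). -/
noncomputable def ext (φ : S2 → E6) (p : V3) : V6 :=
  if h : p = 0 then 0 else
    (φ ⟨(‖(WithLp.toLp 2 p : E3)‖)⁻¹ • (WithLp.toLp 2 p : E3), by
      have h' : (WithLp.toLp 2 p : E3) ≠ 0 := by
        intro h0
        apply h
        have := congrArg WithLp.ofLp h0
        simpa using this
      simp [norm_smul, norm_ne_zero_iff.2 h']⟩ : E6).ofLp

/-- The radial projection to the sphere, away from the origin. -/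
noncomputable def mani1_rad (p : V3) : E3 :=
  (‖(WithLp.toLp 2 p : E3)‖)⁻¹ • (WithLp.toLp 2 p : E3)

theorem mani1_toLp_ne {p : V3} (h : p ≠ 0) : (WithLp.toLp 2 p : E3) ≠ 0 := by
  intro h0
  apply h
  have := congrArg WithLp.ofLp h0
  simpa using this

theorem mani1_rad_mem {p : V3} (h : p ≠ 0) : mani1_rad p ∈ Metric.sphere (0 : E3) 1 := by
  have h' := mani1_toLp_ne h
  simp [mani1_rad, norm_smul, norm_ne_zero_iff.2 h']

theorem mani1_ext_eq (φ : S2 → E6) {p : V3} (h : p ≠ 0) :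
    ext φ p = (φ ⟨mani1_rad p, mani1_rad_mem h⟩ : E6).ofLp := by
  unfold ext
  rw [dif_neg h]
  rfl

theorem mani1_unit_ne (x : S2) : (x : E3).ofLp ≠ 0 := by
  intro h
  have h1 : (x : E3) = 0 := by
    ext i
    simpa using congrFun h i
  have h2 : ‖(x : E3)‖ = 1 := by simp
  rw [h1, norm_zero] at h2
  exact zero_ne_one h2

theorem ext_unit (φ : S2 → E6) (x : S2) : ext φ (x : E3).ofLp = (φ x).ofLp := by
  rw [mani1_ext_eq φ (mani1_unit_ne x)]
  have h2 : ‖(x : E3)‖ = 1 := by simp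
  have h3 : mani1_rad (x : E3).ofLp = (x : E3) := by
    unfold mani1_rad
    rw [WithLp.toLp_ofLp, h2, inv_one, one_smul]
  have h4 : (⟨mani1_rad (x : E3).ofLp, mani1_rad_mem (mani1_unit_ne x)⟩ : S2) = x :=
    Subtype.ext h3
  rw [h4]

theorem ext_homog (φ : S2 → E6) {x : V3} (hx : x ≠ 0) {r : ℝ} (hr : 0 < r) :
    ext φ (r • x) = ext φ x := by
  have hrx : r • x ≠ 0 := smul_ne_zero hr.ne' hx
  rw [mani1_ext_eq φ hrx, mani1_ext_eq φ hx]
  have h3 : mani1_rad (r • x) = mani1_rad x := by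
    unfold mani1_rad
    have e : (WithLp.toLp 2 (r • x) : E3) = r • (WithLp.toLp 2 x : E3) := rfl
    rw [e, norm_smul, Real.norm_of_nonneg hr.le, mul_inv, smul_smul]
    congr 1
    field_simp
  have h4 : (⟨mani1_rad (r • x), mani1_rad_mem hrx⟩ : S2) = ⟨mani1_rad x, mani1_rad_mem hx⟩ :=
    Subtype.ext h3
  rw [h4]

/-- The open set of nonzero vectors. -/
def mani1_U : TopologicalSpace.Opens V3 := ⟨{0}ᶜ, isOpen_compl_singleton⟩

theorem mani1_rad_smooth {x : V3} (hx : x ≠ 0) : ContDiffAt ℝ ∞ mani1_rad x := by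
  have h1 : ContDiff ℝ ∞ (fun p : V3 => (WithLp.toLp 2 p : E3)) := PiLp.contDiff_toLp
  have h' := mani1_toLp_ne hx
  exact ((h1.contDiffAt.norm ℝ h').inv (norm_ne_zero_iff.2 h')).smul h1.contDiffAt

theorem ext_smooth {φ : S2 → E6} (hφ : ContMDiff (𝓡 2) 𝓘(ℝ, E6) ∞ φ) {x : V3} (hx : x ≠ 0) :
    ContDiffAt ℝ ∞ (ext φ) x := by
  have hmem : ∀ p : mani1_U, (mani1_rad (p : V3)) ∈ Metric.sphere (0 : E3) 1 := fun p =>
    mani1_rad_mem p.2
  have h1 : ContMDiff 𝓘(ℝ, V3) 𝓘(ℝ, E3) ∞ (fun p : mani1_U => mani1_rad (p : V3)) := by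
    intro p
    have h2 : ContMDiffAt 𝓘(ℝ, V3) 𝓘(ℝ, E3) ∞ mani1_rad (p : V3) :=
      (mani1_rad_smooth p.2).contMDiffAt
    exact contMDiffAt_subtype_iff.2 h2
  have h3 := h1.codRestrict_sphere (n := 2) hmem
  have h4 : ContMDiff 𝓘(ℝ, V3) 𝓘(ℝ, E6) ∞
      (fun p : mani1_U => φ (Set.codRestrict _ _ hmem p)) := hφ.comp h3
  have h5 : ContMDiff 𝓘(ℝ, V3) 𝓘(ℝ, V6) ∞ (fun p : mani1_U => ext φ (p : V3)) := by
    have h6 : ContMDiff 𝓘(ℝ, E6) 𝓘(ℝ, V6) ∞ (fun e : E6 => e.ofLp) :=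
      PiLp.contDiff_ofLp.contMDiff
    have h7 := h6.comp h4
    have h8 : (fun p : mani1_U => ext φ (p : V3)) =
        (fun e : E6 => e.ofLp) ∘ (fun p : mani1_U => φ (Set.codRestrict _ _ hmem p)) := by
      funext p
      exact mani1_ext_eq φ p.2
    rw [h8]
    exact h7
  have h9 := h5 (⟨x, hx⟩ : mani1_U)
  have h10 : ContMDiffAt 𝓘(ℝ, V3) 𝓘(ℝ, V6) ∞ (ext φ) x :=
    (contMDiffAt_subtype_iff (U := mani1_U) (f := ext φ) (x := ⟨x, hx⟩)).1 h9
  exact h10.contDiffAt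

end Pool.Agent.Lib.SkewU
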