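import Pool.Agent.Lib.MP_794fdb_gt.U.Mani1

set_option autoImplicit false

open scoped ContDiff Matrix.Norms.Elementwise Manifold
open Real Set MeasureTheory Matrix

namespace Pool.Agent.Lib.SkewU

open Pool.Agent.TotallySkew

/-- The inclusion of the unit sphere. -/
abbrev mani2_inc : S2 → E3 := Subtype.val

theorem mani2_inc_mdiff (x : S2) : MDifferentiableAt (𝓡 2) 𝓘(ℝ, E3) mani2_inc x :=
  (contMDiff_coe_sphere (m := 1) (n := 2) x).mdifferentiableAt one_ne_zero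

theorem mani2_dot (a b : E3) : a.ofLp ⬝ᵥ b.ofLp = inner ℝ a b := by
  simp only [dotProduct, PiLp.inner_apply, RCLike.inner_apply, conj_trivial]
  exact Finset.sum_congr rfl fun i _ => mul_comm _ _

/-- Every vector orthogonal to `x` is a tangent vector. -/
theorem mani2_exists_tangent (x : S2) {v : V3} (hv : (x : E3).ofLp ⬝ᵥ v = 0) :
    ∃ u : TangentSpace (𝓡 2) x, mvfderiv (𝓡 2) mani2_inc x u = (WithLp.toLp 2 v : E3) := by
  have h : (WithLp.toLp 2 v : E3) ∈ (mvfderiv (𝓡 2) mani2_inc x).range := by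
    rw [range_mvfderiv_subtypeVal, Submodule.mem_orthogonal_singleton_iff_inner_right,
      ← mani2_dot]
    exact hv
  obtain ⟨u, hu⟩ := h
  exact ⟨u, hu⟩

/-- The vector valued derivative of `φ` through an extension. -/
theorem mani2_mvfderiv {φ : S2 → E6} {Ψ : V3 → V6} {x : S2}
    (hΨ : DifferentiableAt ℝ Ψ (x : E3).ofLp) (h : ∀ y : S2, Ψ (y : E3).ofLp = (φ y).ofLp)
    (u : TangentSpace (𝓡 2) x) :
    (mvfderiv (𝓡 2) φ x u : E6).ofLp =
      fderiv ℝ Ψ (x : E3).ofLp (mvfderiv (𝓡 2) mani2_inc x u : E3).ofLp := by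
  let A : E3 ≃L[ℝ] V3 := PiLp.continuousLinearEquiv 2 ℝ (fun _ : Fin 3 => ℝ)
  let B : V6 ≃L[ℝ] E6 := (PiLp.continuousLinearEquiv 2 ℝ (fun _ : Fin 6 => ℝ)).symm
  have h1 : HasFDerivAt (fun e : E3 => B (Ψ (A e)))
      ((B : V6 →L[ℝ] E6).comp ((fderiv ℝ Ψ (x : E3).ofLp).comp (A : E3 →L[ℝ] V3)))
      (mani2_inc x) := by
    have hA : HasFDerivAt (fun e : E3 => A e) (A : E3 →L[ℝ] V3) (mani2_inc x) :=
      A.hasFDerivAt
    have hP : HasFDerivAt Ψ (fderiv ℝ Ψ (x : E3).ofLp) (A (mani2_inc x)) := hΨ.hasFDerivAt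
    have hB : HasFDerivAt (fun e : V6 => B e) (B : V6 →L[ℝ] E6) (Ψ (A (mani2_inc x))) :=
      B.hasFDerivAt
    exact hB.comp (mani2_inc x) (hP.comp (mani2_inc x) hA)
  have h2 := mvfderiv_comp_of_hasFDerivAt h1 (mani2_inc_mdiff x) u
  have h3 : (fun p : S2 => B (Ψ (A (mani2_inc p)))) = φ := by
    funext p
    have h4 : Ψ (A (mani2_inc p)) = (φ p).ofLp := h p
    rw [h4]
    rfl
  rw [h3] at h2
  rw [h2]
  rfl

/-- A smooth map near `x` whose restriction to the sphere is `φ` has tangential derivative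
`dφ`. -/
theorem mvfderiv_of_extension {φ : S2 → E6} {Ψ : V3 → V6} {x : S2}
    (hΨ : DifferentiableAt ℝ Ψ (x : E3).ofLp) (h : ∀ y : S2, Ψ (y : E3).ofLp = (φ y).ofLp)
    {v : V3} (hv : (x : E3).ofLp ⬝ᵥ v = 0) :
    ∃ u : TangentSpace (𝓡 2) x, (mvfderiv (𝓡 2) φ x u : E6).ofLp = fderiv ℝ Ψ (x : E3).ofLp v ∧
      (u = 0 → v = 0) := by
  obtain ⟨u, hu⟩ := mani2_exists_tangent x hv
  refine ⟨u, ?_, ?_⟩
  · rw [mani2_mvfderiv hΨ h u, hu]
  · intro h0
    rw [h0, map_zero] at hu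
    have := congrArg WithLp.ofLp hu
    simpa using this.symm

end Pool.Agent.Lib.SkewU
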