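import Pool.Agent.Lib.MP_794fdb_gt.U.Calc2

set_option autoImplicit false

open scoped ContDiff Matrix.Norms.Elementwise
open Real Set MeasureTheory Matrix

namespace Pool.Agent.Lib.SkewU

/-- The orthogonal projection to the complement of the span of `a`. -/
noncomputable def proj (a : Fin 4 → V6) (x : V6) : V6 :=
  x - toM a *ᵥ ((toM a)ᵀ * toM a)⁻¹ *ᵥ ((toM a)ᵀ *ᵥ x)

theorem proj_toM_mulVec {n m : ℕ} (g : Fin n → Fin m → ℝ) (c : Fin n → ℝ) :
    toM g *ᵥ c = ∑ j, c j • g j := by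
  ext i
  simp only [toM, mulVec, dotProduct, of_apply, Finset.sum_apply, Pi.smul_apply, smul_eq_mul]
  exact Finset.sum_congr rfl fun j _ => mul_comm _ _

theorem proj_toM_transpose_mulVec {n m : ℕ} (g : Fin n → Fin m → ℝ) (x : Fin m → ℝ) (j : Fin n) :
    ((toM g)ᵀ *ᵥ x) j = g j ⬝ᵥ x := by
  simp [toM, mulVec, dotProduct, transpose_apply]

theorem proj_gram_det {n m : ℕ} {g : Fin n → Fin m → ℝ} (hg : LinearIndependent ℝ g) :
    ((toM g)ᵀ * toM g).det ≠ 0 := by
  intro h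
  obtain ⟨v, hv, hv0⟩ := exists_mulVec_eq_zero_iff.2 h
  have h1 : (toM g *ᵥ v) ⬝ᵥ (toM g *ᵥ v) = 0 := by
    have h2 : v ⬝ᵥ ((toM g)ᵀ * toM g) *ᵥ v = 0 := by rw [hv0, dotProduct_zero]
    rw [← mulVec_mulVec, dotProduct_mulVec, vecMul_transpose] at h2
    exact h2
  have h3 : toM g *ᵥ v = 0 := dotProduct_self_eq_zero.1 h1
  rw [proj_toM_mulVec] at h3
  exact hv (funext fun j => Fintype.linearIndependent_iff.1 hg v h3 j)

theorem proj_orth {a : Fin 4 → V6} (ha : LinearIndependent ℝ a) (x : V6) (j : Fin 4) :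
    a j ⬝ᵥ proj a x = 0 := by
  have hd := proj_gram_det ha
  rw [← proj_toM_transpose_mulVec, proj, mulVec_sub]
  have h1 : (toM a)ᵀ *ᵥ (toM a *ᵥ ((toM a)ᵀ * toM a)⁻¹ *ᵥ ((toM a)ᵀ *ᵥ x)) = (toM a)ᵀ *ᵥ x := by
    rw [mulVec_mulVec, mulVec_mulVec, mul_nonsing_inv _ (isUnit_iff_ne_zero.2 hd), one_mulVec]
  rw [h1, sub_self]
  rfl

theorem proj_sub_mem (a : Fin 4 → V6) (x : V6) :
    x - proj a x ∈ Submodule.span ℝ (range a) := by
  rw [proj, sub_sub_cancel, proj_toM_mulVec]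
  exact Submodule.sum_mem _ fun j _ =>
    Submodule.smul_mem _ _ (Submodule.subset_span (mem_range_self j))

theorem proj_eq_self {a : Fin 4 → V6} {x : V6} (hx : ∀ j, a j ⬝ᵥ x = 0) : proj a x = x := by
  have h : (toM a)ᵀ *ᵥ x = 0 := by
    ext j
    rw [proj_toM_transpose_mulVec, hx j]
    rfl
  rw [proj, h, mulVec_zero, mulVec_zero, sub_zero]

theorem proj_linear (a : Fin 4 → V6) (x y : V6) (c d : ℝ) :
    proj a (c • x + d • y) = c • proj a x + d • proj a y := by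
  simp only [proj, mulVec_add, mulVec_smul, smul_sub]
  abel

theorem proj_contDiffAt_mulVec {E : Type} [NormedAddCommGroup E] [NormedSpace ℝ E] {n m : ℕ}
    {M : E → Matrix (Fin n) (Fin m) ℝ} {v : E → Fin m → ℝ} {x : E}
    (hM : ContDiffAt ℝ ∞ M x) (hv : ContDiffAt ℝ ∞ v x) :
    ContDiffAt ℝ ∞ (fun z => M z *ᵥ v z) x := by
  rw [contDiffAt_pi]
  intro i
  simp only [mulVec, dotProduct]
  refine ContDiffAt.sum fun j _ => ContDiffAt.mul ?_ ?_
  · exact contDiffAt_pi.1 (contDiffAt_pi.1 hM i) j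
  · exact contDiffAt_pi.1 hv j

theorem proj_contDiffAt_transpose {E : Type} [NormedAddCommGroup E] [NormedSpace ℝ E] {n m : ℕ}
    {M : E → Matrix (Fin n) (Fin m) ℝ} {x : E} (hM : ContDiffAt ℝ ∞ M x) :
    ContDiffAt ℝ ∞ (fun z => (M z)ᵀ) x := by
  refine contDiffAt_pi.2 fun i => contDiffAt_pi.2 fun j => ?_
  exact contDiffAt_pi.1 (contDiffAt_pi.1 hM j) i

theorem contDiffAt_proj {E : Type} [NormedAddCommGroup E] [NormedSpace ℝ E]
    {a : E → Fin 4 → V6} {y : E → V6} {x : E} (ha : ContDiffAt ℝ ∞ a x)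
    (hy : ContDiffAt ℝ ∞ y x) (hli : LinearIndependent ℝ (a x)) :
    ContDiffAt ℝ ∞ (fun z => proj (a z) (y z)) x := by
  have h1 : ContDiffAt ℝ ∞ (fun z => toM (a z)) x := contDiffAt_toM ha
  have h2 := proj_contDiffAt_transpose h1
  have h3 : ContDiffAt ℝ ∞ (fun z => (toM (a z))ᵀ * toM (a z)) x := contDiffAt_mul h2 h1
  have h4 : ContDiffAt ℝ ∞ (fun z => ((toM (a z))ᵀ * toM (a z))⁻¹) x :=
    contDiffAt_inv h3 (proj_gram_det hli)
  have h5 := proj_contDiffAt_mulVec h2 hy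
  have h6 := proj_contDiffAt_mulVec h4 h5
  have h7 := proj_contDiffAt_mulVec h1 h6
  exact hy.sub h7

theorem proj_det_iff {n : ℕ} {g : Fin n → Fin n → ℝ} :
    (toM g).det ≠ 0 ↔ LinearIndependent ℝ g := by
  rw [← isUnit_iff_ne_zero, ← det_transpose, ← isUnit_iff_isUnit_det,
    ← linearIndependent_rows_iff_isUnit]
  rfl

theorem det_app_ne_zero_iff {a : Fin 4 → V6} {b : Fin 2 → V6} :
    (toM (app a b)).det ≠ 0 ↔ LinearIndependent ℝ (app a b) := proj_det_iff

/-- Replacing `b` by its projection, with a parameter. -/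
theorem det_app_proj {a : Fin 4 → V6} (b : Fin 2 → V6) (r : ℝ) :
    (toM (app a fun i => (1 - r) • b i + r • proj a (b i))).det = (toM (app a b)).det := by
  have key : ∀ i, ∃ c : Fin 4 → ℝ, (1 - r) • b i + r • proj a (b i) = b i + ∑ j, c j • a j := by
    intro i
    refine ⟨fun j => -r * (((toM a)ᵀ * toM a)⁻¹ *ᵥ ((toM a)ᵀ *ᵥ b i)) j, ?_⟩
    have h := proj_toM_mulVec a (((toM a)ᵀ * toM a)⁻¹ *ᵥ ((toM a)ᵀ *ᵥ b i))
    have h2 : ∑ j, (-r * (((toM a)ᵀ * toM a)⁻¹ *ᵥ ((toM a)ᵀ *ᵥ b i)) j) • a j =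
        -r • (toM a *ᵥ (((toM a)ᵀ * toM a)⁻¹ *ᵥ ((toM a)ᵀ *ᵥ b i))) := by
      rw [h, Finset.smul_sum]
      exact Finset.sum_congr rfl fun j _ => mul_smul _ _ _
    rw [h2, proj, smul_sub, sub_smul, one_smul, neg_smul]
    abel
  obtain ⟨c, hc⟩ := key 0
  obtain ⟨d, hd⟩ := key 1
  let U : Mat 6 := !![1, 0, 0, 0, c 0, d 0; 0, 1, 0, 0, c 1, d 1; 0, 0, 1, 0, c 2, d 2;
    0, 0, 0, 1, c 3, d 3; 0, 0, 0, 0, 1, 0; 0, 0, 0, 0, 0, 1]
  have hU : U.det = 1 := by
    rw [det_of_isUpperTriangular]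
    · simp [U, Fin.prod_univ_succ]
    · intro i j hij
      fin_cases i <;> fin_cases j <;> first | rfl | (exact absurd hij (by decide))
  have hm : toM (app a fun i => (1 - r) • b i + r • proj a (b i)) = toM (app a b) * U := by
    have e : (app a fun i => (1 - r) • b i + r • proj a (b i)) =
        ![a 0, a 1, a 2, a 3, b 0 + ∑ j, c j • a j, b 1 + ∑ j, d j • a j] := by
      rw [app, hc, hd]
    rw [e]
    ext i j
    fin_cases j <;>
      simp [toM, app, U, Matrix.mul_apply, Fin.sum_univ_succ] <;> ring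
  rw [hm, det_mul, hU, mul_one]

/-- If no nonzero vector of the span of `a'` is orthogonal to `a`, the projection of an
independent pair orthogonal to `a` completes `a'`. -/
theorem app_proj_of_gram {a a' : Fin 4 → V6} {b : Fin 2 → V6} (ha' : LinearIndependent ℝ a')
    (hb : LinearIndependent ℝ b) (hab : ∀ j i, a j ⬝ᵥ b i = 0)
    (hg : ((toM a)ᵀ * toM a').det ≠ 0) :
    LinearIndependent ℝ (app a' fun i => proj a' (b i)) ∧
      LinearIndependent ℝ fun i => proj a' (b i) := by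
  have main : LinearIndependent ℝ (app a' fun i => proj a' (b i)) := by
    rw [Fintype.linearIndependent_iff]
    intro g hg0
    have h6 : ∑ i, g i • (app a' fun i => proj a' (b i)) i =
        (∑ j : Fin 4, ![g 0, g 1, g 2, g 3] j • a' j) +
          (g 4 • proj a' (b 0) + g 5 • proj a' (b 1)) := by
      simp [app, Fin.sum_univ_succ]
      abel
    rw [h6, ← proj_linear] at hg0
    set y : V6 := g 4 • b 0 + g 5 • b 1 with hy
    have h7 : proj a' y = -∑ j : Fin 4, ![g 0, g 1, g 2, g 3] j • a' j :=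
      eq_neg_of_add_eq_zero_right hg0
    have h8' : ∀ z : V6, (∀ j, a' j ⬝ᵥ z = 0) →
        (-∑ j : Fin 4, ![g 0, g 1, g 2, g 3] j • a' j) ⬝ᵥ z = 0 := by
      intro z hz
      rw [neg_dotProduct, sum_dotProduct, neg_eq_zero]
      exact Finset.sum_eq_zero fun j _ => by rw [smul_dotProduct, hz, smul_zero]
    have h8 : proj a' y ⬝ᵥ proj a' y = 0 := by
      have h := h8' (proj a' y) fun j => proj_orth ha' y j
      rwa [← h7] at h
    have h9 : proj a' y = 0 := dotProduct_self_eq_zero.1 h8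
    have h10 : ∑ j : Fin 4, ![g 0, g 1, g 2, g 3] j • a' j = 0 := by
      rw [h9] at h7
      rw [← neg_eq_zero, ← h7]
    have h11 := Fintype.linearIndependent_iff.1 ha' _ h10
    -- y is in the span of a' and orthogonal to a
    have h12 : y = toM a' *ᵥ (((toM a')ᵀ * toM a')⁻¹ *ᵥ ((toM a')ᵀ *ᵥ y)) := by
      have := h9
      rw [proj, sub_eq_zero] at this
      exact this
    set c := ((toM a')ᵀ * toM a')⁻¹ *ᵥ ((toM a')ᵀ *ᵥ y) with hc
    have h13 : ((toM a)ᵀ * toM a') *ᵥ c = 0 := by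
      rw [← mulVec_mulVec, ← h12]
      ext j
      rw [proj_toM_transpose_mulVec, hy, dotProduct_add, dotProduct_smul, dotProduct_smul, hab,
        hab]
      simp
    have h14 : c = 0 := by
      by_contra hne
      exact hg (exists_mulVec_eq_zero_iff.1 ⟨c, hne, h13⟩)
    have h15 : y = 0 := by rw [h12, h14, mulVec_zero]
    have h16 : ∑ i : Fin 2, ![g 4, g 5] i • b i = 0 := by
      rw [Fin.sum_univ_two]
      exact h15
    have h17 := Fintype.linearIndependent_iff.1 hb _ h16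
    intro i
    fin_cases i
    · exact h11 0
    · exact h11 1
    · exact h11 2
    · exact h11 3
    · exact h17 0
    · exact h17 1
  refine ⟨main, ?_⟩
  have h := main.comp (![4, 5] : Fin 2 → Fin 6) (by decide)
  have e : (app a' fun i => proj a' (b i)) ∘ (![4, 5] : Fin 2 → Fin 6) =
      fun i => proj a' (b i) := by
    funext i
    fin_cases i <;> rfl
  rwa [e] at h

end Pool.Agent.Lib.SkewU
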