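import Pool.Agent.Lib.MP_794fdb_gt.U.Proj
import Pool.Agent.Lib.MP_794fdb_gt.U.Gram
import Pool.Agent.Lib.MP_794fdb_gt.U.Fam
import Pool.Agent.Lib.MP_794fdb_gt.U.Basic

set_option autoImplicit false

open scoped ContDiff Matrix.Norms.Elementwise
open Real Set MeasureTheory Matrix

namespace Pool.Agent.Lib.SkewU

lemma trans_famProj {t0 t1 s0 s1 : ℝ} (h0 : s0 ≤ t0) (h1 : t1 ≤ s1) {a : ℝ → P3 → Fin 4 → V6}
    (ha : NiceFam s0 s1 a)
    (hli : ∀ s ∈ Icc s0 s1, ∀ p, LinearIndependent ℝ (a s p)) {b : P3 → Fin 2 → V6}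
    (hb : Nice b) : NiceFam t0 t1 (fun u p i => proj (a u p) (b p i)) := by
  have hsub : Icc t0 t1 ⊆ Icc s0 s1 := Icc_subset_Icc h0 h1
  refine ⟨fun u hu p => ?_, fun u hu p q hpq => ?_⟩
  · rw [contDiffAt_pi]
    intro i
    refine contDiffAt_proj (ha.1 u (hsub hu) p) ?_ (hli u (hsub hu) p)
    have h2 : ContDiff ℝ ∞ (fun x : ℝ × P3 => b x.2 i) :=
      ((contDiff_pi.1 hb.1) i).comp contDiff_snd
    exact h2.contDiffAt
  · funext i
    simp only
    rw [ha.2 u (hsub hu) p q hpq, hb.2 p q hpq]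

lemma trans_restrict {t0 t1 s0 s1 : ℝ} (h0 : s0 ≤ t0) (h1 : t1 ≤ s1) {a : ℝ → P3 → Fin 4 → V6}
    (ha : NiceFam s0 s1 a) : NiceFam t0 t1 a :=
  ⟨fun u hu p => ha.1 u (Icc_subset_Icc h0 h1 hu) p,
    fun u hu p q hpq => ha.2 u (Icc_subset_Icc h0 h1 hu) p q hpq⟩

lemma trans_indep_right {a : Fin 4 → V6} {b : Fin 2 → V6} (h : LinearIndependent ℝ (app a b)) :
    LinearIndependent ℝ b := by
  have h1 : b = app a b ∘ (![4, 5] : Fin 2 → Fin 6) := by
    funext i
    fin_cases i <;> rfl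
  rw [h1]
  exact h.comp _ (by decide)

lemma trans_start {s0 s1 : ℝ} (h : s0 ≤ s1) (a : ℝ → P3 → Fin 4 → V6) (ha : NiceFam s0 s1 a)
    (hli : ∀ s ∈ Icc s0 s1, ∀ p, LinearIndependent ℝ (a s p)) (b : P3 → Fin 2 → V6)
    (hb : Nice b) (hd : ∀ p, (toM (app (a s0 p) (b p))).det ≠ 0) :
    ∃ b' : P3 → Fin 2 → V6, Nice b' ∧ (∀ p, (toM (app (a s0 p) (b' p))).det ≠ 0) ∧
      (∀ p i j, a s0 p i ⬝ᵥ b' p j = 0) ∧
      CS (fun p => toM (app (a s0 p) (b p))) = CS (fun p => toM (app (a s0 p) (b' p))) := by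
  have hs0 : s0 ∈ Icc s0 s1 := ⟨le_rfl, h⟩
  have hpf : NiceFam s0 s1 (fun u p i => proj (a u p) (b p i)) :=
    trans_famProj le_rfl le_rfl ha hli hb
  have hnb : Nice (fun p i => proj (a s0 p) (b p i)) := hpf.nice hs0
  have ha0 : Nice (a s0) := ha.nice hs0
  refine ⟨fun p i => proj (a s0 p) (b p i), hnb, fun p => ?_, fun p i j => ?_, ?_⟩
  · have h1 := det_app_proj (a := a s0 p) (b p) 1
    have h2 : (fun i => (1 - (1 : ℝ)) • b p i + (1 : ℝ) • proj (a s0 p) (b p i)) =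
        fun i => proj (a s0 p) (b p i) := by
      funext i
      simp
    rw [h2] at h1
    rw [h1]
    exact hd p
  · exact proj_orth (hli s0 hs0 p) _ i
  · have hB : NiceFam 0 1 (fun (r : ℝ) (p : P3) (i : Fin 2) =>
        (1 - r) • b p i + r • proj (a s0 p) (b p i)) := by
      refine ⟨fun r _ p => ?_, fun r _ p q hpq => ?_⟩
      · rw [contDiffAt_pi]
        intro i
        have e1 : ContDiff ℝ ∞ (fun x : ℝ × P3 => b x.2 i) :=
          ((contDiff_pi.1 hb.1) i).comp contDiff_snd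
        have e2 : ContDiff ℝ ∞ (fun x : ℝ × P3 => proj (a s0 x.2) (b x.2 i)) :=
          ((contDiff_pi.1 hnb.1) i).comp contDiff_snd
        have e3 : ContDiff ℝ ∞ (fun x : ℝ × P3 => x.1) := contDiff_fst
        exact (((contDiff_const.sub e3).smul e1).add (e3.smul e2)).contDiffAt
      · funext i
        simp only
        rw [ha.2 s0 hs0 p q hpq, hb.2 p q hpq]
    have hM : NiceFam 0 1 (fun (r : ℝ) (p : P3) => toM (app (a s0 p) fun i : Fin 2 =>
        (1 - r) • b p i + r • proj (a s0 p) (b p i))) :=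
      app_fam (ha0.fam 0 1) hB
    have hdet : ∀ r ∈ Icc (0 : ℝ) 1, ∀ p, (toM (app (a s0 p) fun i : Fin 2 =>
        (1 - r) • b p i + r • proj (a s0 p) (b p i))).det ≠ 0 := by
      intro r _ p
      rw [det_app_proj]
      exact hd p
    have hCS := CS_fam zero_le_one _ hM hdet
    simpa using hCS

lemma trans_step {s0 s1 : ℝ} (a : ℝ → P3 → Fin 4 → V6) (ha : NiceFam s0 s1 a)
    (hli : ∀ s ∈ Icc s0 s1, ∀ p, LinearIndependent ℝ (a s p)) {δ : ℝ}
    (hδ : ∀ s ∈ Icc s0 s1, ∀ t ∈ Icc s0 s1, |s - t| ≤ δ →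
      ∀ p, ((toM (a s p))ᵀ * toM (a t p)).det ≠ 0) {s t : ℝ} (hs : s0 ≤ s) (hst : s ≤ t)
    (ht : t ≤ s1) (hd : t - s ≤ δ) (b : P3 → Fin 2 → V6) (hb : Nice b)
    (hdet : ∀ p, (toM (app (a s p) (b p))).det ≠ 0) (horth : ∀ p i j, a s p i ⬝ᵥ b p j = 0) :
    ∃ b' : P3 → Fin 2 → V6, Nice b' ∧ (∀ p, (toM (app (a t p) (b' p))).det ≠ 0) ∧
      (∀ p i j, a t p i ⬝ᵥ b' p j = 0) ∧
      CS (fun p => toM (app (a s p) (b p))) = CS (fun p => toM (app (a t p) (b' p))) := by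
  have hpf : NiceFam s t (fun u p i => proj (a u p) (b p i)) := trans_famProj hs ht ha hli hb
  have har : NiceFam s t a := trans_restrict hs ht ha
  have hsI : s ∈ Icc s0 s1 := ⟨hs, hst.trans ht⟩
  have htI : t ∈ Icc s0 s1 := ⟨hs.trans hst, ht⟩
  have hmem : ∀ u ∈ Icc s t, u ∈ Icc s0 s1 := fun u hu => ⟨hs.trans hu.1, hu.2.trans ht⟩
  have hdu : ∀ u ∈ Icc s t, ∀ p,
      (toM (app (a u p) fun i => proj (a u p) (b p i))).det ≠ 0 := by
    intro u hu p
    rw [det_app_ne_zero_iff]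
    refine (app_proj_of_gram (a := a s p) (hli u (hmem u hu) p)
      (trans_indep_right (det_app_ne_zero_iff.1 (hdet p))) (fun j i => horth p j i) ?_).1
    apply hδ s hsI u (hmem u hu)
    rw [abs_sub_comm, abs_of_nonneg (sub_nonneg.2 hu.1)]
    linarith [hu.2]
  refine ⟨fun p i => proj (a t p) (b p i), hpf.nice ⟨hst, le_rfl⟩, hdu t ⟨hst, le_rfl⟩,
    fun p i j => proj_orth (hli t htI p) _ i, ?_⟩
  have hM : NiceFam s t (fun u p => toM (app (a u p) fun i => proj (a u p) (b p i))) :=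
    app_fam har hpf
  have hCS := CS_fam hst _ hM hdu
  have h3 : (fun p => toM (app (a s p) fun i => proj (a s p) (b p i))) =
      fun p => toM (app (a s p) (b p)) := by
    funext p
    have h4 : (fun i => proj (a s p) (b p i)) = b p := by
      funext i
      exact proj_eq_self (fun j => horth p j i)
    rw [h4]
  rw [h3] at hCS
  exact hCS

/-- Transport of a completion along a family of independent quadruples. -/
theorem transport {s0 s1 : ℝ} (h : s0 ≤ s1) (a : ℝ → P3 → Fin 4 → V6) (ha : NiceFam s0 s1 a)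
    (hli : ∀ s ∈ Icc s0 s1, ∀ p, LinearIndependent ℝ (a s p)) (b : P3 → Fin 2 → V6)
    (hb : Nice b) (hd : ∀ p, (toM (app (a s0 p) (b p))).det ≠ 0) :
    ∃ b' : P3 → Fin 2 → V6, Nice b' ∧ (∀ p, (toM (app (a s1 p) (b' p))).det ≠ 0) ∧
      (∀ p i j, a s1 p i ⬝ᵥ b' p j = 0) ∧
      CS (fun p => toM (app (a s0 p) (b p))) = CS (fun p => toM (app (a s1 p) (b' p))) := by
  obtain ⟨δ, hδ0, hδ⟩ := gram_uniform h a ha hli
  have key : ∀ k : ℕ, ∃ b' : P3 → Fin 2 → V6, Nice b' ∧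
      (∀ p, (toM (app (a (min s1 (s0 + k * δ)) p) (b' p))).det ≠ 0) ∧
      (∀ p i j, a (min s1 (s0 + k * δ)) p i ⬝ᵥ b' p j = 0) ∧
      CS (fun p => toM (app (a s0 p) (b p))) =
        CS (fun p => toM (app (a (min s1 (s0 + k * δ)) p) (b' p))) := by
    intro k
    induction k with
    | zero =>
      have e0 : min s1 (s0 + ((0 : ℕ) : ℝ) * δ) = s0 := by simp [h]
      rw [e0]
      exact trans_start h a ha hli b hb hd
    | succ k ih =>
      obtain ⟨b1, h1, h2, h3, h4⟩ := ih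
      have hk : s0 + (k : ℝ) * δ ≤ s0 + ((k + 1 : ℕ) : ℝ) * δ := by
        push_cast
        nlinarith
      have hkk : s0 + ((k + 1 : ℕ) : ℝ) * δ = s0 + (k : ℝ) * δ + δ := by
        push_cast
        ring
      have hlow : s0 ≤ min s1 (s0 + (k : ℝ) * δ) := by
        refine le_min h ?_
        have : 0 ≤ (k : ℝ) * δ := by positivity
        linarith
      obtain ⟨b2, g1, g2, g3, g4⟩ := trans_step a ha hli hδ hlow (min_le_min_left s1 hk)
        (min_le_left _ _) (by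
          rw [hkk]
          rcases le_total s1 (s0 + (k : ℝ) * δ) with hc | hc
          · rw [min_eq_left hc, min_eq_left (by linarith)]
            linarith
          · rw [min_eq_right hc]
            linarith [min_le_right s1 (s0 + (k : ℝ) * δ + δ)]) b1 h1 h2 h3
      exact ⟨b2, g1, g2, g3, h4.trans g4⟩
  obtain ⟨k, hk⟩ := exists_nat_ge ((s1 - s0) / δ)
  have hk2 : s1 ≤ s0 + k * δ := by
    rw [div_le_iff₀ hδ0] at hk
    linarith
  have := key k
  rwa [min_eq_left hk2] at this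

end Pool.Agent.Lib.SkewU
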